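import Pool.Agent.Q227.FM.Reg

/-!
# The degree of the dual
-/

set_option autoImplicit false
set_option linter.unusedSectionVars false
set_option linter.unusedSimpArgs false
set_option backward.isDefEq.respectTransparency false
set_option backward.defeqAttrib.useBackward true

open CategoryTheory Limits MonoidalCategory Pretriangulated Triangulated
open Pool.Agent.Y116.MT

namespace Pool.Agent.Q227.FM

universe v u w

open Functor.LaxMonoidal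

section

variable {C : Type u} [Category.{v} C] [MonoidalCategory C] [RightRigidCategory C]

/-- The triangle identity, tensored with an object. -/
lemma triangle_tensor (U A : C) :
    (ρ_ (U ⊗ (Aᘁ : C))).inv ≫ (U ⊗ (Aᘁ : C)) ◁ η_ A (Aᘁ : C) ≫
      (α_ (U ⊗ (Aᘁ : C)) A (Aᘁ : C)).inv ≫
      ((α_ U (Aᘁ : C) A).hom ≫ U ◁ ε_ A (Aᘁ : C) ≫ (ρ_ U).hom) ▷ (Aᘁ : C) = 𝟙 _ := by
  have h := ExactPairing.coevaluation_evaluation A (Aᘁ : C)
  calc _ = 𝟙 _ ⊗≫ U ◁ ((Aᘁ : C) ◁ η_ A (Aᘁ : C) ≫ (α_ (Aᘁ : C) A (Aᘁ : C)).inv ≫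
        ε_ A (Aᘁ : C) ▷ (Aᘁ : C)) ⊗≫ 𝟙 _ := by monoidal
    _ = 𝟙 _ := by
      rw [h]
      monoidal

end

section

variable {C : Type u} [Category.{v} C] [Preadditive C] [HasZeroObject C] [HasShift C ℤ]
  [∀ n : ℤ, (shiftFunctor C n).Additive] [Pretriangulated C] [MonoidalCategory C]
  [SymmetricCategory C] [TensorTriangulated C] [RightRigidCategory C]
  {E : Type w} [Field E] {R : Realisation C E}

lemma H_dual_zero {U A : C} (hA : R.Deg A 0) (hU : IsZero (R.H.obj U)) :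
    IsZero (R.H.obj (U ⊗ (Aᘁ : C))) := by
  have hμ : IsIso (μ R.H A (Aᘁ : C)) := hA.isIso_mu (Aᘁ : C)
  set M : C := (Aᘁ : C) with hM
  let κ : (U ⊗ M) ⊗ A ⟶ U := (α_ U M A).hom ≫ U ◁ ε_ A M ≫ (ρ_ U).hom
  have h0 : R.H.map κ = 0 := hU.eq_of_tgt _ _
  have h1 := triangle_tensor U A
  rw [IsZero.iff_id_eq_zero]
  have h2 : 𝟙 (R.H.obj (U ⊗ M)) = R.H.map ((ρ_ (U ⊗ M)).inv ≫ (U ⊗ M) ◁ η_ A M ≫
      (α_ (U ⊗ M) A M).inv ≫ κ ▷ M) := by
    rw [h1, CategoryTheory.Functor.map_id]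
  have h3 : (0 : R.H.obj ((U ⊗ M) ⊗ A) ⟶ R.H.obj U) ▷ R.H.obj M = 0 :=
    (tensorRight _).map_zero _ _
  have h4 : R.H.map ((ρ_ (U ⊗ M)).inv) ≫ R.H.map ((U ⊗ M) ◁ η_ A M) =
      ((ρ_ (R.H.obj (U ⊗ M))).inv ≫ R.H.obj (U ⊗ M) ◁ (ε R.H ≫ R.H.map (η_ A M) ≫
        inv (μ R.H A M))) ≫ R.H.obj (U ⊗ M) ◁ μ R.H A M ≫ μ R.H (U ⊗ M) (A ⊗ M) := by
    rw [← right_unitality_inv, Category.assoc, Category.assoc, ← μ_natural_right]
    simp only [← MonoidalCategory.whiskerLeft_comp_assoc, Category.assoc]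
    rw [IsIso.inv_hom_id, Category.comp_id]
  rw [h2, Functor.map_comp, Functor.map_comp, Functor.map_comp, ← Category.assoc, h4]
  simp only [Category.assoc]
  rw [associativity_inv_assoc, ← μ_natural_left, h0]
  simp only [Category.assoc, h3, zero_comp, comp_zero]

/-- The dual of an object in degree `0` is in degree `0`. -/
lemma deg_dual_zero {A : C} (hA : R.Deg A 0) : R.Deg (Aᘁ : C) 0 := by
  intro k hk
  have h1 : IsZero (R.H.obj ((𝟙_ C)⟦k⟧)) := deg_unit k hk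
  exact (H_dual_zero hA h1).of_iso (R.H.mapIso ((shiftFunctor C k).mapIso (λ_ (Aᘁ : C)).symm ≪≫
    (lShift (𝟙_ C) (Aᘁ : C) k).symm))

/-- The degree of the dual. -/
lemma deg_dual {A : C} {d : ℤ} (hA : R.Deg A d) : R.Deg (Aᘁ : C) (-d) := by
  have h1 : R.Deg (A⟦d⟧) 0 := hA.shift d 0 (by omega)
  have h2 : R.Deg ((Aᘁ : C)⟦-d⟧) 0 := (deg_dual_zero h1).iso (dualShift A d)
  have h3 : R.Deg (((Aᘁ : C)⟦-d⟧)⟦d⟧) (-d) := h2.shift d (-d) (by omega)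
  exact h3.iso (shiftNegShift (Aᘁ : C) d)

end

end Pool.Agent.Q227.FM
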