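import Pool.Agent.Q227.FM.Grd

/-!
# The decomposition of the good objects
-/

set_option autoImplicit false
set_option linter.unusedSectionVars false
set_option backward.isDefEq.respectTransparency false
set_option backward.defeqAttrib.useBackward true

open CategoryTheory Limits Pretriangulated Triangulated ZeroObject
open Pool.Agent.Y116.MT (ye1 ye2 ye3 ce1 ce2 ce3 comp12 comp23 comp31 rotD isIso1_of_isZero3)

namespace Pool.Agent.Q227.FM

universe v u

section

variable {C : Type u} [Category.{v} C] [Preadditive C] [HasZeroObject C] [HasShift C ℤ]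
  [∀ n : ℤ, (shiftFunctor C n).Additive] [Pretriangulated C]
  {ι : Type} {P : ι → ObjectProperty C} {sh : ℤ → ι → ι}

lemma gd_triangulated [IsIdempotentComplete C] (hP : Grd P sh) :
    (Gd P).IsStableUnderRetracts ∧ (Gd P).IsTriangulated := by
  have h1 : (Gd P).IsStableUnderRetracts := ⟨fun r h => gd_retract hP r.i r.r r.retract h⟩
  have h2 : (Gd P).IsStableUnderShift ℤ := ⟨fun a => ⟨fun _ hX => gd_shift hP a hX⟩⟩
  have h3 : (Gd P).ContainsZero := ⟨0, isZero_zero C, gd_zero hP (isZero_zero C)⟩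
  exact ⟨h1, { ext₂' := fun _ hT h1 h3 => ObjectProperty.le_isoClosure _ _ (gd_ext hP hT h1 h3) }⟩

/-- If the members of a generating family are good, all objects are good. -/
theorem gd_all [IsIdempotentComplete C] [IsTriangulated C] (hP : Grd P sh)
    {Q : ObjectProperty C} (hQ : Q ≤ Gd P)
    (hgen : Q.IsClassicalTriangulatedGenerator) (X : C) : Gd P X := by
  obtain ⟨h1, h2⟩ := gd_triangulated hP
  have h3 := Q.triangEnvelope_le_iff.mpr hQ
  rw [hgen] at h3
  exact h3 X trivial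

/-- The objects orthogonal to `W`. -/
def Ort (W : C) : ObjectProperty C := fun X => ∀ (n : ℤ) (f : X⟦n⟧ ⟶ W), f = 0

lemma ort_triangulated (W : C) : (Ort W).IsStableUnderRetracts ∧ (Ort W).IsTriangulated := by
  have h1 : (Ort W).IsStableUnderRetracts := by
    refine ⟨fun {X Y} r h n f => ?_⟩
    have h2 : f = (r.i⟦n⟧') ≫ (r.r⟦n⟧') ≫ f := by
      rw [← Category.assoc, ← Functor.map_comp, r.retract, CategoryTheory.Functor.map_id,
        Category.id_comp]
    rw [h2, h n (r.r⟦n⟧' ≫ f), comp_zero]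
  have h2 : (Ort W).IsStableUnderShift ℤ := by
    refine ⟨fun a => ⟨fun X hX n f => ?_⟩⟩
    rw [← cancel_epi ((shiftFunctorAdd C a n).hom.app X), comp_zero]
    exact hX _ _
  have h3 : (Ort W).ContainsZero := by
    refine ⟨0, isZero_zero C, fun n f => ?_⟩
    exact ((shiftFunctor C n).map_isZero (isZero_zero C)).eq_of_src _ _
  refine ⟨h1, { ext₂' := fun T hT h1 h3 => ObjectProperty.le_isoClosure _ _ fun n f => ?_ }⟩
  have hT' := Triangle.shift_distinguished _ hT n
  obtain ⟨g, hg⟩ := Triangle.yoneda_exact₂ _ hT' f (h1 n _)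
  rw [hg]
  have : g = 0 := h3 n g
  rw [this, comp_zero]

lemma isZero_of_ort [IsTriangulated C] {Q : ObjectProperty C}
    (hgen : Q.IsClassicalTriangulatedGenerator) (W : C)
    (h : ∀ (B : C) (n : ℤ) (f : B⟦n⟧ ⟶ W), Q B → f = 0) : IsZero W := by
  obtain ⟨h1, h2⟩ := ort_triangulated W
  have hQ : Q ≤ Ort W := fun B hB n f => h B n f hB
  have h3 := Q.triangEnvelope_le_iff.mpr hQ
  rw [hgen] at h3
  have h4 := h3 W trivial 0 ((shiftFunctorZero C ℤ).hom.app W)
  rw [IsZero.iff_id_eq_zero, ← cancel_epi ((shiftFunctorZero C ℤ).hom.app W), h4]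
  simp

/-- The decomposition of an object. -/
structure Decomp (P : ι → ObjectProperty C) (X : C) where
  /-- the indices -/
  J : Finset ι
  /-- the summands -/
  A : ι → C
  /-- the inclusions -/
  v : ∀ i, A i ⟶ X
  /-- the projections -/
  r : ∀ i, X ⟶ A i
  hA : ∀ i ∈ J, P i (A i)
  vr : ∀ i ∈ J, v i ≫ r i = 𝟙 (A i)
  total : ∑ i ∈ J, r i ≫ v i = 𝟙 X

theorem exists_decomp (hP : Grd P sh) {X : C} (hX : Gd P X)
    (hz : ∀ W : C, (∀ (i : ι) (B : C) (f : B ⟶ W), P i B → f = 0) → IsZero W) :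
    Nonempty (Decomp P X) := by
  classical
  choose A v hA h1 h2 using hX.1
  set J := hX.2.toFinset with hJ
  let S : C := ⨁ fun i : J => A i
  let σ : S ⟶ X := biproduct.desc fun i : J => v i
  have hinj : ∀ (i : ι) (B : C) (y : B ⟶ S), P i B → y ≫ σ = 0 → y = 0 := by
    intro i B y hB hy
    have h3 : ∀ j : J, i ≠ j → y ≫ biproduct.π (fun i : J => A i) j = 0 := fun j hij =>
      hP.orth i j _ _ _ hij hB (hA j)
    apply biproduct.hom_ext
    intro j
    rw [zero_comp]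
    by_cases hij : i = j
    · subst hij
      apply h1 _ _ _ hB
      have hd : σ = ∑ j : J, biproduct.π (fun i : J => A i) j ≫ v j :=
        biproduct.desc_eq (f := fun i : J => A i) (g := fun i : J => v i)
      rw [hd, Preadditive.comp_sum] at hy
      rw [Finset.sum_eq_single j] at hy
      · rwa [Category.assoc]
      · intro k _ hk
        rw [← Category.assoc, h3 k (fun h => hk (Subtype.ext h.symm)), zero_comp]
      · intro h
        exact absurd (Finset.mem_univ _) h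
    · exact h3 j hij
  have hsurj : ∀ (i : ι) (B : C) (g : B ⟶ X), P i B → ∃ y : B ⟶ S, g = y ≫ σ := by
    intro i B g hB
    by_cases hg : g = 0
    · exact ⟨0, by rw [hg, zero_comp]⟩
    · have hi : i ∈ J := by
        rw [hJ, Set.Finite.mem_toFinset]
        exact ⟨B, g, hB, hg⟩
      obtain ⟨y, hy⟩ := h2 i B g hB
      refine ⟨y ≫ biproduct.ι (fun i : J => A i) ⟨i, hi⟩, ?_⟩
      rw [Category.assoc, biproduct.ι_desc]
      exact hy
  have hiso : IsIso σ := by
    obtain ⟨W, g, h, hT⟩ := distinguished_cocone_triangle σ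
    apply isIso1_of_isZero3 hT
    apply hz
    intro i B f hB
    have h3 : f ≫ h = 0 := by
      obtain ⟨y, hy⟩ := shift_lift (f ≫ h)
      have h4 : y = 0 := by
        have hi : sh 1 (sh (-1) i) = i := hP.sh_neg' 1 i
        apply hinj (sh (-1) i) _ y (hP.shift (-1) i B hB)
        apply (shiftFunctor C (1 : ℤ)).map_injective
        rw [Functor.map_comp, Functor.map_zero, ← cancel_epi (shiftNegShift B 1).inv,
          ← Category.assoc, ← hy, Category.assoc, comp31 hT, comp_zero, comp_zero]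
      rw [hy, h4, Functor.map_zero, comp_zero]
    obtain ⟨x, rfl⟩ := ce3 hT f h3
    obtain ⟨y, rfl⟩ := hsurj i B x hB
    rw [Category.assoc, comp12 hT, comp_zero]
  let r : ∀ i, X ⟶ A i := fun i => if hi : i ∈ J then
    inv σ ≫ biproduct.π (fun i : J => A i) ⟨i, hi⟩ else 0
  refine ⟨⟨J, A, v, r, fun i _ => hA i, fun i hi => ?_, ?_⟩⟩
  · have h3 : v i = biproduct.ι (fun i : J => A i) ⟨i, hi⟩ ≫ σ := by
      rw [biproduct.ι_desc]
    simp only [r, dif_pos hi]
    rw [h3, Category.assoc, IsIso.hom_inv_id_assoc, biproduct.ι_π_self]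
  · rw [← Finset.sum_coe_sort J]
    have h3 : ∀ j : J, r j ≫ v j = inv σ ≫ (biproduct.π (fun i : J => A i) j ≫
        biproduct.ι (fun i : J => A i) j) ≫ σ := by
      intro j
      simp only [r, dif_pos j.2]
      rw [Category.assoc, Category.assoc, biproduct.ι_desc]
    have ht : ∑ j : J, biproduct.π (fun i : J => A i) j ≫ biproduct.ι (fun i : J => A i) j =
        𝟙 (⨁ fun i : J => A i) := biproduct.total (f := fun i : J => A i)
    rw [Finset.sum_congr rfl fun j _ => h3 j, ← Preadditive.comp_sum, ← Preadditive.sum_comp,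
      ht, Category.id_comp, IsIso.inv_hom_id]

/-- All morphisms between decomposable objects are regular. -/
theorem regular_of_decomp (hP : Grd P sh) {X Y : C} (dX : Decomp P X) (dY : Decomp P Y)
    (f : X ⟶ Y) : ∃ g : Y ⟶ X, f ≫ g ≫ f = f := by
  classical
  have h1 : ∀ i, ∃ ψ : dY.A i ⟶ dX.A i, i ∈ dX.J → i ∈ dY.J →
      (dX.v i ≫ f ≫ dY.r i) ≫ ψ ≫ (dX.v i ≫ f ≫ dY.r i) = dX.v i ≫ f ≫ dY.r i := by
    intro i
    by_cases h : i ∈ dX.J ∧ i ∈ dY.J
    · obtain ⟨ψ, hψ⟩ := hP.reg i _ _ (dX.v i ≫ f ≫ dY.r i) (dX.hA i h.1) (dY.hA i h.2)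
      exact ⟨ψ, fun _ _ => hψ⟩
    · exact ⟨0, fun h2 h3 => absurd ⟨h2, h3⟩ h⟩
  choose ψ hψ using h1
  let g : Y ⟶ X := ∑ i ∈ dX.J ∩ dY.J, dY.r i ≫ ψ i ≫ dX.v i
  have h2 : ∀ i ∈ dX.J, dX.v i ≫ f ≫ g ≫ f = dX.v i ≫ f := by
    intro i hi
    have h3 : dX.v i ≫ f = if i ∈ dY.J then (dX.v i ≫ f ≫ dY.r i) ≫ dY.v i else 0 := by
      have h4 : dX.v i ≫ f = ∑ j ∈ dY.J, (dX.v i ≫ f ≫ dY.r j) ≫ dY.v j := by
        conv_lhs => rw [← Category.comp_id f, ← dY.total, Preadditive.comp_sum,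
          Preadditive.comp_sum]
        exact Finset.sum_congr rfl fun j _ => by simp only [Category.assoc]
      rw [h4]
      have h5 : ∀ j ∈ dY.J, j ≠ i → (dX.v i ≫ f ≫ dY.r j) ≫ dY.v j = 0 := by
        intro j hj hij
        rw [hP.orth i j _ _ (dX.v i ≫ f ≫ dY.r j) hij.symm (dX.hA i hi) (dY.hA j hj), zero_comp]
      split_ifs with h6
      · exact Finset.sum_eq_single_of_mem i h6 h5
      · exact Finset.sum_eq_zero fun j hj => h5 j hj (fun h => h6 (h ▸ hj))
    split_ifs at h3 with h6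
    · have h7 : dY.v i ≫ g = ψ i ≫ dX.v i := by
        simp only [g]
        rw [Preadditive.comp_sum, Finset.sum_eq_single_of_mem i (Finset.mem_inter.2 ⟨hi, h6⟩)]
        · rw [← Category.assoc, dY.vr i h6, Category.id_comp]
        · intro j hj hij
          rw [← Category.assoc, hP.orth i j _ _ (dY.v i ≫ dY.r j) hij.symm (dY.hA i h6)
            (dY.hA j (Finset.mem_inter.1 hj).2), zero_comp]
      calc dX.v i ≫ f ≫ g ≫ f = (dX.v i ≫ f) ≫ g ≫ f := by simp only [Category.assoc]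
        _ = ((dX.v i ≫ f ≫ dY.r i) ≫ dY.v i) ≫ g ≫ f := by rw [← h3]
        _ = (dX.v i ≫ f ≫ dY.r i) ≫ (dY.v i ≫ g) ≫ f := by simp only [Category.assoc]
        _ = (dX.v i ≫ f ≫ dY.r i) ≫ (ψ i ≫ dX.v i) ≫ f := by rw [h7]
        _ = (dX.v i ≫ f ≫ dY.r i) ≫ ψ i ≫ (dX.v i ≫ f) := by simp only [Category.assoc]
        _ = (dX.v i ≫ f ≫ dY.r i) ≫ ψ i ≫ ((dX.v i ≫ f ≫ dY.r i) ≫ dY.v i) := by rw [← h3]
        _ = ((dX.v i ≫ f ≫ dY.r i) ≫ ψ i ≫ (dX.v i ≫ f ≫ dY.r i)) ≫ dY.v i := by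
          simp only [Category.assoc]
        _ = (dX.v i ≫ f ≫ dY.r i) ≫ dY.v i := by rw [hψ i hi h6]
        _ = dX.v i ≫ f := h3.symm
    · rw [← Category.assoc, h3, zero_comp]
  refine ⟨g, ?_⟩
  calc f ≫ g ≫ f = (∑ i ∈ dX.J, dX.r i ≫ dX.v i) ≫ f ≫ g ≫ f := by
        rw [dX.total, Category.id_comp]
    _ = ∑ i ∈ dX.J, dX.r i ≫ dX.v i ≫ f ≫ g ≫ f := by
        rw [Preadditive.sum_comp]
        exact Finset.sum_congr rfl fun j _ => by simp only [Category.assoc]
    _ = ∑ i ∈ dX.J, dX.r i ≫ dX.v i ≫ f :=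
        Finset.sum_congr rfl fun j hj => by rw [h2 j hj]
    _ = (∑ i ∈ dX.J, dX.r i ≫ dX.v i) ≫ f := by
        rw [Preadditive.sum_comp]
        exact Finset.sum_congr rfl fun j _ => by simp only [Category.assoc]
    _ = f := by rw [dX.total, Category.id_comp]

end

end Pool.Agent.Q227.FM
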