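import Pool.Agent.Q227.FM.Flt
import Pool.Agent.Q227.FM.Dec
import Pool.Agent.Y116.MT.Mot

/-!
# Truncations and conservativity for categories with semisimple layers
-/

set_option autoImplicit false
set_option linter.unusedSectionVars false
set_option backward.isDefEq.respectTransparency false
set_option backward.defeqAttrib.useBackward true

open CategoryTheory Limits MonoidalCategory Pretriangulated Triangulated ZeroObject
open Pool.Agent.Y116.MT

namespace Pool.Agent.Q227.FM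

universe v u w

section

variable {C : Type u} [Category.{v} C] [Preadditive C] [HasZeroObject C] [HasShift C ℤ]
  [∀ n : ℤ, (shiftFunctor C n).Additive] [Pretriangulated C]

/-- The retracts of the objects with filtrations. -/
def RF (S : ℤ → ObjectProperty C) : ObjectProperty C := fun Y =>
  ∃ (b : ℤ) (X : C) (i : Y ⟶ X) (p : X ⟶ Y), i ≫ p = 𝟙 Y ∧ Flt S b X

variable {S : ℤ → ObjectProperty C} (hS : Lay S)

lemma rf_retract {X Y : C} (a : Y ⟶ X) (b : X ⟶ Y) (hab : a ≫ b = 𝟙 Y) (h : RF S X) :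
    RF S Y := by
  obtain ⟨n, W, i, p, hip, hW⟩ := h
  refine ⟨n, W, a ≫ i, p ≫ b, ?_, hW⟩
  rw [Category.assoc, ← Category.assoc i, hip, Category.id_comp, hab]

lemma rf_zero {X : C} (hX : IsZero X) : RF S X :=
  ⟨0, X, 𝟙 X, 𝟙 X, Category.comp_id _, Flt.zero _ _ hX⟩

include hS in
lemma rf_shift (n : ℤ) {X : C} (h : RF S X) : RF S (X⟦n⟧) := by
  obtain ⟨b, W, i, p, hip, hW⟩ := h
  exact ⟨b + n, W⟦n⟧, i⟦n⟧', p⟦n⟧', by
    rw [← Functor.map_comp, hip, CategoryTheory.Functor.map_id], hW.shift hS n⟩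

variable [IsTriangulated C] [IsIdempotentComplete C]

include hS

lemma rf_ext {Y₁ Y Y₂ : C} {f : Y₁ ⟶ Y} {g : Y ⟶ Y₂} {δ : Y₂ ⟶ Y₁⟦(1 : ℤ)⟧}
    (hT : Triangle.mk f g δ ∈ distTriang C) (h1 : RF S Y₁) (h2 : RF S Y₂) : RF S Y := by
  obtain ⟨b₁, X₁, j, q, hjq, hX₁⟩ := h1
  obtain ⟨b₂, X₂, i, p, hip, hX₂⟩ := h2
  obtain ⟨W, f', g', hW⟩ := distinguished_cocone_triangle₂ (p ≫ δ ≫ j⟦(1 : ℤ)⟧')
  have c1 : δ ≫ j⟦(1 : ℤ)⟧' = i ≫ p ≫ δ ≫ j⟦(1 : ℤ)⟧' := by
    rw [← Category.assoc i, hip, Category.id_comp]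
  have c2 : (p ≫ δ ≫ j⟦(1 : ℤ)⟧') ≫ q⟦(1 : ℤ)⟧' = p ≫ δ := by
    rw [Category.assoc, Category.assoc, ← Functor.map_comp, hjq, CategoryTheory.Functor.map_id]
    erw [Category.comp_id]
  obtain ⟨y, hy1, hy2⟩ := complete_distinguished_triangle_morphism₂ _ _ hT hW j i c1
  obtain ⟨y', hy1', hy2'⟩ := complete_distinguished_triangle_morphism₂ _ _ hW hT q p c2
  change f ≫ y = j ≫ f' at hy1
  change g ≫ i = y ≫ g' at hy2
  change f' ≫ y' = q ≫ f at hy1'
  change g' ≫ p = y' ≫ g at hy2'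
  let φ : Triangle.mk f g δ ⟶ Triangle.mk f g δ :=
    { hom₁ := 𝟙 Y₁
      hom₂ := y ≫ y'
      hom₃ := 𝟙 Y₂
      comm₁ := by
        change f ≫ y ≫ y' = 𝟙 _ ≫ f
        rw [← Category.assoc, hy1, Category.assoc, hy1', ← Category.assoc, hjq]
      comm₂ := by
        change g ≫ 𝟙 _ = (y ≫ y') ≫ g
        rw [Category.assoc, ← hy2', ← Category.assoc, ← hy2, Category.assoc, hip]
      comm₃ := by
        change δ ≫ (𝟙 Y₁)⟦(1 : ℤ)⟧' = 𝟙 _ ≫ δ
        rw [CategoryTheory.Functor.map_id, Category.id_comp]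
        exact Category.comp_id _ }
  have hiso : IsIso (y ≫ y') := isIso₂_of_isIso₁₃ φ hT hT
    (inferInstanceAs (IsIso (𝟙 Y₁))) (inferInstanceAs (IsIso (𝟙 Y₂)))
  refine ⟨max b₁ b₂, W, y, y' ≫ inv (y ≫ y'), ?_, hX₁.ext hS b₂ W X₂ hX₂ ⟨_, _, _, hW⟩⟩
  rw [← Category.assoc, IsIso.hom_inv_id]

lemma rf_triangulated : (RF S).IsStableUnderRetracts ∧ (RF S).IsTriangulated := by
  have h1 : (RF S).IsStableUnderRetracts := ⟨fun r h => rf_retract r.i r.r r.retract h⟩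
  have h2 : (RF S).IsStableUnderShift ℤ := ⟨fun a => ⟨fun _ hX => rf_shift hS a hX⟩⟩
  have h3 : (RF S).ContainsZero := ⟨0, isZero_zero C, rf_zero (isZero_zero C)⟩
  exact ⟨h1, { ext₂' := fun _ hT h1 h3 => ObjectProperty.le_isoClosure _ _ (rf_ext hS hT h1 h3) }⟩

theorem rf_all {Q : ObjectProperty C} (hQ : Q ≤ RF S)
    (hgen : Q.IsClassicalTriangulatedGenerator) (X : C) : RF S X := by
  obtain ⟨h1, h2⟩ := rf_triangulated hS
  have h3 := Q.triangEnvelope_le_iff.mpr hQ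
  rw [hgen] at h3
  exact h3 X trivial

/-- Finite direct sums of retracts. -/
lemma rf_sum {m : ℕ} {P : C} (A : Fin m → C) (v : ∀ i, A i ⟶ P) (r : ∀ i, P ⟶ A i)
    (hA : ∀ i, RF S (A i)) (h : ∑ i, r i ≫ v i = 𝟙 P) : RF S P := by
  classical
  have key : ∀ s : Finset (Fin m), ∃ (W : C) (x : P ⟶ W) (y : W ⟶ P), RF S W ∧
      x ≫ y = ∑ i ∈ s, r i ≫ v i := by
    intro s
    induction s using Finset.induction_on with
    | empty => exact ⟨0, 0, 0, rf_zero (isZero_zero C), by simp⟩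
    | insert a s ha ih =>
      obtain ⟨W, x, y, hW, hxy⟩ := ih
      refine ⟨W ⊞ A a, biprod.lift x (r a), biprod.desc y (v a),
        rf_ext hS (binaryBiproductTriangle_distinguished W (A a)) hW (hA a), ?_⟩
      rw [biprod.lift_desc, hxy, Finset.sum_insert ha, add_comm]
  obtain ⟨W, x, y, hW, hxy⟩ := key Finset.univ
  exact rf_retract x y (hxy.trans h) hW

end

section

variable {C : Type u} [Category.{v} C] [Preadditive C] [HasZeroObject C] [HasShift C ℤ]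
  [∀ n : ℤ, (shiftFunctor C n).Additive] [Pretriangulated C]
  {A : Type*} [Category A] [Abelian A] (H : C ⥤ A) [H.IsHomological]
  {X Y Z : C} {f : X ⟶ Y} {g : Y ⟶ Z} {h : Z ⟶ X⟦(1 : ℤ)⟧}
  (hT : Triangle.mk f g h ∈ distTriang C)

include hT in
lemma hz3' (n m : ℤ) (hm : n + 1 = m) (h1 : Epi (H.map (f⟦n⟧'))) (h2 : Mono (H.map (f⟦m⟧'))) :
    IsZero (H.obj (Z⟦n⟧)) := by
  let _ := Functor.ShiftSequence.tautological H ℤ
  have e1 := (H.homologySequence_epi_shift_map_mor₁_iff _ hT n).1 h1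
  have e2 := (H.homologySequence_mono_shift_map_mor₁_iff _ hT n m hm).1 h2
  exact (H.homologySequence_exact₃ _ hT n m hm).isZero_of_both_zeros e1 e2

end

section

variable {C : Type u} [Category.{v} C] [Preadditive C] [HasZeroObject C] [HasShift C ℤ]
  [∀ n : ℤ, (shiftFunctor C n).Additive] [Pretriangulated C] [MonoidalCategory C]
  [SymmetricCategory C] [TensorTriangulated C]
  {Λ : Type*} {E : Λ → Type w} [∀ l, Field (E l)] {R : ∀ l, Realisation C (E l)}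
  {S : ℤ → ObjectProperty C} (hdeg : ∀ (l : Λ) (b : ℤ) (X : C), S b X → (R l).Deg X (-b))

include hdeg

lemma deg_flt (l : Λ) {b : ℤ} {X : C} (h : Flt S b X) (j : ℤ) (hj : j < -b) :
    IsZero ((R l).H.obj (X⟦j⟧)) := by
  induction h with
  | zero b X h => exact (R l).H.map_isZero ((shiftFunctor C j).map_isZero h)
  | cons b b' A X Y hb hA hY h ih =>
    obtain ⟨x, y, z, hT⟩ := h
    exact hz2 (R l).H hT j (hdeg l b' A hA j (by omega)) (ih (by omega))

lemma deg_glt (l : Λ) {c : ℤ} {X : C} (h : Glt S c X) (j : ℤ) (hj : -c < j) :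
    IsZero ((R l).H.obj (X⟦j⟧)) := by
  induction h with
  | zero X h => exact (R l).H.map_isZero ((shiftFunctor C j).map_isZero h)
  | cons c' A X Y hc hA hY h ih =>
    obtain ⟨x, y, z, hT⟩ := h
    exact hz2 (R l).H hT j (hdeg l c' A hA j (by omega)) ih

lemma cons_flt (l : Λ)
    (h0 : ∀ (b : ℤ) (X : C), S b X → (∀ j : ℤ, IsZero ((R l).H.obj (X⟦j⟧))) → IsZero X)
    {b : ℤ} {X : C} (h : Flt S b X) (hX : ∀ j : ℤ, IsZero ((R l).H.obj (X⟦j⟧))) : IsZero X := by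
  induction h with
  | zero b X h => exact h
  | cons b b' A X Y hb hA hY h ih =>
    obtain ⟨x, y, z, hT⟩ := h
    have h1 : IsZero A := by
      apply h0 b' A hA
      intro j
      by_cases hj : j = -b'
      · subst hj
        exact hz1 (R l).H hT _ (hX _) (deg_flt hdeg l hY _ (by omega))
      · exact hdeg l b' A hA j hj
    have h2 : IsZero Y := by
      apply ih
      intro j
      exact hz3 (R l).H hT j (hX j) ((R l).H.map_isZero ((shiftFunctor C _).map_isZero h1))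
    exact isZero2 hT h1 h2

variable (hS : Lay S) [IsTriangulated C] [IsIdempotentComplete C]

include hS

/-- The realisation is conservative. -/
theorem cons_rf (l : Λ)
    (h0 : ∀ (b : ℤ) (X : C), S b X → (∀ j : ℤ, IsZero ((R l).H.obj (X⟦j⟧))) → IsZero X)
    {Y : C} (h : RF S Y) (hY : ∀ j : ℤ, IsZero ((R l).H.obj (Y⟦j⟧))) : IsZero Y := by
  obtain ⟨b, X, i, p, hip, hX⟩ := h
  have h1 : ∀ j : ℤ, IsIso ((R l).H.map ((𝟙 X - p ≫ i)⟦j⟧')) := by
    intro j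
    have h2 : (R l).H.map ((p ≫ i)⟦j⟧') = 0 := by
      rw [Functor.map_comp, Functor.map_comp, (hY j).eq_of_tgt ((R l).H.map (p⟦j⟧')) 0,
        zero_comp]
    rw [Functor.map_sub, Functor.map_sub, h2, sub_zero, CategoryTheory.Functor.map_id,
      CategoryTheory.Functor.map_id]
    infer_instance
  have h3 : IsIso (𝟙 X - p ≫ i) := by
    let _ := Functor.ShiftSequence.tautological (R l).H ℤ
    obtain ⟨Z, g, k, hT, hZ⟩ := ((R l).H.mem_homologicalKernel_trW_iff (𝟙 X - p ≫ i)).2 h1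
    have h4 : Flt S (max b (b + 1)) Z :=
      hX.ext hS (b + 1) Z (X⟦(1 : ℤ)⟧) (hX.shift hS 1) (Tr.rot ⟨_, _, _, hT⟩)
    exact isIso1_of_isZero3 hT (cons_flt hdeg l h0 h4 hZ)
  have h5 : p ≫ i = 0 := by
    rw [← cancel_epi (𝟙 X - p ≫ i), comp_zero, Preadditive.sub_comp, Category.id_comp,
      Category.assoc, ← Category.assoc i, hip, Category.id_comp, sub_self]
  rw [IsZero.iff_id_eq_zero]
  calc 𝟙 Y = (i ≫ p) ≫ (i ≫ p) := by rw [hip, Category.comp_id]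
    _ = i ≫ (p ≫ i) ≫ p := by simp only [Category.assoc]
    _ = 0 := by rw [h5, zero_comp, comp_zero]

/-- Truncations exist. -/
theorem trunc_rf {Y : C} (h : RF S Y) : ∃ (A B : C), Tr A Y B ∧
    (∀ (l : Λ) (i : ℤ), 0 < i → IsZero ((R l).H.obj (A⟦i⟧))) ∧
    (∀ (l : Λ) (i : ℤ), i < 1 → IsZero ((R l).H.obj (B⟦i⟧))) := by
  obtain ⟨b, X, i, p, hip, hX⟩ := h
  obtain ⟨A, B, hA, hB, a, g, h, hT⟩ := hX.trunc 0
  have h1 : (a ≫ p ≫ i) ≫ g = 0 := orth2 hS hA hB (by omega) _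
  obtain ⟨ε, hε⟩ := ce2 hT (a ≫ p ≫ i) h1
  have h2 : ε ≫ ε = ε := by
    apply sub_eq_zero.1
    apply trunc_cancel hS hT hA hB
    have e1 : (ε ≫ ε) ≫ a = a ≫ p ≫ i := by
      calc (ε ≫ ε) ≫ a = ε ≫ ε ≫ a := Category.assoc _ _ _
        _ = ε ≫ a ≫ p ≫ i := by rw [← hε]
        _ = (ε ≫ a) ≫ p ≫ i := (Category.assoc _ _ _).symm
        _ = (a ≫ p ≫ i) ≫ p ≫ i := by rw [← hε]
        _ = a ≫ p ≫ (i ≫ p) ≫ i := by simp only [Category.assoc]
        _ = a ≫ p ≫ i := by rw [hip, Category.id_comp]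
    rw [Preadditive.sub_comp, e1, hε, sub_self]
  obtain ⟨A₁, u, v, huv, hvu⟩ := IsIdempotentComplete.idempotents_split _ _ h2
  have huε : u ≫ ε = u := by rw [← hvu, ← Category.assoc, huv, Category.id_comp]
  obtain ⟨B₁, g₁, h₁, hT₁⟩ := distinguished_cocone_triangle (u ≫ a ≫ p)
  refine ⟨A₁, B₁, ⟨_, _, _, hT₁⟩, ?_, ?_⟩
  · intro l j hj
    have h3 := deg_glt hdeg l hA j (by omega)
    rw [IsZero.iff_id_eq_zero]
    have h4 : 𝟙 ((R l).H.obj (A₁⟦j⟧)) = (R l).H.map (u⟦j⟧') ≫ (R l).H.map (v⟦j⟧') := by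
      rw [← Functor.map_comp, ← Functor.map_comp, huv, CategoryTheory.Functor.map_id,
        CategoryTheory.Functor.map_id]
    rw [h4, h3.eq_of_tgt ((R l).H.map (u⟦j⟧')) 0, zero_comp]
  · intro l j hj
    have hBz : ∀ k : ℤ, k < 1 → IsZero ((R l).H.obj (B⟦k⟧)) := fun k hk =>
      deg_flt hdeg l hB k (by omega)
    have hm : ∀ k : ℤ, k ≤ 1 → Mono ((R l).H.map ((u ≫ a ≫ p)⟦k⟧')) := by
      intro k hk
      have e1 : Mono ((R l).H.map (a⟦k⟧')) := hmono1 (R l).H hT k (hBz _ (by omega))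
      have e2 : Mono ((R l).H.map (u⟦k⟧')) := by
        have e3 : (R l).H.map (u⟦k⟧') ≫ (R l).H.map (v⟦k⟧') = 𝟙 _ := by
          rw [← Functor.map_comp, ← Functor.map_comp, huv, CategoryTheory.Functor.map_id,
            CategoryTheory.Functor.map_id]
        have e4 : IsSplitMono ((R l).H.map (u⟦k⟧')) := ⟨⟨⟨_, e3⟩⟩⟩
        infer_instance
      have e5 : (R l).H.map ((u ≫ a ≫ p)⟦k⟧') ≫ (R l).H.map (i⟦k⟧') =
          (R l).H.map (u⟦k⟧') ≫ (R l).H.map (a⟦k⟧') := by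
        rw [← Functor.map_comp, ← Functor.map_comp, ← Functor.map_comp, ← Functor.map_comp]
        congr 2
        calc (u ≫ a ≫ p) ≫ i = u ≫ a ≫ p ≫ i := by simp only [Category.assoc]
          _ = u ≫ ε ≫ a := by rw [hε]
          _ = (u ≫ ε) ≫ a := (Category.assoc _ _ _).symm
          _ = u ≫ a := by rw [huε]
      have e6 : Mono ((R l).H.map ((u ≫ a ≫ p)⟦k⟧') ≫ (R l).H.map (i⟦k⟧')) := by
        rw [e5]
        infer_instance
      exact mono_of_mono _ ((R l).H.map (i⟦k⟧'))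
    have he : ∀ k : ℤ, k < 1 → Epi ((R l).H.map ((u ≫ a ≫ p)⟦k⟧')) := by
      intro k hk
      have e1 : Epi ((R l).H.map (a⟦k⟧')) := hepi1 (R l).H hT k (hBz _ (by omega))
      have e2 : Epi ((R l).H.map (p⟦k⟧')) := by
        have e3 : (R l).H.map (i⟦k⟧') ≫ (R l).H.map (p⟦k⟧') = 𝟙 _ := by
          rw [← Functor.map_comp, ← Functor.map_comp, hip, CategoryTheory.Functor.map_id,
            CategoryTheory.Functor.map_id]
        have e4 : IsSplitEpi ((R l).H.map (p⟦k⟧')) := ⟨⟨⟨_, e3⟩⟩⟩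
        infer_instance
      have e5 : (R l).H.map (v⟦k⟧') ≫ (R l).H.map ((u ≫ a ≫ p)⟦k⟧') =
          (R l).H.map (a⟦k⟧') ≫ (R l).H.map (p⟦k⟧') := by
        rw [← Functor.map_comp, ← Functor.map_comp, ← Functor.map_comp, ← Functor.map_comp]
        congr 2
        calc v ≫ u ≫ a ≫ p = (v ≫ u) ≫ a ≫ p := by simp only [Category.assoc]
          _ = (ε ≫ a) ≫ p := by rw [hvu]; simp only [Category.assoc]
          _ = (a ≫ p ≫ i) ≫ p := by rw [hε]
          _ = a ≫ p ≫ (i ≫ p) := by simp only [Category.assoc]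
          _ = a ≫ p := by rw [hip, Category.comp_id]
      have e6 : Epi ((R l).H.map (v⟦k⟧') ≫ (R l).H.map ((u ≫ a ≫ p)⟦k⟧')) := by
        rw [e5]
        infer_instance
      exact epi_of_epi ((R l).H.map (v⟦k⟧')) _
    exact hz3' (R l).H hT₁ j (j + 1) rfl (he j hj) (hm (j + 1) (by omega))

end

end Pool.Agent.Q227.FM
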