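import Pool.Agent.Q227.FM.Std2
import Pool.Agent.Q227.FM.Rf
import Pool.Agent.Q227.FM.Dual

/-!
# The exact criterion for a motivic t-structure
-/

set_option autoImplicit false
set_option linter.unusedSectionVars false
set_option linter.unusedSimpArgs false
set_option backward.isDefEq.respectTransparency false
set_option backward.defeqAttrib.useBackward true

open CategoryTheory Limits MonoidalCategory Pretriangulated Triangulated ZeroObject
open Pool.Agent.Y116.MT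
open Pool.Agent.Q57.MT (Conservative HasTruncations tOf motivic_tOf)

namespace Pool.Agent.Q227.FM

universe v u w

section

variable {C : Type u} [Category.{v} C] [Preadditive C] [HasZeroObject C] [HasShift C ℤ]
  [∀ n : ℤ, (shiftFunctor C n).Additive] [Pretriangulated C] [MonoidalCategory C]
  [SymmetricCategory C] [TensorTriangulated C]
  {Λ : Type*} {E : Λ → Type w} [∀ l, Field (E l)]

/-- The vanishing conjecture (Beilinson-Soulé, Murre): `Hom(𝟙, A⟦n⟧) = 0` for all Chow motives `A`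
in degree `d` and all `n ≤ d`, except for `n = d = 0`. (For the part `A = h^i(X)(m)[2m]` of the
cohomology of a smooth projective variety `X`, `d = i - 2m`: the motivic cohomology
`H^q(h^i(X), ℚ(m))` vanishes for `q ≤ i`, unless `q = i = 2m`.) -/
def PureVanishing (Chow : ObjectProperty C) (R : ∀ l, Realisation C (E l)) : Prop :=
  ∀ (A : C) (d n : ℤ), Chow A → (∀ l, (R l).Deg A d) → n ≤ d → (n ≠ 0 ∨ d ≠ 0) →
    ∀ s : 𝟙_ C ⟶ A⟦n⟧, s = 0

/-- On the Chow motives `A` in degree `0` (for instance `A = h^(2m)(X)(m)[2m]`) rational and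
numerical equivalence agree: a morphism `s : 𝟙 ⟶ A` with `s ≫ r = 0` for all `r : A ⟶ 𝟙`
vanishes. -/
def PureNumerical (Chow : ObjectProperty C) (R : ∀ l, Realisation C (E l)) : Prop :=
  ∀ A : C, Chow A → (∀ l, (R l).Deg A 0) → ∀ s : 𝟙_ C ⟶ A, (∀ r : A ⟶ 𝟙_ C, s ≫ r = 0) → s = 0

/-- The layers. -/
def Sc (Chow : ObjectProperty C) (R : ∀ l, Realisation C (E l)) (b : ℤ) : ObjectProperty C :=
  fun X => ∃ i : ℤ, Chow (X⟦-(i + b)⟧) ∧ ∀ l, (R l).Deg X (-b)

variable [MonoidalPreadditive C] [RightRigidCategory C]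
  {Chow : ObjectProperty C} {R : ∀ l, Realisation C (E l)}

/-- The vanishing conjecture for two Chow motives. -/
lemma pure_hom_zero (hC : IsChow Chow) (hV : PureVanishing Chow R) {A B : C} {i j n : ℤ}
    (hA : Chow A) (hB : Chow B) (hAd : ∀ l, (R l).Deg A i) (hBd : ∀ l, (R l).Deg B j)
    (hn : n ≤ j - i) (hn' : n ≠ 0 ∨ j - i ≠ 0) (f : A ⟶ B⟦n⟧) : f = 0 := by
  apply eq_zero_of_nm
  rw [← cancel_mono (lShift B (Aᘁ : C) n).hom, zero_comp]
  refine hV _ (j - i) n (hC.tensor _ _ hB (hC.dual _ hA)) (fun l => ?_) hn hn' _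
  have h1 := (hBd l).tensor (deg_dual (hAd l))
  rwa [← sub_eq_add_neg] at h1

variable [Linear ℚ C] [MonoidalLinear ℚ C] [∀ l, CharZero (E l)]
  (hun : ∀ e : 𝟙_ C ⟶ 𝟙_ C, ∃ c : ℚ, e = c • 𝟙 (𝟙_ C))

include hun in
/-- The endomorphisms of pure Chow motives are regular. -/
theorem regular_end_p (l₀ : Λ) (hC : IsChow Chow) (hN : PureNumerical Chow R) {A : C}
    (hA : Chow A) {n : ℤ} (hd : ∀ l, (R l).Deg A n)
    (a : A ⟶ A) : ∃ b : A ⟶ A, a ≫ b ≫ a = a := by
  obtain ⟨κ, hκ⟩ := exists_coeff (R l₀) hun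
  set X : C := A⟦n⟧ with hX
  have hXd : ∀ l, (R l).Deg X 0 := fun l => (hd l).shift n 0 (by omega)
  let τ : End X →ₗ[ℚ] ℚ := κ ∘ₗ trL X
  have hτ : ∀ x : End X, LinearMap.trace (E l₀) ((R l₀).H.obj X) (rhoE (R l₀) X x) =
      algebraMap ℚ (E l₀) (τ x) := by
    intro x
    have h1 := H_trace (hXd l₀) (x : X ⟶ X)
    rw [hκ (tr (C := C) (X := X) x), unit_scalar] at h1
    exact h1.symm
  have hcyc : ∀ x y : End X, τ (x * y) = τ (y * x) := by
    intro x y
    apply (algebraMap ℚ (E l₀)).injective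
    rw [← hτ, ← hτ, (rhoE (R l₀) X).map_mul, (rhoE (R l₀) X).map_mul, LinearMap.trace_mul_comm]
  have hnd : ∀ x : End X, x ≠ 0 → ∃ y, τ (x * y) ≠ 0 := by
    intro x hx
    have h1 : nm (C := C) (M := X) (N := X) x ≠ 0 := fun h => hx (eq_zero_of_nm _ h)
    have h2 : Chow (X ⊗ (Xᘁ : C)) := hC.iso (hC.tensor _ _ hA (hC.dual _ hA)) (endShift A n).symm
    have h3 : ∀ l, (R l).Deg (X ⊗ (Xᘁ : C)) 0 := fun l => by
      simpa using (hXd l).tensor (deg_dual (hXd l))
    obtain ⟨r, hr⟩ : ∃ r : X ⊗ (Xᘁ : C) ⟶ 𝟙_ C, nm (C := C) (M := X) (N := X) x ≫ r ≠ 0 := by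
      by_contra hcon
      push Not at hcon
      exact h1 (hN _ h2 h3 _ hcon)
    obtain ⟨y, hy⟩ := exists_tr r
    refine ⟨y, ?_⟩
    rw [hcyc]
    intro h0
    apply hr
    rw [hy x, hκ (tr (x ≫ y))]
    have h3 : κ (tr ((x : X ⟶ X) ≫ y)) = 0 := h0
    rw [h3, zero_smul]
  obtain ⟨y, hy⟩ := regular_of_trace (rhoE (R l₀) X) τ hτ hnd (a⟦n⟧' : X ⟶ X)
  obtain ⟨b, hb⟩ := (shiftFunctor C n).map_surjective (y : X ⟶ X)
  refine ⟨b, (shiftFunctor C n).map_injective ?_⟩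
  rw [Functor.map_comp, Functor.map_comp, hb, ← Category.assoc]
  exact (Category.assoc _ _ _).trans (hy : ((a⟦n⟧' : X ⟶ X) ≫ ((y : X ⟶ X) ≫ (a⟦n⟧' : X ⟶ X))) = _)

include hun in
lemma regular_hom_p (l₀ : Λ) (hC : IsChow Chow) (hN : PureNumerical Chow R) {A B : C}
    (hA : Chow A) (hB : Chow B) {n : ℤ} (hdA : ∀ l, (R l).Deg A n) (hdB : ∀ l, (R l).Deg B n)
    (f : A ⟶ B) : ∃ g : B ⟶ A, f ≫ g ≫ f = f := by
  have hd : ∀ l, (R l).Deg (A ⊞ B) n := fun l i hi =>
    hz2 (R l).H (binaryBiproductTriangle_distinguished A B) i (hdA l i hi) (hdB l i hi)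
  obtain ⟨b, hb⟩ := regular_end_p hun l₀ hC hN (hC.sum _ _ hA hB) hd
    (biprod.fst ≫ f ≫ biprod.inr)
  refine ⟨biprod.inr ≫ b ≫ biprod.fst, ?_⟩
  have h1 := congrArg (fun t => (biprod.inl : A ⟶ A ⊞ B) ≫ t ≫ (biprod.snd : A ⊞ B ⟶ B)) hb
  simpa using h1

include hun in
/-- A Chow motive in degree `i` with vanishing realisation vanishes. -/
lemma pure_zero (l₀ : Λ) (hC : IsChow Chow) (hN : PureNumerical Chow R) {A : C} (hA : Chow A)
    {i : ℤ} (hd : ∀ l, (R l).Deg A i) (h0 : ∀ j : ℤ, IsZero ((R l₀).H.obj (A⟦j⟧))) :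
    IsZero A := by
  rw [IsZero.iff_id_eq_zero]
  apply eq_zero_of_nm
  apply hN _ (hC.tensor _ _ hA (hC.dual _ hA)) (fun l => by
    simpa using (hd l).tensor (deg_dual (hd l)))
  intro r
  apply end_unit_zero hun (R l₀)
  rw [nm, Functor.map_comp, Functor.map_comp, map_whisker_zero_all (R := R l₀) (𝟙 A)
    (fun j => (h0 j).eq_of_src _ _), comp_zero, zero_comp]

omit [MonoidalPreadditive C] [RightRigidCategory C] [Linear ℚ C] [MonoidalLinear ℚ C]
  [∀ l, CharZero (E l)] in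
lemma sc_deg {i b : ℤ} {X : C} (hX : ∀ l, (R l).Deg X (-b)) (l : Λ) :
    (R l).Deg (X⟦-(i + b)⟧) i :=
  (hX l).shift (-(i + b)) i (by omega)

omit [Linear ℚ C] [MonoidalLinear ℚ C] [∀ l, CharZero (E l)] in
lemma sc_zero (hC : IsChow Chow) (hV : PureVanishing Chow R) {a b i j : ℤ} {X Y : C}
    (hX : Chow (X⟦-(i + a)⟧)) (hXd : ∀ l, (R l).Deg X (-a)) (hY : Chow (Y⟦-(j + b)⟧))
    (hYd : ∀ l, (R l).Deg Y (-b)) (hab : b ≤ a) (hne : b < a ∨ i ≠ j) (f : X ⟶ Y) : f = 0 := by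
  apply (shiftFunctor C (-(i + a))).map_injective
  rw [Functor.map_zero, ← cancel_mono ((shiftFunctorAdd' C (-(j + b)) ((j + b) - (i + a))
    (-(i + a)) (by omega)).hom.app Y), zero_comp]
  exact pure_hom_zero hC hV hX hY (sc_deg hXd) (sc_deg hYd) (by omega) (by omega) _

include hun in
/-- The layers satisfy the axioms. -/
theorem lay_sc (l₀ : Λ) (hC : IsChow Chow) (hV : PureVanishing Chow R)
    (hN : PureNumerical Chow R) : Lay (Sc Chow R) where
  retract b X Y f g hfg h := by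
    obtain ⟨i, h1, h2⟩ := h
    exact ⟨i, hC.retract _ _ (f⟦-(i + b)⟧') (g⟦-(i + b)⟧') (by
      rw [← Functor.map_comp, hfg, CategoryTheory.Functor.map_id]) h1,
      fun l => (h2 l).retract f g hfg⟩
  shift b n X h := by
    obtain ⟨i, h1, h2⟩ := h
    refine ⟨i, hC.iso h1 ((shiftFunctorAdd' C n (-(i + (b + n))) (-(i + b))
      (by omega)).app X), fun l => (h2 l).shift n _ (by omega)⟩
  orth a b X Y f hab hX hY := by
    obtain ⟨i, h1, h2⟩ := hX
    obtain ⟨j, h3, h4⟩ := hY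
    exact sc_zero hC hV h1 h2 h3 h4 hab.le (Or.inl hab) f
  reg b X Y f hX hY := by
    obtain ⟨i, h1, h2⟩ := hX
    obtain ⟨j, h3, h4⟩ := hY
    by_cases hij : i = j
    · subst hij
      obtain ⟨g, hg⟩ := regular_hom_p hun l₀ hC hN h1 h3 (sc_deg h2) (sc_deg h4)
        (f⟦-(i + b)⟧')
      obtain ⟨g', rfl⟩ := (shiftFunctor C (-(i + b))).map_surjective g
      exact ⟨g', (shiftFunctor C (-(i + b))).map_injective (by
        rw [Functor.map_comp, Functor.map_comp, hg])⟩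
    · exact ⟨0, by rw [sc_zero hC hV h1 h2 h3 h4 le_rfl (Or.inr hij) f]; simp⟩

variable [IsTriangulated C] [IsIdempotentComplete C]

include hun in
/-- The criterion is sufficient. -/
theorem crit_bwd (l₀ : Λ) (hC : IsChow Chow) (hK : ChowKuenneth Chow R)
    (hV : PureVanishing Chow R) (hN : PureNumerical Chow R) :
    ∃ t : TStructure C, IsMotivic t R := by
  have hS := lay_sc hun l₀ hC hV hN
  have hdeg : ∀ (l : Λ) (b : ℤ) (X : C), Sc Chow R b X → (R l).Deg X (-b) := fun l b X h => by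
    obtain ⟨i, h1, h2⟩ := h
    exact h2 l
  have hall : ∀ X : C, RF (Sc Chow R) X := by
    refine rf_all hS (fun P hP => ?_) hC.generate
    obtain ⟨a, m, A, v, r, hA, hsum⟩ := hK P hP
    refine rf_sum hS A v r (fun i => ⟨-(a + (i : ℕ)), A i, 𝟙 _, 𝟙 _, Category.comp_id _,
      Flt.single ⟨a + (i : ℕ), ?_, fun l => ?_⟩⟩) hsum
    · exact hC.iso (hA i).2.1 ((shiftFunctorZero' C
        (-(a + ((i : ℕ) : ℤ) + -(a + ((i : ℕ) : ℤ)))) (by simp)).symm.app (A i))
    · rw [neg_neg]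
      exact (hA i).2.2 l
  have hc : ∀ l, Conservative (R l) := by
    intro l X hX
    refine cons_rf hdeg hS l (fun b Y hY hY0 => ?_) (hall X) hX
    obtain ⟨i, h1, h2⟩ := hY
    refine isZero_of_shift (-(i + b)) (pure_zero hun l hC hN h1 (sc_deg h2) fun j => ?_)
    exact (hY0 (-(i + b) + j)).of_iso
      ((R l).H.mapIso ((shiftFunctorAdd C (-(i + b)) j).symm.app Y))
  have htr : HasTruncations (R l₀) := by
    intro X
    obtain ⟨A, B, ⟨f, g, h, hT⟩, hA, hB⟩ := trunc_rf hdeg hS (hall X)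
    exact ⟨A, B, f, g, h, hT, hA l₀, hB l₀⟩
  have hm := motivic_tOf (hc l₀) htr
  refine ⟨tOf (hc l₀) htr, ⟨hm.nondeg_le, hm.nondeg_ge, hm.tensor_le, hm.tensor_ge, ?_, ?_⟩⟩
  · intro l X hX i hi
    obtain ⟨A, B, ⟨f, g, h, hT⟩, hA, hB⟩ := trunc_rf hdeg hS (hall X)
    have hBz : IsZero B := by
      apply hc l₀
      intro k
      by_cases hk : k < 1
      · exact hB l₀ k hk
      · exact hz3 (R l₀).H hT k (hm.exact_le () X hX k (by omega)) (hA l₀ (k + 1) (by omega))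
    exact hz2 (R l).H hT i (hA l i hi) ((R l).H.map_isZero ((shiftFunctor C i).map_isZero hBz))
  · intro l X hX i hi
    obtain ⟨A, B, ⟨f, g, h, hT⟩, hA, hB⟩ := trunc_rf hdeg hS (hall (X⟦(-1 : ℤ)⟧))
    have hAz : IsZero A := by
      apply hc l₀
      intro k
      by_cases hk : 0 < k
      · exact hA l₀ k hk
      · have h6 : IsZero ((R l₀).H.obj ((X⟦(-1 : ℤ)⟧)⟦k⟧)) :=
          (hm.exact_ge () X hX (-1 + k) (by omega)).of_iso
            ((R l₀).H.mapIso ((shiftFunctorAdd C (-1) k).symm.app X))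
        exact hz1 (R l₀).H hT k h6 (hB l₀ (k - 1) (by omega))
    have h8 : IsZero ((R l).H.obj ((X⟦(-1 : ℤ)⟧)⟦i + 1⟧)) :=
      hz2 (R l).H hT (i + 1) ((R l).H.map_isZero ((shiftFunctor C (i + 1)).map_isZero hAz))
        (hB l (i + 1) (by omega))
    exact h8.of_iso ((R l).H.mapIso ((shiftFunctorAdd' C (-1) (i + 1) i (by omega)).app X))

end

section

variable {C : Type u} [Category.{v} C] [Preadditive C] [HasZeroObject C] [HasShift C ℤ]
  [∀ n : ℤ, (shiftFunctor C n).Additive] [Pretriangulated C] [IsTriangulated C]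
  [MonoidalCategory C] [SymmetricCategory C] [TensorTriangulated C] [MonoidalPreadditive C]
  [RightRigidCategory C] {Chow : ObjectProperty C} (hC : IsChow Chow)

omit [IsTriangulated C] in
include hC in
lemma hom_shift_zero {P Q : C} (hP : Chow P) (hQ : Chow Q) {m n : ℤ} (h : m < n)
    (f : P⟦m⟧ ⟶ Q⟦n⟧) : f = 0 := by
  apply (shiftFunctor C (-m)).map_injective
  rw [Functor.map_zero, ← cancel_epi ((shiftEquiv C m).unitIso.hom.app P), comp_zero,
    ← cancel_mono ((shiftFunctorAdd' C n (-m) (n - m) (by omega)).inv.app Q), zero_comp]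
  exact hC.orth_pos (n := n - m) (by omega) hP hQ _

variable [Linear ℚ C] [MonoidalLinear ℚ C] {E : Type w} [Field E] [CharZero E]
  {R : Realisation C E} {t : TStructure C}
  (hun : ∀ e : 𝟙_ C ⟶ 𝟙_ C, ∃ c : ℚ, e = c • 𝟙 (𝟙_ C))
  (ht : TensorCompat t) (he : TExact t R) (hu : Hrt t (𝟙_ C))

include hun ht he hu hC in
/-- The vanishing conjecture. -/
lemma vanish_t {A : C} (hA : Chow A) {d n : ℤ} (h1 : t.IsGE A d) (h2 : t.IsLE A d) (hn : n ≤ d)
    (hnd : n ≠ 0 ∨ d ≠ 0) (s : 𝟙_ C ⟶ A⟦n⟧) : s = 0 := by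
  by_cases hn' : n < d
  · exact t.zero_of_isLE_of_isGE s 0 (d - n) (by omega) hu.1 (t.isGE_shift A d n (d - n))
  · have hnd' : n = d := by omega
    subst hnd'
    by_cases hn0 : 0 < n
    · exact hC.vanish A n hA hn0 s
    · have hn1 : n < 0 := by omega
      by_contra hs
      have hQ : Hrt t (A⟦n⟧) := ⟨t.isLE_shift A n n 0, t.isGE_shift A n n 0⟩
      obtain ⟨r, hr⟩ := heart_pairing ht he hu (idem_of_end_unit hun R) hQ
        (fun X => ∃ (P : C) (m : ℤ), m ≤ 0 ∧ Chow P ∧ Nonempty (X ≅ P⟦m⟧))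
        ⟨𝟙_ C, 0, le_rfl, hC.unit, ⟨(shiftFunctorZero C ℤ).symm.app _⟩⟩
        (by
          rintro X ⟨P, m, hm, hP, ⟨e⟩⟩
          exact ⟨P ⊗ A, m + n, by omega, hC.tensor _ _ hP hA,
            ⟨whiskerRightIso e (A⟦n⟧) ≪≫ lrShift P A m n⟩⟩)
        (by
          rintro X ⟨P, m, hm, hP, ⟨e⟩⟩ k hk f
          rw [← cancel_epi e.inv, comp_zero]
          exact hom_shift_zero hC hP hC.unit (by omega) _) s hs
      apply hr
      have h3 : r = 0 := by
        rw [← cancel_mono ((shiftFunctorZero C ℤ).inv.app (𝟙_ C)), zero_comp]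
        exact hom_shift_zero hC hA hC.unit hn1 _
      rw [h3, comp_zero]

end

section

variable {C : Type u} [Category.{v} C] [Preadditive C] [HasZeroObject C] [HasShift C ℤ]
  [∀ n : ℤ, (shiftFunctor C n).Additive] [Pretriangulated C] [IsTriangulated C]
  [IsIdempotentComplete C]
  [MonoidalCategory C] [SymmetricCategory C] [TensorTriangulated C] [MonoidalPreadditive C]
  [RightRigidCategory C] [Linear ℚ C] [MonoidalLinear ℚ C]
  {Λ : Type*} {E : Λ → Type w} [∀ l, Field (E l)] [∀ l, CharZero (E l)]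
  {R : ∀ l, Realisation C (E l)}
  (hun : ∀ e : 𝟙_ C ⟶ 𝟙_ C, ∃ c : ℚ, e = c • 𝟙 (𝟙_ C))
  {Chow : ObjectProperty C} (hC : IsChow Chow)

include hun hC in
/-- The criterion is necessary. -/
theorem crit_fwd (l₀ : Λ) {t : TStructure C} (hm : IsMotivic t R) :
    PureVanishing Chow R ∧ PureNumerical Chow R := by
  have ht : TensorCompat t := ⟨hm.tensor_le, hm.tensor_ge⟩
  have he : TExact t (R l₀) := ⟨hm.exact_le l₀, hm.exact_ge l₀⟩
  have hu := unit_hrt ht hm.nondeg_le hm.nondeg_ge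
  have hle : ∀ (X : C) (n : ℤ), (∀ i : ℤ, n < i → IsZero ((R l₀).H.obj (X⟦i⟧))) →
      t.IsLE X n := fun X n hX => Pool.Agent.Y116.MT.isLE_of_H ht he hu
    (idem_of_end_unit hun (R l₀)) hm.nondeg_le hm.nondeg_ge hX
  have hge : ∀ (X : C) (n : ℤ), (∀ i : ℤ, i < n → IsZero ((R l₀).H.obj (X⟦i⟧))) →
      t.IsGE X n := fun X n hX => Pool.Agent.Y116.MT.isGE_of_H ht he hu
    (idem_of_end_unit hun (R l₀)) hm.nondeg_le hm.nondeg_ge hX
  constructor
  · intro A d n hA hd hn hnd s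
    exact vanish_t (R := R l₀) hC hun ht he hu hA (hge A d fun k hk => hd l₀ k (by omega))
      (hle A d fun k hk => hd l₀ k (by omega)) hn hnd s
  · intro A hA hd s hs
    by_contra hs0
    have hQ : Hrt t A := ⟨hle A 0 fun k hk => hd l₀ k (by omega),
      hge A 0 fun k hk => hd l₀ k (by omega)⟩
    obtain ⟨r, hr⟩ := heart_pairing ht he hu (idem_of_end_unit hun (R l₀)) hQ Chow hC.unit
      (fun Z hZ => hC.tensor _ _ hZ hA) (fun Z hZ m hm f => hC.orth_pos hm hZ hC.unit f) s hs0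
    exact hr (hs r)

include hun hC in
/-- The criterion. -/
theorem criterion {T : C} (hL : HardLefschetz Chow T R) (l₀ : Λ) :
    (∃ t : TStructure C, IsMotivic t R) ↔
      ChowKuenneth Chow R ∧ PureVanishing Chow R ∧ PureNumerical Chow R := by
  constructor
  · rintro ⟨t, hm⟩
    exact ⟨(standard hun hC hL l₀ hm).1, crit_fwd hun hC l₀ hm⟩
  · rintro ⟨h1, h2, h3⟩
    exact crit_bwd hun l₀ hC h1 h2 h3

end

end Pool.Agent.Q227.FM
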