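import Pool.Agent.Q227.FM.Bwd

/-!
# Motives over a finite field: the equivalences
-/

set_option autoImplicit false
set_option linter.unusedSectionVars false
set_option linter.unusedSimpArgs false
set_option backward.isDefEq.respectTransparency false
set_option backward.defeqAttrib.useBackward true

open CategoryTheory Limits MonoidalCategory Pretriangulated Triangulated ZeroObject
open Pool.Agent.Y116.MT
open Pool.Agent.Q57.MT (Conservative HasTruncations tOf motivic_tOf)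

namespace Pool.Agent.Q227.FM

universe v u w

section

variable {C : Type u} [Category.{v} C] [Preadditive C] [HasZeroObject C] [HasShift C ℤ]
  [∀ n : ℤ, (shiftFunctor C n).Additive] [Pretriangulated C]
  [MonoidalCategory C] [SymmetricCategory C] [TensorTriangulated C] [MonoidalPreadditive C]
  [RightRigidCategory C] [Linear ℚ C] [MonoidalLinear ℚ C]
  {Λ : Type*} {E : Λ → Type w} [∀ l, Field (E l)] [∀ l, CharZero (E l)]
  {R : ∀ l, Realisation C (E l)} {q : ℕ} {F : 𝟭 C ⟶ 𝟭 C} {Chow : ObjectProperty C}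

omit [SymmetricCategory C] [TensorTriangulated C] [MonoidalPreadditive C]
  [RightRigidCategory C] [Linear ℚ C] [MonoidalLinear ℚ C] [MonoidalCategory C] in
/-- A splitting gives a distinguished triangle. -/
lemma split_dist {X A B : C} (v : A ⟶ X) (r : X ⟶ A) (v' : B ⟶ X) (r' : X ⟶ B)
    (h1 : v ≫ r = 𝟙 A) (h2 : v' ≫ r' = 𝟙 B) (h3 : r ≫ v + r' ≫ v' = 𝟙 X) :
    Triangle.mk v r' (0 : B ⟶ A⟦(1 : ℤ)⟧) ∈ distTriang C := by
  have h4 : v ≫ r' = 0 := by
    have h5 : v ≫ (r ≫ v + r' ≫ v') = v := by rw [h3, Category.comp_id]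
    rw [Preadditive.comp_add, ← Category.assoc, h1, Category.id_comp, add_eq_left] at h5
    rw [← Category.comp_id r', ← h2, ← Category.assoc, ← Category.assoc, Category.assoc v, h5,
      zero_comp]
  have h5 : v' ≫ r = 0 := by
    have h5 : v' ≫ (r ≫ v + r' ≫ v') = v' := by rw [h3, Category.comp_id]
    rw [Preadditive.comp_add, ← Category.assoc v' r', h2, Category.id_comp, add_eq_right] at h5
    rw [← Category.comp_id r, ← h1, ← Category.assoc, ← Category.assoc, Category.assoc v', h5,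
      zero_comp]
  let e : X ≅ A ⊞ B :=
    { hom := biprod.lift r r'
      inv := biprod.desc v v'
      hom_inv_id := by rw [biprod.lift_desc, h3]
      inv_hom_id := by
        ext <;> simp [h1, h2, h4, h5] }
  refine isomorphic_distinguished _ (binaryBiproductTriangle_distinguished A B) _
    (Triangle.isoMk _ _ (Iso.refl _) e (Iso.refl _) ?_ ?_ ?_)
  · change v ≫ biprod.lift r r' = 𝟙 A ≫ biprod.inl
    ext <;> simp [h1, h4]
  · simp [e]
  · simp

lemma sum_idem (hG : Grd (Pp q F Chow) shi) {X : C} (d : Decomp (Pp q F Chow) X)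
    (J : Finset (ℤ × ℤ)) (hJ : J ⊆ d.J) :
    (∑ i ∈ J, d.r i ≫ d.v i) ≫ (∑ i ∈ J, d.r i ≫ d.v i) = ∑ i ∈ J, d.r i ≫ d.v i := by
  classical
  rw [Preadditive.sum_comp]
  refine Finset.sum_congr rfl fun i hi => ?_
  rw [Preadditive.comp_sum, Finset.sum_eq_single_of_mem i hi]
  · rw [Category.assoc, ← Category.assoc (d.v i), d.vr i (hJ hi), Category.id_comp]
  · intro j hj hij
    rw [Category.assoc, ← Category.assoc (d.v i), hG.orth i j _ _ (d.v i ≫ d.r j) hij.symm
      (d.hA i (hJ hi)) (d.hA j (hJ hj)), zero_comp, comp_zero]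

lemma zero_image {X A : C} (v : A ⟶ X) (r : X ⟶ A) (h1 : v ≫ r = 𝟙 A) (e : X ⟶ X)
    (h2 : r ≫ v = e) (l : Λ) (i : ℤ) (he : (R l).H.map (e⟦i⟧') = 0) :
    IsZero ((R l).H.obj (A⟦i⟧)) := by
  rw [IsZero.iff_id_eq_zero]
  have h3 : 𝟙 A = v ≫ e ≫ r := by
    rw [← h2, Category.assoc, h1, Category.comp_id, h1]
  have h4 : 𝟙 ((R l).H.obj (A⟦i⟧)) = (R l).H.map ((𝟙 A)⟦i⟧') := by
    rw [CategoryTheory.Functor.map_id, CategoryTheory.Functor.map_id]
  rw [h4, h3, Functor.map_comp, Functor.map_comp, Functor.map_comp, Functor.map_comp, he,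
    zero_comp, comp_zero]

lemma decomp_trunc [IsIdempotentComplete C] (hG : Grd (Pp q F Chow) shi)
    (hd : ∀ (l : Λ) (i : ℤ × ℤ) (X : C), Pp q F Chow i X → (R l).Deg X (i.1 - i.2))
    {X : C} (d : Decomp (Pp q F Chow) X) :
    ∃ (A B : C) (v : A ⟶ X) (r : X ⟶ A) (v' : B ⟶ X) (r' : X ⟶ B),
      v ≫ r = 𝟙 A ∧ v' ≫ r' = 𝟙 B ∧ r ≫ v + r' ≫ v' = 𝟙 X ∧
      (∀ (l : Λ) (i : ℤ), 0 < i → IsZero ((R l).H.obj (A⟦i⟧))) ∧
      (∀ (l : Λ) (i : ℤ), i < 1 → IsZero ((R l).H.obj (B⟦i⟧))) := by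
  classical
  set J₁ := d.J.filter (fun i => i.1 - i.2 ≤ 0) with hJ₁
  set J₂ := d.J.filter (fun i => ¬ (i.1 - i.2 ≤ 0)) with hJ₂
  obtain ⟨A, v, r, h1, h2⟩ := IsIdempotentComplete.idempotents_split _ _
    (sum_idem hG d J₁ (Finset.filter_subset _ _))
  obtain ⟨B, v', r', h3, h4⟩ := IsIdempotentComplete.idempotents_split _ _
    (sum_idem hG d J₂ (Finset.filter_subset _ _))
  have hz : ∀ (J : Finset (ℤ × ℤ)) (l : Λ) (i : ℤ), (∀ j ∈ J, j ∈ d.J ∧ i ≠ j.1 - j.2) →
      (R l).H.map ((∑ j ∈ J, d.r j ≫ d.v j)⟦i⟧') = 0 := by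
    intro J l i hJ
    rw [Functor.map_sum, Functor.map_sum]
    refine Finset.sum_eq_zero fun j hj => ?_
    have h5 : IsZero ((R l).H.obj ((d.A j)⟦i⟧)) := hd l j _ (d.hA j (hJ j hj).1) i (hJ j hj).2
    rw [Functor.map_comp, Functor.map_comp, h5.eq_of_tgt ((R l).H.map ((d.r j)⟦i⟧')) 0, zero_comp]
  refine ⟨A, B, v, r, v', r', h1, h3, ?_, fun l i hi => ?_, fun l i hi => ?_⟩
  · rw [h2, h4, hJ₁, hJ₂, Finset.sum_filter_add_sum_filter_not, d.total]
  · apply zero_image v r h1 _ h2 l i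
    apply hz
    intro j hj
    rw [hJ₁, Finset.mem_filter] at hj
    exact ⟨hj.1, by omega⟩
  · apply zero_image v' r' h3 _ h4 l i
    apply hz
    intro j hj
    rw [hJ₂, Finset.mem_filter] at hj
    exact ⟨hj.1, by omega⟩

lemma deg_Pp (hF : ∀ X : C, F.app (X⟦(1 : ℤ)⟧) = (F.app X)⟦(1 : ℤ)⟧') (hq : 1 < q)
    (hw : ∀ (l : Λ) (P : C), Chow P → CohWt (R l) q F P) (l : Λ) (i : ℤ × ℤ) (X : C)
    (hX : Pp q F Chow i X) : (R l).Deg X (i.1 - i.2) := by
  have h1 : (R l).Deg (X⟦-i.2⟧) i.1 := deg_of_wt hq (hw l _ hX.1) (hX.2.shift hF _)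
  have h2 : (R l).Deg (X⟦-i.2⟧⟦i.2⟧) (i.1 - i.2) := h1.shift i.2 (i.1 - i.2) (by omega)
  exact h2.iso (shiftNegShift X i.2)

variable [IsTriangulated C] [IsIdempotentComplete C]
  (hun : ∀ e : 𝟙_ C ⟶ 𝟙_ C, ∃ c : ℚ, e = c • 𝟙 (𝟙_ C))

include hun in
/-- Rational = numerical equivalence and Parshin's conjecture give a motivic t-structure, for all
primes, and all morphisms are regular. -/
theorem bwd (hF : ∀ X : C, F.app (X⟦(1 : ℤ)⟧) = (F.app X)⟦(1 : ℤ)⟧') (hq : 1 < q)
    (hC : IsChow Chow) (hRN : RationalIsNumerical Chow) (hPa : Parshin Chow)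
    (hw : ∀ (l : Λ) (P : C), Chow P → CohWt (R l) q F P) (l₀ : Λ) :
    (∃ t : TStructure C, IsMotivic t R) ∧ AllSplit C := by
  have hG := grd_chow (R := R l₀) hun hF hq hC hRN hPa (hw l₀)
  have hdec := fun X => decomp_all (R := R l₀) hun hF hq hC hRN hPa (hw l₀) X
  refine ⟨?_, fun X Y f => ?_⟩
  · have hdeg := deg_Pp (R := R) hF hq hw
    have hc : Conservative (R l₀) := by
      intro X hX
      obtain ⟨d⟩ := hdec X
      rw [IsZero.iff_id_eq_zero, ← d.total]
      refine Finset.sum_eq_zero fun j hj => ?_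
      have h1 := (d.hA j hj).1
      have h2 : IsZero ((d.A j)⟦-j.2⟧) := by
        rw [IsZero.iff_id_eq_zero]
        apply zero_of_hom (R := R l₀) hun hC hRN h1 h1
        intro i
        have h3 : IsZero ((R l₀).H.obj ((d.A j)⟦-j.2 + i⟧)) := by
          rw [IsZero.iff_id_eq_zero]
          have h4 : 𝟙 ((R l₀).H.obj ((d.A j)⟦-j.2 + i⟧)) =
              (R l₀).H.map ((d.v j)⟦-j.2 + i⟧') ≫ (R l₀).H.map ((d.r j)⟦-j.2 + i⟧') := by
            rw [← Functor.map_comp, ← Functor.map_comp, d.vr j hj,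
              CategoryTheory.Functor.map_id, CategoryTheory.Functor.map_id]
          rw [h4, (hX _).eq_of_tgt ((R l₀).H.map ((d.v j)⟦-j.2 + i⟧')) 0, zero_comp]
        have h4 : IsZero ((R l₀).H.obj (((d.A j)⟦-j.2⟧)⟦i⟧)) :=
          h3.of_iso ((R l₀).H.mapIso ((shiftFunctorAdd C (-j.2) i).symm.app (d.A j)))
        exact h4.eq_of_src _ _
      have h3 : IsZero (d.A j) := isZero_of_shift (-j.2) h2
      rw [h3.eq_of_tgt (d.r j) 0, zero_comp]
    have htr : HasTruncations (R l₀) := by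
      intro X
      obtain ⟨d⟩ := hdec X
      obtain ⟨A, B, v, r, v', r', h1, h2, h3, h4, h5⟩ := decomp_trunc hG hdeg d
      exact ⟨A, B, v, r', 0, split_dist v r v' r' h1 h2 h3, h4 l₀, h5 l₀⟩
    have hm := motivic_tOf hc htr
    refine ⟨tOf hc htr, ⟨hm.nondeg_le, hm.nondeg_ge, hm.tensor_le, hm.tensor_ge, ?_, ?_⟩⟩
    · intro l X hX i hi
      obtain ⟨d⟩ := hdec X
      obtain ⟨A, B, v, r, v', r', h1, h2, h3, h4, h5⟩ := decomp_trunc hG hdeg d
      have hB : IsZero B := by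
        apply hc
        intro k
        by_cases hk : k < 1
        · exact h5 l₀ k hk
        · have h6 : IsZero ((R l₀).H.obj (X⟦k⟧)) := hm.exact_le () X hX k (by omega)
          rw [IsZero.iff_id_eq_zero]
          have h7 : 𝟙 ((R l₀).H.obj (B⟦k⟧)) =
              (R l₀).H.map (v'⟦k⟧') ≫ (R l₀).H.map (r'⟦k⟧') := by
            rw [← Functor.map_comp, ← Functor.map_comp, h2,
              CategoryTheory.Functor.map_id, CategoryTheory.Functor.map_id]
          rw [h7, h6.eq_of_tgt ((R l₀).H.map (v'⟦k⟧')) 0, zero_comp]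
      exact hz2 (R l).H (split_dist v r v' r' h1 h2 h3) i (h4 l i hi)
        ((R l).H.map_isZero ((shiftFunctor C i).map_isZero hB))
    · intro l X hX i hi
      obtain ⟨d⟩ := hdec (X⟦(-1 : ℤ)⟧)
      obtain ⟨A, B, v, r, v', r', h1, h2, h3, h4, h5⟩ := decomp_trunc hG hdeg d
      have hA : IsZero A := by
        apply hc
        intro k
        by_cases hk : 0 < k
        · exact h4 l₀ k hk
        · have h6 : IsZero ((R l₀).H.obj ((X⟦(-1 : ℤ)⟧)⟦k⟧)) :=
            (hm.exact_ge () X hX (-1 + k) (by omega)).of_iso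
              ((R l₀).H.mapIso ((shiftFunctorAdd C (-1) k).symm.app X))
          rw [IsZero.iff_id_eq_zero]
          have h7 : 𝟙 ((R l₀).H.obj (A⟦k⟧)) =
              (R l₀).H.map (v⟦k⟧') ≫ (R l₀).H.map (r⟦k⟧') := by
            rw [← Functor.map_comp, ← Functor.map_comp, h1,
              CategoryTheory.Functor.map_id, CategoryTheory.Functor.map_id]
          rw [h7, h6.eq_of_tgt ((R l₀).H.map (v⟦k⟧')) 0, zero_comp]
      have h8 : IsZero ((R l).H.obj ((X⟦(-1 : ℤ)⟧)⟦i + 1⟧)) :=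
        hz2 (R l).H (split_dist v r v' r' h1 h2 h3) (i + 1)
          ((R l).H.map_isZero ((shiftFunctor C (i + 1)).map_isZero hA)) (h5 l (i + 1) (by omega))
      exact h8.of_iso ((R l).H.mapIso ((shiftFunctorAdd' C (-1) (i + 1) i (by omega)).app X))
  · obtain ⟨dX⟩ := hdec X
    obtain ⟨dY⟩ := hdec Y
    exact regular_of_decomp hG dX dY f

omit [MonoidalLinear ℚ C] [IsTriangulated C] [IsIdempotentComplete C] [Linear ℚ C] in
/-- If all morphisms are regular, the two conjectures hold. -/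
theorem conj_of_split (hC : IsChow Chow) (h : AllSplit C) :
    RationalIsNumerical Chow ∧ Parshin Chow := by
  constructor
  · intro Q s _ hs
    obtain ⟨g, hg⟩ := h _ _ s
    rw [← hg, ← Category.assoc, hs g, zero_comp]
  · intro Q n hQ hn s
    obtain ⟨g, hg⟩ := h _ _ s
    have h1 : g = 0 := by
      apply (shiftFunctor C (-n)).map_injective
      rw [Functor.map_zero, ← cancel_epi ((shiftEquiv C n).unitIso.hom.app Q), comp_zero]
      exact hC.orth_pos (n := -n) (by omega) hQ hC.unit _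
    rw [← hg, h1, zero_comp, comp_zero]

include hun in
/-- The main theorem. -/
theorem main (hC : IsChow Chow) (hq : 1 < q) (Fr : Frobenius q Chow R) (l₀ : Λ) :
    List.TFAE [∃ t : TStructure C, IsMotivic t R,
      ∃ t : TStructure C, IsMotivic t (fun _ : Unit => R l₀),
      RationalIsNumerical Chow ∧ Parshin Chow,
      AllSplit C] := by
  have hw : ∀ (l : Λ) (P : C), Chow P → CohWt (R l) q Fr.F P := by
    intro l P hP i
    obtain ⟨p, _, h2, h3⟩ := Fr.weights l P i hP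
    exact ⟨p, fun z hz => ⟨i, rfl, h2 z hz⟩, cohWt_of h3⟩
  tfae_have 1 → 2 := by
    rintro ⟨t, ht⟩
    exact ⟨t, ht.nondeg_le, ht.nondeg_ge, ht.tensor_le, ht.tensor_ge, fun _ => ht.exact_le l₀,
      fun _ => ht.exact_ge l₀⟩
  tfae_have 2 → 3 := by
    rintro ⟨t, ht⟩
    have htc : TensorCompat t := ⟨ht.tensor_le, ht.tensor_ge⟩
    have he : TExact t (R l₀) := ⟨ht.exact_le (), ht.exact_ge ()⟩
    have hu := unit_hrt htc ht.nondeg_le ht.nondeg_ge
    have hid := idem_of_end_unit hun (R l₀)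
    have hone := unit_wt htc he hu hid (hw l₀ _ hC.unit)
    exact ⟨fun Q s hQ hs => rational_of htc he hu hid Fr.shift ht.nondeg_le ht.nondeg_ge hq hone
      hC (hw l₀) hQ s hs, fun Q n hQ hn s => parshin_of htc he hu hid Fr.shift ht.nondeg_le
      ht.nondeg_ge hq hone (hw l₀ Q hQ) n hn s⟩
  tfae_have 3 → 1 := fun h => (bwd hun Fr.shift hq hC h.1 h.2 hw l₀).1
  tfae_have 3 → 4 := fun h => (bwd hun Fr.shift hq hC h.1 h.2 hw l₀).2
  tfae_have 4 → 3 := fun h => conj_of_split hC h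
  tfae_finish

end

end Pool.Agent.Q227.FM
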