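import Pool.Agent.Q227.FM.Reg
import Pool.Agent.Q227.FM.Dec
import Pool.Agent.Q57.MT.TS

/-!
# Rational = numerical equivalence and Parshin's conjecture give a motivic t-structure
-/

set_option autoImplicit false
set_option linter.unusedSectionVars false
set_option linter.unusedSimpArgs false
set_option backward.isDefEq.respectTransparency false
set_option backward.defeqAttrib.useBackward true

open CategoryTheory Limits MonoidalCategory Pretriangulated Triangulated ZeroObject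
open Pool.Agent.Y116.MT

namespace Pool.Agent.Q227.FM

universe v u w

section

variable {C : Type u} [Category.{v} C] [Preadditive C] [HasZeroObject C] [HasShift C ℤ]
  [∀ n : ℤ, (shiftFunctor C n).Additive] [Pretriangulated C]
  [MonoidalCategory C] [SymmetricCategory C] [TensorTriangulated C] [MonoidalPreadditive C]
  [RightRigidCategory C] [Linear ℚ C] [MonoidalLinear ℚ C]
  {E : Type w} [Field E] [CharZero E] {R : Realisation C E}
  (hun : ∀ e : 𝟙_ C ⟶ 𝟙_ C, ∃ c : ℚ, e = c • 𝟙 (𝟙_ C))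
  {q : ℕ} {F : 𝟭 C ⟶ 𝟭 C} {Chow : ObjectProperty C}

include hun in
lemma regular_hom (hC : IsChow Chow) (hRN : RationalIsNumerical Chow) {A B : C} (hA : Chow A)
    (hB : Chow B) {n : ℤ} (hdA : R.Deg A n) (hdB : R.Deg B n) (f : A ⟶ B) :
    ∃ g : B ⟶ A, f ≫ g ≫ f = f := by
  have hd : R.Deg (A ⊞ B) n := fun i hi =>
    hz2 R.H (binaryBiproductTriangle_distinguished A B) i (hdA i hi) (hdB i hi)
  obtain ⟨b, hb⟩ := regular_end R hun hC hRN (hC.sum _ _ hA hB) hd
    (biprod.fst ≫ f ≫ biprod.inr)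
  refine ⟨biprod.inr ≫ b ≫ biprod.fst, ?_⟩
  have h1 := congrArg (fun t => (biprod.inl : A ⟶ A ⊞ B) ≫ t ≫ (biprod.snd : A ⊞ B ⟶ B)) hb
  simpa using h1

/-- The degree of a pure Chow motive. -/
lemma deg_of_wt (hq : 1 < q) {A : C} {n : ℤ} (hw : CohWt R q F A) (hA : HasWt q F {n} A) :
    R.Deg A n := by
  intro i hi
  obtain ⟨p, hp, hp'⟩ := hw i
  obtain ⟨p', h1, h2⟩ := hA
  obtain ⟨a, b, hab⟩ := hp.coprime hq (Set.disjoint_singleton.2 hi) h1
  have h3 : 𝟙 A = ev F A (a * p) + ev F A (b * p') := by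
    rw [← ev_add, hab, ev_one]
  have h4 : ev F A (b * p') = 0 := by rw [ev_mul, h2, comp_zero]
  have h5 : R.H.map ((ev F A (a * p))⟦i⟧') = 0 := by
    rw [ev_mul, Functor.map_comp, Functor.map_comp, hp', comp_zero]
  rw [IsZero.iff_id_eq_zero]
  have h6 : 𝟙 (R.H.obj (A⟦i⟧)) = R.H.map ((𝟙 A)⟦i⟧') := by
    rw [CategoryTheory.Functor.map_id, CategoryTheory.Functor.map_id]
  rw [h6, h3, h4, add_zero, h5]

/-- The class of the shifts of pure Chow motives. -/
def Pp (q : ℕ) (F : 𝟭 C ⟶ 𝟭 C) (Chow : ObjectProperty C) (i : ℤ × ℤ) : ObjectProperty C :=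
  fun X => Chow (X⟦-i.2⟧) ∧ HasWt q F {i.1} X

/-- The shift of the indices. -/
def shi (m : ℤ) (i : ℤ × ℤ) : ℤ × ℤ := (i.1, i.2 + m)

variable (hF : ∀ X : C, F.app (X⟦(1 : ℤ)⟧) = (F.app X)⟦(1 : ℤ)⟧')

lemma IsChow.zero (hC : IsChow Chow) {X : C} (hX : IsZero X) : Chow X :=
  hC.retract X (𝟙_ C) 0 0 (hX.eq_of_src _ _) hC.unit

lemma hom_zero_all (hC : IsChow Chow) (hPa : Parshin Chow) {A B : C} (hA : Chow A)
    (hB : Chow B) {n : ℤ} (hn : n ≠ 0) (f : A ⟶ B⟦n⟧) : f = 0 := by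
  rcases lt_or_gt_of_ne hn with h | h
  · exact hC.hom_zero (fun Q hQ => hPa Q n hQ h) hA hB f
  · exact hC.orth_pos h hA hB f

lemma hom_zero_shift (hC : IsChow Chow) (hPa : Parshin Chow) {X Y : C} {m n : ℤ}
    (hX : Chow (X⟦-m⟧)) (hY : Chow (Y⟦-n⟧)) (h : m ≠ n) (f : X ⟶ Y) : f = 0 := by
  apply (shiftFunctor C (-m)).map_injective
  rw [Functor.map_zero, ← cancel_mono ((shiftFunctorAdd' C (-n) (n - m) (-m)
    (by omega)).hom.app Y), zero_comp]
  exact hom_zero_all hC hPa hX hY (n := n - m) (by omega) _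

include hun hF in
/-- The shifts of the pure Chow motives form a graded family. -/
theorem grd_chow (hq : 1 < q) (hC : IsChow Chow) (hRN : RationalIsNumerical Chow)
    (hPa : Parshin Chow) (hw : ∀ P, Chow P → CohWt R q F P) :
    Grd (Pp q F Chow) shi where
  zero i X hX := ⟨hC.zero ((shiftFunctor C (-i.2)).map_isZero hX), HasWt.zero hX⟩
  retract i X Y f g hfg h := ⟨hC.retract _ _ (f⟦-i.2⟧') (g⟦-i.2⟧') (by
    rw [← Functor.map_comp, hfg, CategoryTheory.Functor.map_id]) h.1, h.2.retract f g hfg⟩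
  sum i X Y hX hY := ⟨hC.retract _ _
    (biprod.lift ((biprod.fst : X ⊞ Y ⟶ X)⟦-i.2⟧') ((biprod.snd : X ⊞ Y ⟶ Y)⟦-i.2⟧'))
    (biprod.desc ((biprod.inl : X ⟶ X ⊞ Y)⟦-i.2⟧') ((biprod.inr : Y ⟶ X ⊞ Y)⟦-i.2⟧'))
    (by rw [biprod.lift_desc, ← Functor.map_comp, ← Functor.map_comp, ← Functor.map_add,
      biprod.total, CategoryTheory.Functor.map_id]) (hC.sum _ _ hX.1 hY.1), hX.2.sum hY.2⟩
  shift n i X hX := ⟨hC.iso hX.1 ((shiftFunctorAdd' C n (-(i.2 + n)) (-i.2)
    (by omega)).app X), hX.2.shift hF n⟩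
  sh_neg n i := by
    ext
    · rfl
    · simp [shi]
  orth i j X Y f hij hX hY := by
    by_cases h : i.1 = j.1
    · have h2 : i.2 ≠ j.2 := fun h2 => hij (Prod.ext h h2)
      exact hom_zero_shift hC hPa hX.1 hY.1 h2 f
    · exact HasWt.orth hq f hX.2 hY.2 (Set.disjoint_singleton.2 h)
  reg i X Y f hX hY := by
    obtain ⟨g, hg⟩ := regular_hom (R := R) hun hC hRN hX.1 hY.1
      (deg_of_wt hq (hw _ hX.1) (hX.2.shift hF _)) (deg_of_wt hq (hw _ hY.1) (hY.2.shift hF _))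
      (f⟦-i.2⟧')
    obtain ⟨g', rfl⟩ := (shiftFunctor C (-i.2)).map_surjective g
    exact ⟨g', (shiftFunctor C (-i.2)).map_injective (by
      rw [Functor.map_comp, Functor.map_comp, hg])⟩

variable [IsIdempotentComplete C]

include hun hF in
/-- The Chow motives are good. -/
theorem gd_chow (hq : 1 < q) (hC : IsChow Chow) (hRN : RationalIsNumerical Chow)
    (hPa : Parshin Chow) (hw : ∀ P, Chow P → CohWt R q F P) {P : C} (hP : Chow P) :
    Gd (Pp q F Chow) P := by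
  classical
  have hG := grd_chow hun hF hq hC hRN hPa hw
  obtain ⟨J, A, v, r, h1, h2⟩ := kunneth_dec hun hq hC hRN hP (hw P hP)
  have hA0 : ∀ i ∈ J, Pp q F Chow (i, 0) (A i) := fun i hi =>
    ⟨hC.iso (h1 i hi).2.1 ((shiftFunctorZero' C (-(0 : ℤ)) (by simp)).symm.app (A i)),
      (h1 i hi).2.2⟩
  have hz : ∀ (i : ℤ × ℤ) (B : C) (f : B ⟶ P), Pp q F Chow i B → i.2 ≠ 0 → f = 0 := by
    intro i B f hB hi
    exact hom_zero_shift hC hPa (n := 0) hB.1
      (hC.iso hP ((shiftFunctorZero' C (-(0 : ℤ)) (by simp)).symm.app P)) hi f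
  have hfac : ∀ (w : ℤ) (B : C) (f : B ⟶ P), Pp q F Chow (w, 0) B →
      f = if w ∈ J then (f ≫ r w) ≫ v w else 0 := by
    intro w B f hB
    have h3 : f = ∑ i ∈ J, (f ≫ r i) ≫ v i := by
      conv_lhs => rw [← Category.comp_id f, ← h2, Preadditive.comp_sum]
      exact Finset.sum_congr rfl fun i _ => by rw [Category.assoc]
    have h4 : ∀ i ∈ J, i ≠ w → (f ≫ r i) ≫ v i = 0 := by
      intro i hi hiw
      rw [hG.orth (w, 0) (i, 0) _ _ (f ≫ r i) (fun h => hiw (congrArg Prod.fst h).symm) hB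
        (hA0 i hi), zero_comp]
    conv_lhs => rw [h3]
    split_ifs with h5
    · exact Finset.sum_eq_single_of_mem w h5 h4
    · exact Finset.sum_eq_zero fun i hi => h4 i hi (fun h => h5 (h ▸ hi))
  constructor
  · rintro ⟨w, n⟩
    by_cases hn : n = 0
    · subst hn
      by_cases hwJ : w ∈ J
      · refine ⟨A w, v w, hA0 w hwJ, fun B f _ hf => ?_, fun B g hB => ⟨g ≫ r w, ?_⟩⟩
        · rw [← Category.comp_id f, ← (h1 w hwJ).1, ← Category.assoc, hf, zero_comp]
        · have h3 := hfac w B g hB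
          rw [if_pos hwJ] at h3
          exact h3
      · exact rep_zero hG fun B f hB => by
          have h3 := hfac w B f hB
          rwa [if_neg hwJ] at h3
    · exact rep_zero hG fun B f hB => hz (w, n) B f hB hn
  · refine (J.finite_toSet.image (fun i => (i, (0 : ℤ)))).subset ?_
    rintro ⟨w, n⟩ ⟨B, f, hB, hf⟩
    have hn : n = 0 := by
      by_contra hn
      exact hf (hz (w, n) B f hB hn)
    subst hn
    refine ⟨w, ?_, rfl⟩
    by_contra hwJ
    have hwJ' : w ∉ J := by simpa using hwJ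
    apply hf
    have h3 := hfac w B f hB
    rwa [if_neg hwJ'] at h3

include hun hF in
/-- Every object decomposes. -/
theorem decomp_all [IsTriangulated C] (hq : 1 < q) (hC : IsChow Chow)
    (hRN : RationalIsNumerical Chow) (hPa : Parshin Chow)
    (hw : ∀ P, Chow P → CohWt R q F P) (X : C) : Nonempty (Decomp (Pp q F Chow) X) := by
  have hG := grd_chow hun hF hq hC hRN hPa hw
  apply exists_decomp hG (gd_all hG (fun P hP => gd_chow hun hF hq hC hRN hPa hw hP)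
    hC.generate X)
  intro W hW
  apply isZero_of_ort hC.generate W
  intro B n f hB
  obtain ⟨J, A, v, r, h1, h2⟩ := kunneth_dec hun hq hC hRN hB (hw B hB)
  have h3 : f = ∑ i ∈ J, (r i)⟦n⟧' ≫ (v i)⟦n⟧' ≫ f := by
    calc f = (𝟙 B)⟦n⟧' ≫ f := by rw [CategoryTheory.Functor.map_id, Category.id_comp]
      _ = (∑ i ∈ J, (r i ≫ v i)⟦n⟧') ≫ f := by rw [← h2, Functor.map_sum]
      _ = ∑ i ∈ J, (r i ≫ v i)⟦n⟧' ≫ f := by rw [Preadditive.sum_comp]
      _ = _ := Finset.sum_congr rfl fun i _ => by rw [Functor.map_comp, Category.assoc]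
  rw [h3]
  refine Finset.sum_eq_zero fun i hi => ?_
  have h4 : Pp q F Chow (i, n) ((A i)⟦n⟧) :=
    ⟨hC.iso (h1 i hi).2.1 ((shiftEquiv C n).unitIso.app (A i)), (h1 i hi).2.2.shift hF n⟩
  rw [hW (i, n) _ ((v i)⟦n⟧' ≫ f) h4, comp_zero]

end

end Pool.Agent.Q227.FM
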