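import Pool.Agent.Y116.MT.Deg

/-!
# Motives over a finite field: Chow motives, Frobenius, and the conjectures
-/

set_option autoImplicit false

open CategoryTheory Limits MonoidalCategory Pretriangulated Triangulated
open Pool.Agent.Y116.MT (TensorTriangulated Realisation)

namespace Pool.Agent.Q227.FM

universe v u w

section

variable {C : Type u} [Category.{v} C] [Preadditive C] [HasZeroObject C] [HasShift C ℤ]
  [∀ n : ℤ, (shiftFunctor C n).Additive] [Pretriangulated C] [MonoidalCategory C]
  [SymmetricCategory C] [RightRigidCategory C]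

/-- The formal properties of the class `Chow` of the Chow motives in a category `C` of motives
(in the category of constructible motives: the direct summands of the motives `M(X)(m)[2m]` of
smooth projective varieties `X`): it contains the unit, is closed under tensor products, duals,
direct sums and direct summands, generates `C` as a triangulated category, and
`Hom(𝟙, Q⟦n⟧) = 0` for `n > 0` (for `Q = M(X)(m)[2m]` with `X` of dimension `d` this is the higher
Chow group `CH^(d + m)(X, -n)`, which vanishes). -/
structure IsChow (Chow : ObjectProperty C) : Prop where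
  unit : Chow (𝟙_ C)
  tensor (P Q : C) : Chow P → Chow Q → Chow (P ⊗ Q)
  dual (P : C) : Chow P → Chow (Pᘁ : C)
  sum (P Q : C) : Chow P → Chow Q → Chow (P ⊞ Q)
  retract (P Q : C) (i : P ⟶ Q) (r : Q ⟶ P) : i ≫ r = 𝟙 P → Chow Q → Chow P
  generate : Chow.IsClassicalTriangulatedGenerator
  vanish (Q : C) (n : ℤ) : Chow Q → 0 < n → ∀ s : 𝟙_ C ⟶ Q⟦n⟧, s = 0

/-- Rational and numerical equivalence agree: a morphism `s : 𝟙 ⟶ Q` to a Chow motive `Q` (for
`Q = M(X)(m)[2m]`: a cycle class on `X` with rational coefficients) with `s ≫ r = 0` for all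
`r : Q ⟶ 𝟙` (for all cycle classes of complementary dimension the intersection number is zero)
vanishes. -/
def RationalIsNumerical (Chow : ObjectProperty C) : Prop :=
  ∀ (Q : C) (s : 𝟙_ C ⟶ Q), Chow Q → (∀ r : Q ⟶ 𝟙_ C, s ≫ r = 0) → s = 0

/-- Parshin's conjecture: `Hom(𝟙, Q⟦-n⟧) = 0` for `n > 0` and all Chow motives `Q` (for
`Q = M(X)(m)[2m]` with `X` of dimension `d` this is the higher Chow group
`CH^(d + m)(X, n)` with rational coefficients). -/
def Parshin (Chow : ObjectProperty C) : Prop :=
  ∀ (Q : C) (n : ℤ), Chow Q → n < 0 → ∀ s : 𝟙_ C ⟶ Q⟦n⟧, s = 0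

end

/-- The endomorphism `φ` of a vector space is pure of weight `i`: it is annihilated by a nonzero
polynomial with rational coefficients all of whose complex roots have absolute value
`q ^ (i / 2)`. -/
def IsPure (q : ℕ) (i : ℤ) {E : Type w} [Field E] [CharZero E] {V : Type w} [AddCommGroup V]
    [Module E V] (φ : Module.End E V) : Prop :=
  ∃ p : Polynomial ℚ, p ≠ 0 ∧
    (∀ z : ℂ, Polynomial.aeval z p = 0 → ‖z‖ = (q : ℝ) ^ ((i : ℝ) / 2)) ∧
    Polynomial.aeval φ (p.map (algebraMap ℚ E)) = 0

section

variable {C : Type u} [Category.{v} C] [Preadditive C] [HasZeroObject C] [HasShift C ℤ]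
  [∀ n : ℤ, (shiftFunctor C n).Additive] [Pretriangulated C] [MonoidalCategory C]
  [SymmetricCategory C] [TensorTriangulated C]

/-- Frobenius for motives over the field with `q` elements: an endomorphism of the identity functor
of the category of motives, compatible with the shift, such that its action on the cohomology
`H^i(P)` of a Chow motive `P` is pure of weight `i` (Deligne). -/
structure Frobenius (q : ℕ) (Chow : ObjectProperty C) {Λ : Type*} {E : Λ → Type w}
    [∀ l, Field (E l)] [∀ l, CharZero (E l)] (R : ∀ l, Realisation C (E l)) where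
  /-- the Frobenius endomorphisms of the motives -/
  F : 𝟭 C ⟶ 𝟭 C
  shift (X : C) : F.app (X⟦(1 : ℤ)⟧) = (F.app X)⟦(1 : ℤ)⟧'
  weights (l : Λ) (P : C) (i : ℤ) : Chow P → IsPure q i ((R l).H.map ((F.app P)⟦i⟧')).hom

end

/-- Every morphism `f` is of the form `f ≫ g ≫ f` (in a triangulated category in which idempotents
split this means that `C` is a semisimple category, all of whose distinguished triangles split). -/
def AllSplit (C : Type u) [Category.{v} C] : Prop :=
  ∀ (X Y : C) (f : X ⟶ Y), ∃ g : Y ⟶ X, f ≫ g ≫ f = f

end Pool.Agent.Q227.FM
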