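import Pool.Agent.Q227.FM.Tr
import Pool.Agent.Y116.MT.Hom

/-!
# Sorted filtrations with semisimple layers
-/

set_option autoImplicit false
set_option linter.unusedSectionVars false
set_option backward.isDefEq.respectTransparency false
set_option backward.defeqAttrib.useBackward true

open CategoryTheory Limits Pretriangulated Triangulated ZeroObject
open Pool.Agent.Y116.MT (ye1 ye2 ye3 ce1 ce2 ce3 comp12 comp23 comp31 rotD isIso1_of_isZero3
  split1 split3 split3' isIso2_of_isZero1 isZero2)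

namespace Pool.Agent.Q227.FM

universe v u

section

variable {C : Type u} [Category.{v} C] [Preadditive C] [HasZeroObject C] [HasShift C ℤ]
  [∀ n : ℤ, (shiftFunctor C n).Additive] [Pretriangulated C]

/-- Filtrations with layers in `S b'`, first layers with the largest `b'`, all `b' ≤ b`. -/
inductive Flt (S : ℤ → ObjectProperty C) : ℤ → C → Prop
  | zero (b : ℤ) (X : C) (h : IsZero X) : Flt S b X
  | cons (b b' : ℤ) (A X Y : C) (hb : b' ≤ b) (hA : S b' A) (hY : Flt S b' Y) (h : Tr A X Y) :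
      Flt S b X

/-- Filtrations with layers in `S b'`, `c ≤ b'`. -/
inductive Glt (S : ℤ → ObjectProperty C) (c : ℤ) : C → Prop
  | zero (X : C) (h : IsZero X) : Glt S c X
  | cons (c' : ℤ) (A X Y : C) (hc : c ≤ c') (hA : S c' A) (hY : Glt S c Y) (h : Tr A X Y) :
      Glt S c X

variable {S : ℤ → ObjectProperty C}

lemma Flt.mono {b c : ℤ} {X : C} (h : Flt S b X) (hbc : b ≤ c) : Flt S c X := by
  cases h with
  | zero _ _ h => exact Flt.zero c X h
  | cons _ b' A _ Y hb hA hY h => exact Flt.cons c b' A X Y (hb.trans hbc) hA hY h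

lemma Flt.iso {b : ℤ} {X X' : C} (h : Flt S b X) (e : X ≅ X') : Flt S b X' := by
  cases h with
  | zero _ _ h => exact Flt.zero b X' (h.of_iso e.symm)
  | cons _ b' A _ Y hb hA hY h =>
    exact Flt.cons b b' A X' Y hb hA hY (h.iso (Iso.refl _) e (Iso.refl _))

lemma Flt.single {b : ℤ} {X : C} (h : S b X) : Flt S b X :=
  Flt.cons b b X X 0 le_rfl h (Flt.zero b 0 (isZero_zero C))
    ⟨_, _, _, contractible_distinguished X⟩

variable (hS : Lay S)

include hS

lemma Flt.shift (n : ℤ) {b : ℤ} {X : C} (h : Flt S b X) : Flt S (b + n) (X⟦n⟧) := by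
  induction h with
  | zero b X h => exact Flt.zero _ _ ((shiftFunctor C n).map_isZero h)
  | cons b b' A X Y hb hA hY h ih =>
    exact Flt.cons _ (b' + n) (A⟦n⟧) _ (Y⟦n⟧) (by omega) (hS.shift b' n A hA) ih (h.shift n)

lemma Glt.shift (n : ℤ) {c : ℤ} {X : C} (h : Glt S c X) : Glt S (c + n) (X⟦n⟧) := by
  induction h with
  | zero X h => exact Glt.zero _ ((shiftFunctor C n).map_isZero h)
  | cons c' A X Y hc hA hY h ih =>
    exact Glt.cons (c' + n) (A⟦n⟧) _ (Y⟦n⟧) (by omega) (hS.shift c' n A hA) ih (h.shift n)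

lemma orth1 {a b : ℤ} {A Y : C} (hA : S a A) (hY : Flt S b Y) (hab : b < a) (f : A ⟶ Y) :
    f = 0 := by
  induction hY with
  | zero b Y h => exact h.eq_of_tgt _ _
  | cons b b' B Y Z hb hB hZ h ih =>
    obtain ⟨x, y, z, hT⟩ := h
    obtain ⟨l, hl⟩ := ce2 hT f (ih (by omega) (f ≫ y))
    rw [hl, hS.orth a b' A B l (by omega) hA hB, zero_comp]

lemma orth2 {c b : ℤ} {A Y : C} (hA : Glt S c A) (hY : Flt S b Y) (hbc : b < c) (f : A ⟶ Y) :
    f = 0 := by
  induction hA with
  | zero A h => exact h.eq_of_src _ _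
  | cons c' A X Z hc hA hZ h ih =>
    obtain ⟨x, y, z, hT⟩ := h
    obtain ⟨l, hl⟩ := ye2 hT f (orth1 hS hA hY (by omega) (x ≫ f))
    rw [hl, ih l, comp_zero]

variable [IsTriangulated C] [IsIdempotentComplete C]

lemma Flt.insert {b : ℤ} {Y : C} (hY : Flt S b Y) : ∀ (a : ℤ) (A X : C), S a A → Tr A X Y →
    Flt S (max a b) X := by
  induction hY with
  | zero b Y h =>
    intro a A X hA hT
    exact Flt.cons _ a A X Y (le_max_left _ _) hA (Flt.zero a Y h) hT
  | cons b b' B Y Z hb hB hZ h ih =>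
    intro a A X hA hT
    by_cases hab : b' ≤ a
    · exact Flt.cons _ a A X Y (le_max_left _ _) hA (Flt.cons a b' B Y Z hab hB hZ h) hT
    · rw [not_le] at hab
      obtain ⟨F, h1, h2⟩ := hT.oct' h
      obtain ⟨K, G, hK, hG, h3⟩ := swap hS hab hA hB h1
      obtain ⟨X', h4, h5⟩ := h3.oct h2
      have h6 := ih a G X' hG h5
      rw [max_eq_right hab.le] at h6
      exact Flt.cons _ b' K X X' (hb.trans (le_max_right _ _)) hK h6 h4

lemma Flt.ext {b : ℤ} {X : C} (hX : Flt S b X) : ∀ (c : ℤ) (Y Z : C), Flt S c Z → Tr X Y Z →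
    Flt S (max b c) Y := by
  induction hX with
  | zero b X h =>
    intro c Y Z hZ hT
    obtain ⟨e⟩ := hT.isoOfZero h
    exact (hZ.iso e.symm).mono (le_max_right _ _)
  | cons b b' A X X₁ hb hA hX h ih =>
    intro c Y Z hZ hT
    obtain ⟨Y₁, h1, h2⟩ := h.oct hT
    have h3 := (ih c Y₁ Z hZ h2).insert hS b' A Y hA h1
    exact h3.mono (max_le (hb.trans (le_max_left _ _))
      (max_le (hb.trans (le_max_left _ _)) (le_max_right _ _)))

omit [IsIdempotentComplete C] hS in
lemma Flt.trunc {b : ℤ} {X : C} (hX : Flt S b X) (c : ℤ) :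
    ∃ A B, Glt S c A ∧ Flt S (c - 1) B ∧ Tr A X B := by
  induction hX with
  | zero b X h => exact ⟨0, X, Glt.zero _ (isZero_zero C), Flt.zero _ _ h, Tr.zero X⟩
  | cons b b' A₀ X Y hb hA hY h ih =>
    by_cases hc : b' < c
    · exact ⟨0, X, Glt.zero _ (isZero_zero C), Flt.cons (c - 1) b' A₀ X Y (by omega) hA hY h,
        Tr.zero X⟩
    · obtain ⟨A, B, h1, h2, h3⟩ := ih
      obtain ⟨F, h4, h5⟩ := h.oct' h3
      exact ⟨F, B, Glt.cons b' A₀ F A (by omega) hA h1 h4, h2, h5⟩

omit [IsIdempotentComplete C] [IsTriangulated C] in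
/-- Endomorphisms of the first term of a truncation are determined by the middle term. -/
lemma trunc_cancel {c : ℤ} {A B X : C} {a : A ⟶ X} {g : X ⟶ B} {h : B ⟶ A⟦(1 : ℤ)⟧}
    (hT : Triangle.mk a g h ∈ distTriang C) (hA : Glt S c A) (hB : Flt S (c - 1) B)
    (x : A ⟶ A) (hx : x ≫ a = 0) : x = 0 := by
  apply (shiftFunctor C (1 : ℤ)).map_injective
  rw [Functor.map_zero]
  obtain ⟨l, hl⟩ := ce1 hT (x⟦(1 : ℤ)⟧') (by rw [← Functor.map_comp, hx, Functor.map_zero])
  rw [hl, orth2 hS (hA.shift hS 1) hB (by omega) l, zero_comp]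

end

end Pool.Agent.Q227.FM
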