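import Pool.Agent.Q227.FM.Wt
import Pool.Agent.Q57.MT.Gen

/-!
# A motivic t-structure over a finite field and its consequences
-/

set_option autoImplicit false
set_option linter.unusedSectionVars false
set_option linter.unusedSimpArgs false
set_option backward.isDefEq.respectTransparency false
set_option backward.defeqAttrib.useBackward true

open CategoryTheory Limits MonoidalCategory Pretriangulated Triangulated
open Pool.Agent.Y116.MT
open Pool.Agent.Q57.MT (coh coh_ge coh_le isIso_H_trunc coh_truncGE)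

namespace Pool.Agent.Q227.FM

universe v u w

section

variable {C : Type u} [Category.{v} C] [Preadditive C] [HasZeroObject C] [HasShift C ℤ]
  [∀ n : ℤ, (shiftFunctor C n).Additive] [Pretriangulated C]
  [MonoidalCategory C] [SymmetricCategory C] [TensorTriangulated C] [MonoidalPreadditive C]
  [RightRigidCategory C]

lemma IsChow.iso {Chow : ObjectProperty C} (hC : IsChow Chow) {X Y : C} (h : Chow X)
    (e : X ≅ Y) : Chow Y :=
  hC.retract Y X e.inv e.hom e.inv_hom_id h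

/-- Morphisms `A ⟶ B⟦n⟧` from morphisms `𝟙 ⟶ Q⟦n⟧`. -/
lemma IsChow.hom_zero {Chow : ObjectProperty C} (hC : IsChow Chow) {n : ℤ}
    (h : ∀ Q : C, Chow Q → ∀ s : 𝟙_ C ⟶ Q⟦n⟧, s = 0) {A B : C} (hA : Chow A) (hB : Chow B)
    (f : A ⟶ B⟦n⟧) : f = 0 := by
  apply eq_zero_of_nm
  rw [← cancel_mono (lShift B (Aᘁ : C) n).hom, zero_comp]
  exact h _ (hC.tensor _ _ hB (hC.dual _ hA)) _

lemma IsChow.orth_pos {Chow : ObjectProperty C} (hC : IsChow Chow) {n : ℤ} (hn : 0 < n)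
    {A B : C} (hA : Chow A) (hB : Chow B) (f : A ⟶ B⟦n⟧) : f = 0 :=
  hC.hom_zero (fun Q hQ => hC.vanish Q n hQ hn) hA hB f

end

section

variable {C : Type u} [Category.{v} C] [Preadditive C] [HasZeroObject C] [HasShift C ℤ]
  [∀ n : ℤ, (shiftFunctor C n).Additive] [Pretriangulated C] [IsTriangulated C]
  [MonoidalCategory C] [SymmetricCategory C] [TensorTriangulated C] [MonoidalPreadditive C]
  [RightRigidCategory C] [Linear ℚ C] [MonoidalLinear ℚ C]
  {E : Type w} [Field E] [CharZero E] {R : Realisation C E} {t : TStructure C}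
  (ht : TensorCompat t) (he : TExact t R) (hu : Hrt t (𝟙_ C))
  (hid : ∀ e : 𝟙_ C ⟶ 𝟙_ C, e ≫ e = e → e = 0 ∨ e = 𝟙 _)
  {q : ℕ} {F : 𝟭 C ⟶ 𝟭 C} (hF : ∀ X : C, F.app (X⟦(1 : ℤ)⟧) = (F.app X)⟦(1 : ℤ)⟧')

/-- The polynomial condition for the cohomology in degree `i`. -/
def CohWt (R : Realisation C E) (q : ℕ) (F : 𝟭 C ⟶ 𝟭 C) (P : C) : Prop :=
  ∀ i : ℤ, ∃ p : Polynomial ℚ, Wgt q {i} p ∧ R.H.map ((ev F P p)⟦i⟧') = 0

lemma cohWt_of {P : C} {i : ℤ} {p : Polynomial ℚ}
    (h : Polynomial.aeval (R.H.map ((F.app P)⟦i⟧')).hom (p.map (algebraMap ℚ E)) = 0) :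
    R.H.map ((ev F P p)⟦i⟧') = 0 := by
  apply ModuleCat.hom_ext
  have h1 := ev_vec F (shiftFunctor C i ⋙ R.H) P p
  exact h1.trans h

include ht he hu hid in
lemma coh_wt {P : C} (hP : CohWt R q F P) (j : ℤ) : HasWt q F {j} (coh t j P) := by
  obtain ⟨p, hp, h0⟩ := hP j
  refine ⟨p, hp, ?_⟩
  obtain ⟨h1, h2⟩ := isIso_H_trunc he P j
  have n1 := ev_naturality F ((t.truncLTι (j + 1)).app P) p
  have n2 := ev_naturality F ((t.truncGEπ j).app ((t.truncLT (j + 1)).obj P)) p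
  have h3 : R.H.map ((ev F ((t.truncLT (j + 1)).obj P) p)⟦j⟧') = 0 := by
    rw [← cancel_mono (R.H.map (((t.truncLTι (j + 1)).app P)⟦j⟧')), zero_comp,
      ← Functor.map_comp, ← Functor.map_comp]
    have n1' : ev F ((t.truncLT (j + 1)).obj P) p ≫ (t.truncLTι (j + 1)).app P =
        (t.truncLTι (j + 1)).app P ≫ ev F P p := n1.symm
    rw [n1', Functor.map_comp, Functor.map_comp, h0, comp_zero]
  have h4 : R.H.map ((ev F (coh t j P) p)⟦j⟧') = 0 := by
    rw [← cancel_epi (R.H.map (((t.truncGEπ j).app ((t.truncLT (j + 1)).obj P))⟦j⟧')),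
      comp_zero, ← Functor.map_comp, ← Functor.map_comp]
    have n2' : (t.truncGEπ j).app ((t.truncLT (j + 1)).obj P) ≫ ev F (coh t j P) p =
        ev F ((t.truncLT (j + 1)).obj P) p ≫ (t.truncGEπ j).app ((t.truncLT (j + 1)).obj P) :=
      n2
    rw [n2', Functor.map_comp, Functor.map_comp, h3, zero_comp]
  have hZ : Hrt t ((coh t j P)⟦j⟧) := ⟨@TStructure.isLE_shift _ _ _ _ _ _ _ t _ j j 0 (by omega)
    (coh_le t j P), @TStructure.isGE_shift _ _ _ _ _ _ _ t _ j j 0 (by omega) (coh_ge t j P)⟩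
  have h5 := faithful_heart ht he hu hid hZ hZ _ h4
  exact (shiftFunctor C j).map_injective (by rw [h5, Functor.map_zero])

/-- Weights of truncations. -/
lemma wt_truncLT {X : C} {S : Set ℤ} (a : ℤ) (hX : t.IsGE X a) (m : ℕ)
    (h : ∀ j : ℤ, a ≤ j → j < a + m → HasWt q F S (coh t j X)) :
    HasWt q F S ((t.truncLT (a + m)).obj X) := by
  induction m with
  | zero =>
    apply HasWt.zero
    have h1 := t.isZero_truncLT_obj_of_isGE a X
    have h2 : a + ((0 : ℕ) : ℤ) = a := by simp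
    rwa [h2]
  | succ n ih =>
    have h1 := t.triangleLTLTGELT_distinguished (a + n) (a + n + 1) (by omega) X
    have h2 : a + ((n + 1 : ℕ) : ℤ) = a + n + 1 := by push_cast; ring
    rw [h2]
    exact HasWt.ext h1 (ih fun j h3 h4 => h j h3 (by push_cast; omega))
      (h (a + n) (by omega) (by push_cast; omega))

lemma wt_bounded {X : C} {S : Set ℤ} (a b : ℤ) (hX : t.IsGE X a) (hX' : t.IsLE X b)
    (h : ∀ j : ℤ, a ≤ j → HasWt q F S (coh t j X)) : HasWt q F S X := by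
  have h1 := wt_truncLT a hX ((b - a) + 1).toNat (fun j h1 _ => h j h1)
  set m := ((b - a) + 1).toNat with hm
  have h2 : t.IsLE X (a + m - 1) := t.isLE_of_le X b (a + m - 1) (by omega)
  have h3 : IsIso ((t.truncLTι (a + m)).app X) :=
    (t.isLE_iff_isIso_truncLTι_app (a + m - 1) (a + m) (by omega) X).1 h2
  exact h1.iso (asIso ((t.truncLTι (a + m)).app X))

variable (hle : ∀ X : C, (∀ n : ℤ, t.le n X) → IsZero X)
  (hge : ∀ X : C, (∀ n : ℤ, t.ge n X) → IsZero X)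

include ht he hu hid hle hge in
/-- The two truncations have separated weights. -/
lemma wt_trunc {P : C} (hP : CohWt R q F P) (n : ℤ) :
    HasWt q F (Set.Iio n) ((t.truncLT n).obj P) ∧
      HasWt q F (Set.Ici n) ((t.truncGE n).obj P) := by
  obtain ⟨N, h1, h2⟩ := bounded_of_H ht he hu hid hle hge P
  constructor
  · by_cases hn : n ≤ -(N : ℤ)
    · apply HasWt.zero
      have h3 : t.IsGE P n := t.isGE_of_ge P n (-(N : ℤ)) hn
      exact t.isZero_truncLT_obj_of_isGE n P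
    · have h3 := wt_truncLT (q := q) (F := F) (S := Set.Iio n) (-(N : ℤ)) h2 (n + N).toNat
        (fun j hj hj' => (coh_wt ht he hu hid hP j).mono (by
          rw [Set.singleton_subset_iff, Set.mem_Iio]
          omega))
      have h4 : -(N : ℤ) + (n + N).toNat = n := by omega
      rwa [h4] at h3
  · have h3 : t.IsGE ((t.truncGE n).obj P) n := inferInstance
    have h4 : t.IsLE ((t.truncGE n).obj P) N := inferInstance
    refine wt_bounded n N h3 h4 fun j hj => ?_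
    obtain ⟨e⟩ := coh_truncGE (t := t) P n j hj
    refine HasWt.iso ((coh_wt ht he hu hid hP j).mono ?_) e.symm
    rw [Set.singleton_subset_iff, Set.mem_Ici]
    exact hj

include ht he hu hid hle hge hF in
/-- The truncation triangles of Chow motives split. -/
lemma split_trunc (hq : 1 < q) {P : C} (hP : CohWt R q F P) (n : ℤ) :
    (t.truncGEδLT n).app P = 0 := by
  obtain ⟨h1, h2⟩ := wt_trunc ht he hu hid hle hge hP n
  exact HasWt.orth hq _ h2 (h1.shift hF 1) (Set.disjoint_left.2 fun i h3 h4 => by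
    rw [Set.mem_Ici] at h3
    rw [Set.mem_Iio] at h4
    omega)

omit [MonoidalCategory C] [SymmetricCategory C] [TensorTriangulated C] [MonoidalPreadditive C]
  [RightRigidCategory C] [Linear ℚ C] [MonoidalLinear ℚ C] [IsTriangulated C] in
/-- Exactness for shifted triangles. -/
lemma shift_exact {W X Y Z : C} {f : X ⟶ Y} {g : Y ⟶ Z} {h : Z ⟶ X⟦(1 : ℤ)⟧}
    (hT : Triangle.mk f g h ∈ distTriang C) (n : ℤ) (s : W ⟶ Y⟦n⟧)
    (h1 : ∀ x : W ⟶ X⟦n⟧, x = 0) (h2 : s ≫ g⟦n⟧' = 0) : s = 0 := by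
  have hT' := Triangle.shift_distinguished _ hT n
  obtain ⟨x, hx⟩ := Triangle.coyoneda_exact₂ _ hT' s (by
    change s ≫ (n.negOnePow • g⟦n⟧') = 0
    rw [Linear.comp_units_smul, h2, smul_zero])
  rw [hx, h1 x, zero_comp]

include ht he hu hid in
lemma unit_wt (h : CohWt R q F (𝟙_ C)) : HasWt q F {0} (𝟙_ C) := by
  have h1 := coh_wt ht he hu hid h 0
  have h2 : IsIso ((t.truncLTι (0 + 1)).app (𝟙_ C)) :=
    (t.isLE_iff_isIso_truncLTι_app 0 (0 + 1) rfl (𝟙_ C)).1 hu.1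
  have h3 : t.IsGE ((t.truncLT (0 + 1)).obj (𝟙_ C)) 0 :=
    @TStructure.isGE_of_iso _ _ _ _ _ _ _ t _ _ (asIso ((t.truncLTι (0 + 1)).app (𝟙_ C))).symm 0
      hu.2
  have h4 : IsIso ((t.truncGEπ 0).app ((t.truncLT (0 + 1)).obj (𝟙_ C))) :=
    (t.isGE_iff_isIso_truncGEπ_app 0 _).1 h3
  exact h1.iso ((asIso ((t.truncGEπ 0).app ((t.truncLT (0 + 1)).obj (𝟙_ C)))).symm ≪≫
    asIso ((t.truncLTι (0 + 1)).app (𝟙_ C)))

include ht he hu hid hle hge hF in
/-- The negative extensions vanish. -/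
theorem parshin_of (hq : 1 < q) (hun : HasWt q F {0} (𝟙_ C)) {P : C} (hP : CohWt R q F P)
    (n : ℤ) (hn : n < 0) (s : 𝟙_ C ⟶ P⟦n⟧) : s = 0 := by
  obtain ⟨h1, h2⟩ := wt_trunc ht he hu hid hle hge hP 0
  apply shift_exact (t.triangleLTGE_distinguished 0 P) n s
  · intro x
    exact HasWt.orth hq x hun (h1.shift hF n) (by simp)
  · set Y := (t.truncGE 0).obj P with hY
    set s1 : 𝟙_ C ⟶ Y⟦n⟧ := s ≫ ((t.triangleLTGE 0).obj P).mor₂⟦n⟧' with hs1
    apply shift_exact (t.triangleLTGE_distinguished 1 Y) n s1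
    · intro x
      have h3 : t.IsLE ((t.truncLT 1).obj Y) 0 := t.isLE_truncLT_obj Y 1 0
      have h4 : t.IsGE Y 0 := inferInstance
      have h5 : t.IsGE ((t.truncLT 1).obj Y) 0 :=
        isGE1 (t.triangleLTGE_distinguished 1 Y) h4 (t.isGE_of_ge ((t.truncGE 1).obj Y) (0 - 1) 1)
      have h6 : t.IsGE (((t.truncLT 1).obj Y)⟦n⟧) (-n) :=
        t.isGE_shift ((t.truncLT 1).obj Y) 0 n (-n)
      have h7 : t.IsLE (𝟙_ C) 0 := hu.1
      exact t.zero_of_isLE_of_isGE x 0 (-n) (by omega) h7 h6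
    · obtain ⟨N, h7, h8⟩ := bounded_of_H ht he hu hid hle hge P
      have h9 : HasWt q F (Set.Ici 1) ((t.truncGE 1).obj Y) := by
        have e1 : t.IsGE ((t.truncGE 1).obj Y) 1 := inferInstance
        have e2 : t.IsLE ((t.truncGE 1).obj Y) N := by
          have e3 : t.IsLE Y N := inferInstanceAs (t.IsLE ((t.truncGE 0).obj P) N)
          infer_instance
        refine wt_bounded 1 N e1 e2 fun j hj => ?_
        obtain ⟨e⟩ := coh_truncGE (t := t) Y 1 j hj
        obtain ⟨e'⟩ := coh_truncGE (t := t) P 0 j (by omega)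
        refine HasWt.iso ((coh_wt ht he hu hid hP j).mono ?_) (e ≪≫ e').symm
        rw [Set.singleton_subset_iff, Set.mem_Ici]
        exact hj
      exact HasWt.orth hq _ hun (h9.shift hF n) (by simp)

include ht he hu hid hle hge in
lemma wt_second {P : C} (hP : CohWt R q F P) :
    HasWt q F (Set.Ici 1) ((t.truncGE 1).obj ((t.truncGE 0).obj P)) := by
  obtain ⟨N, h7, h8⟩ := bounded_of_H ht he hu hid hle hge P
  have e1 : t.IsGE ((t.truncGE 1).obj ((t.truncGE 0).obj P)) 1 := inferInstance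
  have e2 : t.IsLE ((t.truncGE 1).obj ((t.truncGE 0).obj P)) N := by
    have e3 : t.IsLE ((t.truncGE 0).obj P) N := inferInstance
    infer_instance
  refine wt_bounded 1 N e1 e2 fun j hj => ?_
  obtain ⟨e⟩ := coh_truncGE (t := t) ((t.truncGE 0).obj P) 1 j hj
  obtain ⟨e'⟩ := coh_truncGE (t := t) P 0 j (by omega)
  refine HasWt.iso ((coh_wt ht he hu hid hP j).mono ?_) (e ≪≫ e').symm
  rw [Set.singleton_subset_iff, Set.mem_Ici]
  exact hj

include ht he hu hid hle hge hF in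
/-- Rational and numerical equivalence agree. -/
theorem rational_of (hq : 1 < q) (hun : HasWt q F {0} (𝟙_ C)) {Chow : ObjectProperty C}
    (hC : IsChow Chow) (hP : ∀ P, Chow P → CohWt R q F P) {P : C} (hPC : Chow P)
    (s : 𝟙_ C ⟶ P) (hs : ∀ r : P ⟶ 𝟙_ C, s ≫ r = 0) : s = 0 := by
  by_contra hs0
  obtain ⟨h1, h2⟩ := wt_trunc ht he hu hid hle hge (hP P hPC) 0
  have T1 := t.triangleLTGE_distinguished 0 P
  set Y := (t.truncGE 0).obj P with hY
  obtain ⟨j, hj⟩ := split3' T1 (split_trunc ht he hu hid hF hle hge hq (hP P hPC) 0)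
  have hYC : Chow Y := hC.retract _ _ j _ hj hPC
  have T2 := t.triangleLTGE_distinguished 1 Y
  let A : C := (t.truncLT 1).obj Y
  obtain ⟨rA, hrA⟩ : ∃ rA : Y ⟶ A, (t.truncLTι 1).app Y ≫ rA = 𝟙 A :=
    split3 T2 (split_trunc ht he hu hid hF hle hge hq (hP Y hYC) 1)
  have hAC : Chow A := hC.retract A Y ((t.truncLTι 1).app Y) rA hrA hYC
  have hAh : Hrt t A := by
    have h3 : t.IsLE ((t.truncLT 1).obj Y) 0 := t.isLE_truncLT_obj Y 1 0
    have h4 : t.IsGE Y 0 := inferInstance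
    exact ⟨h3, isGE1 T2 h4 (t.isGE_of_ge ((t.truncGE 1).obj Y) (0 - 1) 1)⟩
  set s1 : 𝟙_ C ⟶ Y := s ≫ (t.truncGEπ 0).app P with hs1
  have hs1' : s1 ≠ 0 := by
    intro h0
    obtain ⟨x, hx⟩ := ce2 T1 s h0
    apply hs0
    rw [hx, HasWt.orth hq x hun h1 (by simp), zero_comp]
  obtain ⟨s2, hs2⟩ := ce2 T2 s1 (HasWt.orth hq _ hun
    (wt_second ht he hu hid hle hge (hP P hPC)) (by simp))
  have hs2' : s2 ≠ 0 := by
    intro h0
    apply hs1'
    rw [hs2, h0, zero_comp]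
  obtain ⟨r, hr⟩ := heart_pairing ht he hu hid hAh Chow hC.unit
    (fun X hX => hC.tensor _ _ hX hAC) (fun X hX m hm f => hC.orth_pos hm hX hC.unit f) s2 hs2'
  apply hr
  have h3 := hs ((t.truncGEπ 0).app P ≫ rA ≫ r)
  calc s2 ≫ r = s2 ≫ ((t.truncLTι 1).app Y ≫ rA) ≫ r := by rw [hrA, Category.id_comp]
    _ = (s2 ≫ (t.truncLTι 1).app Y) ≫ rA ≫ r := by simp only [Category.assoc]
    _ = s1 ≫ rA ≫ r := by rw [hs2]
    _ = 0 := by rw [hs1, Category.assoc, h3]

end

end Pool.Agent.Q227.FM
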