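import Pool.Agent.Y116.MT.Tri

/-!
# Triangulated categories generated by orthogonal families with regular morphisms
-/

set_option autoImplicit false
set_option linter.unusedSectionVars false
set_option backward.isDefEq.respectTransparency false
set_option backward.defeqAttrib.useBackward true

open CategoryTheory Limits Pretriangulated Triangulated ZeroObject
open Pool.Agent.Y116.MT (ye1 ye2 ye3 ce1 ce2 ce3 comp12 comp23 comp31 rotD isIso1_of_isZero3)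

namespace Pool.Agent.Q227.FM

universe v u

section

variable {C : Type u} [Category.{v} C] [Preadditive C] [HasZeroObject C] [HasShift C ℤ]
  [∀ n : ℤ, (shiftFunctor C n).Additive] [Pretriangulated C]

/-- A graded family of classes of objects with orthogonality and regular morphisms. -/
structure Grd {ι : Type*} (P : ι → ObjectProperty C) (sh : ℤ → ι → ι) : Prop where
  zero (i : ι) (X : C) : IsZero X → P i X
  retract (i : ι) (X Y : C) (f : X ⟶ Y) (g : Y ⟶ X) : f ≫ g = 𝟙 X → P i Y → P i X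
  sum (i : ι) (X Y : C) : P i X → P i Y → P i (X ⊞ Y)
  shift (n : ℤ) (i : ι) (X : C) : P i X → P (sh n i) (X⟦n⟧)
  sh_neg (n : ℤ) (i : ι) : sh (-n) (sh n i) = i
  orth (i j : ι) (X Y : C) (f : X ⟶ Y) : i ≠ j → P i X → P j Y → f = 0
  reg (i : ι) (X Y : C) (f : X ⟶ Y) : P i X → P i Y → ∃ g : Y ⟶ X, f ≫ g ≫ f = f

variable {ι : Type*} {P : ι → ObjectProperty C} {sh : ℤ → ι → ι}

lemma Grd.iso (hP : Grd P sh) {i : ι} {X Y : C} (e : X ≅ Y) (h : P i X) : P i Y :=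
  hP.retract i Y X e.inv e.hom e.inv_hom_id h

lemma Grd.sh_neg' (hP : Grd P sh) (n : ℤ) (i : ι) : sh n (sh (-n) i) = i := by
  have := hP.sh_neg (-n) i
  rwa [neg_neg] at this

lemma Grd.unshift (hP : Grd P sh) {n : ℤ} {i : ι} {X : C} (h : P (sh n i) X) : P i (X⟦-n⟧) := by
  have := hP.shift (-n) _ _ h
  rwa [hP.sh_neg] at this

variable (P) in
/-- `X` has a coreflection in the class `P i`. -/
def Rep (i : ι) (X : C) : Prop :=
  ∃ (A : C) (v : A ⟶ X), P i A ∧ (∀ (B : C) (f : B ⟶ A), P i B → f ≫ v = 0 → f = 0) ∧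
    ∀ (B : C) (g : B ⟶ X), P i B → ∃ f : B ⟶ A, g = f ≫ v

variable (P) in
/-- The support of `X`. -/
def Supp (X : C) : Set ι := {i | ∃ (B : C) (f : B ⟶ X), P i B ∧ f ≠ 0}

variable (P) in
/-- The good objects. -/
def Gd : ObjectProperty C := fun X => (∀ i, Rep P i X) ∧ (Supp P X).Finite

variable (hP : Grd P sh)

include hP

lemma rep_zero {i : ι} {X : C} (h : ∀ (B : C) (f : B ⟶ X), P i B → f = 0) : Rep P i X :=
  ⟨0, 0, hP.zero i _ (isZero_zero C), fun B f _ _ => (isZero_zero C).eq_of_tgt _ _,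
    fun B g hB => ⟨0, by rw [h B g hB, zero_comp]⟩⟩

lemma rep_retract [IsIdempotentComplete C] {i : ι} {X Y : C} (a : Y ⟶ X) (b : X ⟶ Y)
    (hab : a ≫ b = 𝟙 Y) (h : Rep P i X) : Rep P i Y := by
  obtain ⟨A, v, hA, h1, h2⟩ := h
  obtain ⟨ε, hε⟩ := h2 A (v ≫ b ≫ a) hA
  have hε2 : ε ≫ ε = ε := by
    have h3 : (ε ≫ ε - ε) ≫ v = 0 := by
      have e1 : (ε ≫ ε) ≫ v = v ≫ b ≫ a := by
        calc (ε ≫ ε) ≫ v = ε ≫ v ≫ b ≫ a := by rw [Category.assoc, ← hε]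
          _ = (ε ≫ v) ≫ b ≫ a := by rw [Category.assoc]
          _ = (v ≫ b ≫ a) ≫ b ≫ a := by rw [← hε]
          _ = v ≫ b ≫ (a ≫ b) ≫ a := by simp only [Category.assoc]
          _ = v ≫ b ≫ a := by rw [hab, Category.id_comp]
      rw [Preadditive.sub_comp, e1, hε, sub_self]
    exact sub_eq_zero.1 (h1 A _ hA h3)
  obtain ⟨A', i', r', hi, hr⟩ := IsIdempotentComplete.idempotents_split A ε hε2
  have hie : i' ≫ ε = i' := by rw [← hr, ← Category.assoc, hi, Category.id_comp]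
  refine ⟨A', i' ≫ v ≫ b, hP.retract i _ _ i' r' hi hA, fun B f hB hf => ?_, fun B g hB => ?_⟩
  · have h3 : f ≫ i' ≫ v = 0 := by
      have h4 : f ≫ i' ≫ v = (f ≫ i' ≫ v ≫ b) ≫ a := by
        calc f ≫ i' ≫ v = f ≫ (i' ≫ ε) ≫ v := by rw [hie]
          _ = f ≫ i' ≫ ε ≫ v := by simp only [Category.assoc]
          _ = f ≫ i' ≫ v ≫ b ≫ a := by rw [← hε]
          _ = _ := by simp only [Category.assoc]
      rw [h4, hf, zero_comp]
    have h4 : f ≫ i' = 0 := h1 B _ hB (by rw [Category.assoc, h3])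
    rw [← Category.comp_id f, ← hi, ← Category.assoc, h4, zero_comp]
  · obtain ⟨f, hf⟩ := h2 B (g ≫ a) hB
    refine ⟨f ≫ r', ?_⟩
    calc g = g ≫ (a ≫ b) ≫ (a ≫ b) := by rw [hab]; simp
      _ = (g ≫ a) ≫ (b ≫ a) ≫ b := by simp only [Category.assoc]
      _ = (f ≫ v) ≫ (b ≫ a) ≫ b := by rw [hf]
      _ = f ≫ (v ≫ b ≫ a) ≫ b := by simp only [Category.assoc]
      _ = f ≫ (ε ≫ v) ≫ b := by rw [hε]
      _ = f ≫ ((r' ≫ i') ≫ v) ≫ b := by rw [hr]
      _ = (f ≫ r') ≫ i' ≫ v ≫ b := by simp only [Category.assoc]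

omit hP in
lemma shift_lift {n : ℤ} {B X : C} (f : B ⟶ X⟦n⟧) :
    ∃ f' : B⟦-n⟧ ⟶ X, f = (shiftNegShift B n).inv ≫ f'⟦n⟧' := by
  obtain ⟨f', hf'⟩ := (shiftFunctor C n).map_surjective ((shiftNegShift B n).hom ≫ f)
  exact ⟨f', by rw [hf', Iso.inv_hom_id_assoc]⟩

lemma rep_shift (n : ℤ) {i : ι} {X : C} (h : Rep P i X) : Rep P (sh n i) (X⟦n⟧) := by
  obtain ⟨A, v, hA, h1, h2⟩ := h
  refine ⟨A⟦n⟧, v⟦n⟧', hP.shift n i A hA, fun B f hB hf => ?_, fun B g hB => ?_⟩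
  · obtain ⟨f', rfl⟩ := shift_lift f
    have h3 : f' ≫ v = 0 := by
      apply (shiftFunctor C n).map_injective
      rw [Functor.map_comp, Functor.map_zero, ← cancel_epi (shiftNegShift B n).inv, comp_zero,
        ← Category.assoc, hf]
    rw [h1 _ f' (hP.unshift hB) h3, Functor.map_zero, comp_zero]
  · obtain ⟨g', rfl⟩ := shift_lift g
    obtain ⟨f, hf⟩ := h2 _ g' (hP.unshift hB)
    exact ⟨(shiftNegShift B n).inv ≫ f⟦n⟧', by rw [hf, Functor.map_comp, Category.assoc]⟩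

lemma rep_iso [IsIdempotentComplete C] {i : ι} {X Y : C} (e : X ≅ Y) (h : Rep P i X) :
    Rep P i Y :=
  rep_retract hP e.inv e.hom e.inv_hom_id h

lemma supp_shift (n : ℤ) {X : C} (h : (Supp P X).Finite) : (Supp P (X⟦n⟧)).Finite := by
  refine (h.image (sh n)).subset ?_
  rintro i ⟨B, f, hB, hf⟩
  obtain ⟨f', rfl⟩ := shift_lift f
  have hi : sh n (sh (-n) i) = i := hP.sh_neg' n i
  refine ⟨sh (-n) i, ⟨B⟦-n⟧, f', hP.shift (-n) _ _ hB, ?_⟩, hi⟩
  rintro rfl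
  exact hf (by rw [Functor.map_zero, comp_zero])

lemma gd_shift [IsIdempotentComplete C] (n : ℤ) {X : C} (h : Gd P X) : Gd P (X⟦n⟧) := by
  refine ⟨fun i => ?_, supp_shift hP n h.2⟩
  have h1 := rep_shift hP n (h.1 (sh (-n) i))
  rwa [hP.sh_neg' n i] at h1

lemma gd_retract [IsIdempotentComplete C] {X Y : C} (a : Y ⟶ X) (b : X ⟶ Y)
    (hab : a ≫ b = 𝟙 Y) (h : Gd P X) : Gd P Y := by
  refine ⟨fun i => rep_retract hP a b hab (h.1 i), h.2.subset ?_⟩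
  rintro i ⟨B, f, hB, hf⟩
  refine ⟨B, f ≫ a, hB, fun h0 => hf ?_⟩
  rw [← Category.comp_id f, ← hab, ← Category.assoc, h0, zero_comp]

lemma gd_zero {X : C} (hX : IsZero X) : Gd P X := by
  refine ⟨fun i => rep_zero hP fun B f _ => hX.eq_of_tgt _ _, ?_⟩
  have : Supp P X = ∅ := by
    rw [Set.eq_empty_iff_forall_notMem]
    rintro i ⟨B, f, hB, hf⟩
    exact hf (hX.eq_of_tgt _ _)
  rw [this]
  exact Set.finite_empty

/-- The five term lemma. -/
lemma rep_five [IsIdempotentComplete C] {i : ι} {W X Y Z V : C} (d : W ⟶ X) (f : X ⟶ Y)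
    (g : Y ⟶ Z) (h : Z ⟶ V) (hdf : d ≫ f = 0) (hfg : f ≫ g = 0) (hgh : g ≫ h = 0)
    (eX : ∀ (B : C) (x : B ⟶ X), x ≫ f = 0 → ∃ y : B ⟶ W, x = y ≫ d)
    (eY : ∀ (B : C) (x : B ⟶ Y), x ≫ g = 0 → ∃ y : B ⟶ X, x = y ≫ f)
    (eZ : ∀ (B : C) (x : B ⟶ Z), x ≫ h = 0 → ∃ y : B ⟶ Y, x = y ≫ g)
    (rW : Rep P i W) (rX : Rep P i X) (rZ : Rep P i Z) (rV : Rep P i V) : Rep P i Y := by
  obtain ⟨Aw, w, hAw, w1, w2⟩ := rW
  obtain ⟨Ax, x, hAx, x1, x2⟩ := rX
  obtain ⟨Az, z, hAz, z1, z2⟩ := rZ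
  obtain ⟨Av, v, hAv, v1, v2⟩ := rV
  obtain ⟨φ, hφ⟩ := x2 Aw (w ≫ d) hAw
  obtain ⟨ψ, hψ⟩ := hP.reg i _ _ φ hAw hAx
  obtain ⟨φ', hφ'⟩ := v2 Az (z ≫ h) hAz
  obtain ⟨ψ', hψ'⟩ := hP.reg i _ _ φ' hAz hAv
  have hc : (𝟙 Ax - ψ ≫ φ) ≫ (𝟙 Ax - ψ ≫ φ) = 𝟙 Ax - ψ ≫ φ := by
    have h1 : (ψ ≫ φ) ≫ (ψ ≫ φ) = ψ ≫ φ := by
      rw [Category.assoc, hψ]
    rw [Preadditive.sub_comp, Preadditive.comp_sub, Preadditive.comp_sub, h1]
    simp
  obtain ⟨L, iL, rL, hL, hL'⟩ := IsIdempotentComplete.idempotents_split _ _ hc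
  have hc' : (𝟙 Az - φ' ≫ ψ') ≫ (𝟙 Az - φ' ≫ ψ') = 𝟙 Az - φ' ≫ ψ' := by
    have h1 : (φ' ≫ ψ') ≫ (φ' ≫ ψ') = φ' ≫ ψ' := by
      calc (φ' ≫ ψ') ≫ (φ' ≫ ψ') = (φ' ≫ ψ' ≫ φ') ≫ ψ' := by simp only [Category.assoc]
        _ = _ := by rw [hψ']
    rw [Preadditive.sub_comp, Preadditive.comp_sub, Preadditive.comp_sub, h1]
    simp
  obtain ⟨K, iK, rK, hK, hK'⟩ := IsIdempotentComplete.idempotents_split _ _ hc'
  have hiK : iK ≫ φ' = 0 := by
    have h1 : iK = iK ≫ (𝟙 Az - φ' ≫ ψ') := by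
      rw [← hK', ← Category.assoc, hK, Category.id_comp]
    rw [h1, Category.assoc, Preadditive.sub_comp, Category.assoc, hψ', Category.id_comp,
      sub_self, comp_zero]
  have hrL : φ ≫ rL = 0 := by
    have h1 : φ ≫ rL = (φ ≫ rL ≫ iL) ≫ rL := by
      rw [Category.assoc, Category.assoc, hL, Category.comp_id]
    rw [h1, hL', Preadditive.comp_sub, hψ, Category.comp_id, sub_self, zero_comp]
  have hLP : P i L := hP.retract i _ _ iL rL hL hAx
  have hKP : P i K := hP.retract i _ _ iK rK hK hAz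
  obtain ⟨k, hk⟩ := eZ K (iK ≫ z) (by
    rw [Category.assoc, hφ', ← Category.assoc, hiK, zero_comp])
  refine ⟨L ⊞ K, biprod.desc (iL ≫ x ≫ f) k, hP.sum i _ _ hLP hKP, fun B t hB ht => ?_,
    fun B t hB => ?_⟩
  · have ht' : t = biprod.lift (t ≫ biprod.fst) (t ≫ biprod.snd) := by
      ext <;> simp
    set a := t ≫ biprod.fst with ha
    set b := t ≫ biprod.snd with hb
    rw [ht', biprod.lift_desc] at ht
    have h1 : b ≫ iK = 0 := by
      apply z1 B _ hB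
      have h2 : (a ≫ iL ≫ x ≫ f + b ≫ k) ≫ g = 0 := by rw [ht, zero_comp]
      clear_value a b
      simp only [Preadditive.add_comp, Category.assoc, hfg, comp_zero, zero_add, ← hk] at h2
      rw [Category.assoc, h2]
    have hb0 : b = 0 := by
      rw [← Category.comp_id b, ← hK, ← Category.assoc, h1, zero_comp]
    rw [hb0, zero_comp, add_zero] at ht
    obtain ⟨y, hy⟩ := eX B (a ≫ iL ≫ x) (by simpa only [Category.assoc] using ht)
    obtain ⟨y', rfl⟩ := w2 B y hB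
    have h3 : a ≫ iL = y' ≫ φ := by
      apply sub_eq_zero.1
      apply x1 B _ hB
      rw [Preadditive.sub_comp, Category.assoc, hy, Category.assoc, Category.assoc, hφ, sub_self]
    have ha0 : a = 0 := by
      rw [← Category.comp_id a, ← hL, ← Category.assoc, h3, Category.assoc, hrL, comp_zero]
    rw [ht', ha0, hb0]
    ext <;> simp
  · obtain ⟨y, hy⟩ := z2 B (t ≫ g) hB
    have h1 : y ≫ φ' = 0 := by
      apply v1 B _ hB
      rw [Category.assoc, ← hφ', ← Category.assoc, ← hy, Category.assoc, hgh, comp_zero]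
    have h2 : y = (y ≫ rK) ≫ iK := by
      rw [Category.assoc, hK', Preadditive.comp_sub, ← Category.assoc, h1, zero_comp, sub_zero,
        Category.comp_id]
    obtain ⟨s, hs⟩ := eY B (t - (y ≫ rK) ≫ k) (by
      rw [Preadditive.sub_comp, hy, Category.assoc _ k g, ← hk, ← Category.assoc _ iK z, ← h2,
        sub_self])
    obtain ⟨s', rfl⟩ := x2 B s hB
    refine ⟨biprod.lift (s' ≫ rL) (y ≫ rK), ?_⟩
    rw [biprod.lift_desc]
    have h3 : (s' ≫ x) ≫ f = (s' ≫ rL) ≫ iL ≫ x ≫ f := by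
      have h4 : s' = s' ≫ ψ ≫ φ + s' ≫ rL ≫ iL := by
        rw [hL', Preadditive.comp_sub, Category.comp_id]
        abel
      have h5 : (s' ≫ ψ ≫ φ) ≫ x ≫ f = 0 := by
        have h6 : φ ≫ x ≫ f = 0 := by
          rw [← Category.assoc, ← hφ, Category.assoc, hdf, comp_zero]
        rw [Category.assoc, Category.assoc, h6, comp_zero, comp_zero]
      calc (s' ≫ x) ≫ f = s' ≫ x ≫ f := Category.assoc _ _ _
        _ = (s' ≫ ψ ≫ φ + s' ≫ rL ≫ iL) ≫ x ≫ f := by rw [← h4]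
        _ = _ := by
          rw [Preadditive.add_comp, h5, zero_add]
          simp only [Category.assoc]
    rw [← h3, ← hs]
    abel

lemma gd_ext [IsIdempotentComplete C] {X Y Z : C} {f : X ⟶ Y} {g : Y ⟶ Z}
    {h : Z ⟶ X⟦(1 : ℤ)⟧} (hT : Triangle.mk f g h ∈ distTriang C) (hX : Gd P X) (hZ : Gd P Z) :
    Gd P Y := by
  constructor
  · intro i
    have hT' := inv_rot_of_distTriang _ hT
    refine rep_five hP (Triangle.mk f g h).invRotate.mor₁ f g h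
      (comp_distTriang_mor_zero₁₂ _ hT') (comp12 hT) (comp23 hT) ?_ (fun B x hx => ce2 hT x hx)
      (fun B x hx => ce3 hT x hx) ((gd_shift hP (-1) hZ).1 i) (hX.1 i) (hZ.1 i)
      ((gd_shift hP 1 hX).1 i)
    intro B x hx
    exact Triangle.coyoneda_exact₂ _ hT' x hx
  · refine (hX.2.union hZ.2).subset ?_
    rintro i ⟨B, t, hB, ht⟩
    by_cases h0 : t ≫ g = 0
    · obtain ⟨y, rfl⟩ := ce2 hT t h0
      refine Or.inl ⟨B, y, hB, ?_⟩
      rintro rfl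
      exact ht zero_comp
    · exact Or.inr ⟨B, t ≫ g, hB, h0⟩

end

end Pool.Agent.Q227.FM
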