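import Pool.Agent.Q227.FM.Tw
import Pool.Agent.Q57.MT.TS

/-!
# The hard Lefschetz theorem splits the truncation triangles
-/

set_option autoImplicit false
set_option linter.unusedSectionVars false
set_option linter.unusedSimpArgs false
set_option backward.isDefEq.respectTransparency false
set_option backward.defeqAttrib.useBackward true

open CategoryTheory Limits MonoidalCategory Pretriangulated Triangulated
open Pool.Agent.Y116.MT
open Pool.Agent.Q57.MT (Conservative isIso_of_H isIso_H_trunc)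

namespace Pool.Agent.Q227.FM

universe v u w

open Functor.LaxMonoidal

section

variable {C : Type u} [Category.{v} C] [Preadditive C] [HasZeroObject C] [HasShift C ℤ]
  [∀ n : ℤ, (shiftFunctor C n).Additive] [Pretriangulated C] [IsTriangulated C]
  [MonoidalCategory C] [SymmetricCategory C] [TensorTriangulated C] [MonoidalPreadditive C]
  [RightRigidCategory C]
  {E : Type w} [Field E] {R : Realisation C E} {t : TStructure C}
  (ht : TensorCompat t) (he : TExact t R) (hc : Conservative R)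

include he in
lemma isIso_ι {X : C} {n j : ℤ} (hj : j < n) :
    IsIso (R.H.map (((t.truncLTι n).app X)⟦j⟧')) := by
  have hT := t.triangleLTGE_distinguished n X
  have h1 : Mono (R.H.map (((t.truncLTι n).app X)⟦j⟧')) :=
    hmono1 R.H hT j (he.isGE (t.isGE_truncGE_obj X n n) _ (by omega))
  have h2 : Epi (R.H.map (((t.truncLTι n).app X)⟦j⟧')) :=
    hepi1 R.H hT j (he.isGE (t.isGE_truncGE_obj X n n) _ (by omega))
  exact isIso_of_mono_of_epi _

include he in
lemma isIso_π {X : C} {n j : ℤ} (hj : n ≤ j) :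
    IsIso (R.H.map (((t.truncGEπ n).app X)⟦j⟧')) := by
  have hT := t.triangleLTGE_distinguished n X
  have h1 : Mono (R.H.map (((t.truncGEπ n).app X)⟦j⟧')) :=
    hmono2 R.H hT j (he.isLE (t.isLE_truncLT_obj X n (n - 1)) _ (by omega))
  have h2 : Epi (R.H.map (((t.truncGEπ n).app X)⟦j⟧')) :=
    hepi2 R.H hT j (he.isLE (t.isLE_truncLT_obj X n (n - 1)) _ (by omega))
  exact isIso_of_mono_of_epi _

include he in
lemma H_zero_of_deg {X : C} {n j : ℤ} (h1 : t.IsGE X n) (h2 : t.IsLE X n) (hj : j ≠ n) :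
    IsZero (R.H.obj (X⟦j⟧)) := by
  rcases lt_or_gt_of_ne hj with h | h
  · exact he.isGE h1 j h
  · exact he.isLE h2 j h

include hc he in
/-- A morphism between objects in degree `n` is an isomorphism if its realisation is. -/
lemma isIso_of_deg {X Y : C} {n : ℤ} (h1 : t.IsGE X n) (h2 : t.IsLE X n) (h3 : t.IsGE Y n)
    (h4 : t.IsLE Y n) (f : X ⟶ Y) (hf : IsIso (R.H.map (f⟦n⟧'))) : IsIso f := by
  apply isIso_of_H hc
  intro i
  by_cases hi : i = n
  · rw [hi]
    exact hf
  · exact isIso_of_isZero (H_zero_of_deg he h1 h2 hi) (H_zero_of_deg he h3 h4 hi) _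
where
  isIso_of_isZero {A B : ModuleCat.{w} E} (hA : IsZero A) (hB : IsZero B) (f : A ⟶ B) :
    IsIso f := ⟨0, hA.eq_of_src _ _, hB.eq_of_src _ _⟩

variable {T T' : C} (eT : T ⊗ T' ≅ 𝟙_ C) (hT : R.Deg T (-2)) (hT1 : t.IsLE T (-2))
  (hT2 : t.IsGE T (-2))

include ht he hc eT hT hT1 hT2 in
/-- The first step: the lowest and the highest cohomology objects split off. -/
lemma split_ends {X : C} (e : ℤ) (N : ℕ) (hX1 : t.IsGE X (e - (N + 1 : ℕ)))
    (hX2 : t.IsLE X (e + (N + 1 : ℕ))) (L : X ⟶ twist T X (N + 1))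
    (hL : IsIso (R.H.map (L⟦e - (N + 1 : ℕ)⟧'))) :
    ∃ (B D : C) (v : B ⟶ X) (r : X ⟶ B) (w : D ⟶ X) (p : X ⟶ D),
      t.IsGE B (e - (N + 1 : ℕ)) ∧ t.IsLE B (e - (N + 1 : ℕ)) ∧
      t.IsGE D (e + (N + 1 : ℕ)) ∧ t.IsLE D (e + (N + 1 : ℕ)) ∧
      v ≫ r = 𝟙 B ∧ w ≫ p = 𝟙 D ∧ v ≫ p = 0 ∧ w ≫ r = 0 ∧
      (∀ (W : C) (f : W ⟶ X), t.IsLE W (e - (N + 1 : ℕ)) → ∃ g : W ⟶ B, f = g ≫ v) ∧
      (∀ (W : C) (f : X ⟶ W), t.IsGE W (e + (N + 1 : ℕ)) → ∃ g : D ⟶ W, f = p ≫ g) := by
  set a : ℤ := e - (N + 1 : ℕ) with ha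
  set b : ℤ := e + (N + 1 : ℕ) with hb
  have TB := t.triangleLTGE_distinguished (a + 1) X
  have TD := t.triangleLTGE_distinguished b X
  set B : C := (t.truncLT (a + 1)).obj X with hB
  set D : C := (t.truncGE b).obj X with hD
  let v : B ⟶ X := (t.truncLTι (a + 1)).app X
  let p : X ⟶ D := (t.truncGEπ b).app X
  have hB1 : t.IsLE B a := t.isLE_truncLT_obj X (a + 1) a
  have hB2 : t.IsGE B a :=
    isGE1 TB hX1 (t.isGE_of_ge ((t.truncGE (a + 1)).obj X) (a - 1) (a + 1))
  have hD1 : t.IsGE D b := t.isGE_truncGE_obj X b b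
  have hD2 : t.IsLE D b := isLE3 TD (t.isLE_of_le ((t.truncLT b).obj X) (b - 1) (b + 1)) hX2
  have hab : b - 2 * ((N + 1 : ℕ) : ℤ) = a := by rw [ha, hb]; ring
  have hDT1 : t.IsGE (twist T D (N + 1)) a := by
    have h1 := isGE_twist ht hT2 hD1 (N + 1)
    rwa [hab] at h1
  have hDT2 : t.IsLE (twist T D (N + 1)) a := by
    have h1 := isLE_twist ht hT1 hD2 (N + 1)
    rwa [hab] at h1
  let φ : B ⟶ twist T D (N + 1) := v ≫ L ≫ twMap T p (N + 1)
  have h1 : IsIso (R.H.map (v⟦a⟧')) := isIso_ι he (by omega)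
  have h2 : IsIso (R.H.map (p⟦b⟧')) := isIso_π he le_rfl
  have h3 : IsIso (R.H.map ((twMap T p (N + 1))⟦a⟧')) := isIso_twMap p hT (N + 1) b a
    (by omega) h2
  have hφ : IsIso φ := by
    apply isIso_of_deg he hc hB2 hB1 hDT1 hDT2
    rw [Functor.map_comp, Functor.map_comp, Functor.map_comp, Functor.map_comp]
    infer_instance
  let r : X ⟶ B := L ≫ twMap T p (N + 1) ≫ inv φ
  have hvr : v ≫ r = 𝟙 B := by
    calc v ≫ r = φ ≫ inv φ := by simp only [r, φ, Category.assoc]
      _ = 𝟙 B := IsIso.hom_inv_id φ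
  obtain ⟨w', hw'⟩ := twMap_surjective eT (N + 1) (inv φ ≫ v ≫ L)
  have hw'p : w' ≫ p = 𝟙 D := by
    apply twMap_injective eT (N + 1)
    rw [twMap_comp, hw', twMap_id]
    calc (inv φ ≫ v ≫ L) ≫ twMap T p (N + 1) = inv φ ≫ φ := by
          simp only [φ, Category.assoc]
      _ = 𝟙 _ := IsIso.inv_hom_id φ
  have hvp : v ≫ p = 0 := t.zero_of_isLE_of_isGE _ a b (by rw [ha, hb]; push_cast; omega) hB1 hD1
  refine ⟨B, D, v, r, w' - w' ≫ r ≫ v, p, hB2, hB1, hD1, hD2, hvr, ?_, hvp, ?_, ?_, ?_⟩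
  · rw [Preadditive.sub_comp, Category.assoc, Category.assoc, hvp, comp_zero, comp_zero, sub_zero,
      hw'p]
  · rw [Preadditive.sub_comp, Category.assoc, Category.assoc, hvr, Category.comp_id, sub_self]
  · intro W f hW
    exact ce2 TB f (t.zero_of_isLE_of_isGE _ a (a + 1) (by omega) hW
      (t.isGE_truncGE_obj X (a + 1) (a + 1)))
  · intro W f hW
    exact ye2 TD f (t.zero_of_isLE_of_isGE _ (b - 1) b (by omega)
      (t.isLE_truncLT_obj X b (b - 1)) hW)

variable [IsIdempotentComplete C]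

include ht he hc eT hT hT1 hT2 in
/-- The hard Lefschetz theorem implies that the truncation triangles split (Deligne). -/
theorem spl_of_HL (e : ℤ) (N : ℕ) : ∀ X : C, t.IsGE X (e - N) → t.IsLE X (e + N) →
    (∀ k : ℕ, k ≤ N → ∃ L : X ⟶ twist T X k, IsIso (R.H.map (L⟦e - k⟧'))) →
    ∀ n : ℤ, Spl t n X := by
  induction N with
  | zero =>
    intro X hX1 hX2 _ n
    have h1 : e - ((0 : ℕ) : ℤ) = e + ((0 : ℕ) : ℤ) := by simp
    rw [h1] at hX1
    exact Spl.deg hX1 hX2
  | succ N ih =>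
    intro X hX1 hX2 hL n
    obtain ⟨L, hL'⟩ := hL (N + 1) le_rfl
    obtain ⟨B, D, v, r, w, p, hB1, hB2, hD1, hD2, hvr, hwp, hvp, hwr, hfB, hfD⟩ :=
      split_ends ht he hc eT hT hT1 hT2 e N hX1 hX2 L hL'
    set q : X ⟶ X := 𝟙 X - r ≫ v - p ≫ w with hq
    have hvq : v ≫ q = 0 := by
      rw [hq, Preadditive.comp_sub, Preadditive.comp_sub, Category.comp_id, ← Category.assoc, hvr,
        Category.id_comp, sub_self, ← Category.assoc, hvp, zero_comp, sub_zero]
    have hwq : w ≫ q = 0 := by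
      rw [hq, Preadditive.comp_sub, Preadditive.comp_sub, Category.comp_id, ← Category.assoc w r,
        hwr, zero_comp, sub_zero, ← Category.assoc, hwp, Category.id_comp, sub_self]
    have hqp : q ≫ p = 0 := by
      rw [hq, Preadditive.sub_comp, Preadditive.sub_comp, Category.id_comp, Category.assoc,
        Category.assoc, hvp, hwp, comp_zero, Category.comp_id, sub_zero, sub_self]
    have hqq : q ≫ q = q := by
      conv_lhs => rw [hq]
      rw [Preadditive.sub_comp, Preadditive.sub_comp, Category.id_comp, Category.assoc,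
        Category.assoc, hvq, hwq, comp_zero, comp_zero, sub_zero, sub_zero]
    obtain ⟨Y, i, s, his, hsi⟩ := IsIdempotentComplete.idempotents_split _ _ hqq
    have hvs : v ≫ s = 0 := by
      rw [← Category.comp_id s, ← his, ← Category.assoc s, hsi, ← Category.assoc, hvq, zero_comp]
    have hip : i ≫ p = 0 := by
      rw [← Category.id_comp i, ← his, Category.assoc i, hsi, Category.assoc, hqp, comp_zero]
    have hY1 : t.IsGE Y (e - N) := by
      rw [t.isGE_iff_orthogonal (e - (N + 1 : ℕ)) (e - N) (by push_cast; omega)]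
      intro W f hW
      obtain ⟨g, hg⟩ := hfB W (f ≫ i) hW
      calc f = (f ≫ i) ≫ s := by rw [Category.assoc, his, Category.comp_id]
        _ = 0 := by rw [hg, Category.assoc, hvs, comp_zero]
    have hY2 : t.IsLE Y (e + N) := by
      rw [t.isLE_iff_orthogonal (e + N) (e + (N + 1 : ℕ)) (by push_cast; omega)]
      intro W f hW
      obtain ⟨g, hg⟩ := hfD W (s ≫ f) hW
      calc f = i ≫ s ≫ f := by rw [← Category.assoc, his, Category.id_comp]
        _ = 0 := by rw [hg, ← Category.assoc, hip, zero_comp]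
    have hiso : ∀ j : ℤ, j ≠ e - (N + 1 : ℕ) → j ≠ e + (N + 1 : ℕ) →
        IsIso (R.H.map (i⟦j⟧')) ∧ IsIso (R.H.map (s⟦j⟧')) := by
      intro j h1 h2
      have e1 : R.H.map (i⟦j⟧') ≫ R.H.map (s⟦j⟧') = 𝟙 _ := by
        rw [← Functor.map_comp, ← Functor.map_comp, his, CategoryTheory.Functor.map_id,
          CategoryTheory.Functor.map_id]
      have e2 : R.H.map (s⟦j⟧') ≫ R.H.map (i⟦j⟧') = 𝟙 _ := by
        have z1 : R.H.map (r⟦j⟧') = 0 :=
          (H_zero_of_deg he hB1 hB2 h1).eq_of_tgt _ _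
        have z2 : R.H.map (p⟦j⟧') = 0 :=
          (H_zero_of_deg he hD1 hD2 h2).eq_of_tgt _ _
        rw [← Functor.map_comp, ← Functor.map_comp, hsi, hq, Functor.map_sub, Functor.map_sub,
          Functor.map_sub, Functor.map_sub, Functor.map_comp, Functor.map_comp, Functor.map_comp,
          Functor.map_comp, z1, z2, zero_comp, zero_comp, sub_zero, sub_zero,
          CategoryTheory.Functor.map_id, CategoryTheory.Functor.map_id]
      exact ⟨⟨_, e1, e2⟩, ⟨_, e2, e1⟩⟩
    have hY : Spl t n Y := by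
      apply ih Y hY1 hY2
      intro k hk
      obtain ⟨L, hL⟩ := hL k (by omega)
      refine ⟨i ≫ L ≫ twMap T s k, ?_⟩
      have h1 : IsIso (R.H.map (i⟦e - k⟧')) :=
        (hiso (e - k) (by push_cast; omega) (by push_cast; omega)).1
      have h2 : IsIso (R.H.map (s⟦e + k⟧')) :=
        (hiso (e + k) (by push_cast; omega) (by push_cast; omega)).2
      have h3 : IsIso (R.H.map ((twMap T s k)⟦e - k⟧')) :=
        isIso_twMap s hT k (e + k) (e - k) (by ring) h2
      rw [Functor.map_comp, Functor.map_comp, Functor.map_comp, Functor.map_comp]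
      infer_instance
    refine Spl.sum (Spl.deg hB1 hB2) (Spl.deg hD1 hD2) hY v r w p i s ?_
    rw [hsi, hq]
    abel

end

end Pool.Agent.Q227.FM
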