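import Pool.Agent.Q227.FM.Fwd

/-!
# Rational = numerical equivalence: homologically trivial morphisms vanish, Künneth decomposition
-/

set_option autoImplicit false
set_option linter.unusedSectionVars false
set_option linter.unusedSimpArgs false
set_option backward.isDefEq.respectTransparency false
set_option backward.defeqAttrib.useBackward true

open CategoryTheory Limits MonoidalCategory Pretriangulated Triangulated
open Pool.Agent.Y116.MT

namespace Pool.Agent.Q227.FM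

universe v u w

open Functor.LaxMonoidal

section

variable {C : Type u} [Category.{v} C] [Preadditive C] [HasZeroObject C] [HasShift C ℤ]
  [∀ n : ℤ, (shiftFunctor C n).Additive] [Pretriangulated C] [MonoidalCategory C]
  [SymmetricCategory C] [TensorTriangulated C]

lemma lShift_natural_left {X X' : C} (f : X ⟶ X') (Y : C) (n : ℤ) :
    (f⟦n⟧') ▷ Y ≫ (lShift X' Y n).hom = (lShift X Y n).hom ≫ (f ▷ Y)⟦n⟧' := by
  simp only [lShift, Iso.trans_hom, Functor.mapIso_hom, Category.assoc]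
  rw [BraidedCategory.braiding_naturality_left_assoc, reassoc_of% (rShift_natural_right Y f n),
    ← Functor.map_comp, ← Functor.map_comp, BraidedCategory.braiding_naturality_right]

lemma shiftTensorIso_natural {X X' : C} (f : X ⟶ X') (Y : C) (i : ℤ) :
    (f⟦i⟧') ▷ (Y⟦-i⟧) ≫ (shiftTensorIso X' Y i).hom = (shiftTensorIso X Y i).hom ≫ f ▷ Y := by
  simp only [shiftTensorIso, Iso.trans_hom, Functor.mapIso_hom, Category.assoc]
  rw [reassoc_of% (rShift_natural_left (f⟦i⟧') Y (-i))]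
  have h1 : ((f⟦i⟧') ▷ Y)⟦-i⟧' ≫ ((lShift X' Y i).hom)⟦-i⟧' =
      ((lShift X Y i).hom)⟦-i⟧' ≫ (((f ▷ Y)⟦i⟧')⟦-i⟧') := by
    rw [← Functor.map_comp, lShift_natural_left, Functor.map_comp]
  rw [reassoc_of% h1]
  have h2 : (((f ▷ Y)⟦i⟧')⟦-i⟧') ≫ (shiftShiftNeg (X' ⊗ Y) i).hom =
      (shiftShiftNeg (X ⊗ Y) i).hom ≫ f ▷ Y := (shiftEquiv C i).unitIso.inv.naturality (f ▷ Y)
  rw [h2]

variable {E : Type w} [Field E] {R : Realisation C E}

/-- A morphism with vanishing realisation, tensored with an object. -/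
lemma map_whisker_zero_all {X X' : C} (f : X ⟶ X') (hf : ∀ i : ℤ, R.H.map (f⟦i⟧') = 0) (Y : C) :
    R.H.map (f ▷ Y) = 0 := by
  apply ModuleCat.hom_ext
  apply LinearMap.ext
  intro z
  obtain ⟨w, rfl⟩ := (R.kunneth X Y).2 z
  induction w using DirectSum.induction_on with
  | zero => simp
  | add a b ha hb =>
    rw [map_add, map_add, ha, hb]
    simp
  | of i x =>
    have h1 : (μ R.H (X⟦i⟧) (Y⟦-i⟧) ≫ R.H.map (shiftTensorIso X Y i).hom) ≫
        R.H.map (f ▷ Y) = 0 := by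
      have h3 : (0 : R.H.obj (X⟦i⟧) ⟶ R.H.obj (X'⟦i⟧)) ▷ R.H.obj (Y⟦-i⟧) = 0 :=
        (tensorRight _).map_zero _ _
      rw [Category.assoc, ← Functor.map_comp, ← shiftTensorIso_natural, Functor.map_comp,
        ← μ_natural_left_assoc, hf i, h3, zero_comp]
    have h2 : kunnethMap R.H X Y (DirectSum.of (fun i : ℤ =>
        (R.H.obj (X⟦i⟧) ⊗ R.H.obj (Y⟦-i⟧) : ModuleCat.{w} E)) i x) =
        (μ R.H (X⟦i⟧) (Y⟦-i⟧) ≫ R.H.map (shiftTensorIso X Y i).hom).hom x := by
      rw [← DirectSum.lof_eq_of E]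
      simp [kunnethMap]
    rw [h2]
    exact LinearMap.congr_fun (congrArg ModuleCat.Hom.hom h1) x

end

section

variable {C : Type u} [Category.{v} C] [Preadditive C] [HasZeroObject C] [HasShift C ℤ]
  [∀ n : ℤ, (shiftFunctor C n).Additive] [Pretriangulated C]
  [MonoidalCategory C] [SymmetricCategory C] [TensorTriangulated C] [MonoidalPreadditive C]
  [RightRigidCategory C] [Linear ℚ C]
  {E : Type w} [Field E] [CharZero E] {R : Realisation C E}
  (hun : ∀ e : 𝟙_ C ⟶ 𝟙_ C, ∃ c : ℚ, e = c • 𝟙 (𝟙_ C))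

lemma id_ne_zero (R : Realisation C E) : 𝟙 (𝟙_ C) ≠ 0 := fun h =>
  not_isZero_unit R ((IsZero.iff_id_eq_zero _).2 h)

include hun in
lemma end_unit_zero (R : Realisation C E) (e : 𝟙_ C ⟶ 𝟙_ C) (h : R.H.map e = 0) : e = 0 := by
  obtain ⟨c, rfl⟩ := hun e
  by_cases hc : c = 0
  · rw [hc, zero_smul]
  · exfalso
    rw [functor_rat_smul, CategoryTheory.Functor.map_id] at h
    have h1 : 𝟙 (R.H.obj (𝟙_ C)) = 0 := by
      have h2 : c⁻¹ • (c • 𝟙 (R.H.obj (𝟙_ C))) = 0 := by rw [h, smul_zero]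
      rwa [smul_smul, inv_mul_cancel₀ hc, one_smul] at h2
    exact not_isZero_H_unit R ((IsZero.iff_id_eq_zero _).2 h1)

include hun in
lemma idem_of_end_unit (R : Realisation C E) (e : 𝟙_ C ⟶ 𝟙_ C) (h : e ≫ e = e) :
    e = 0 ∨ e = 𝟙 _ := by
  obtain ⟨c, rfl⟩ := hun e
  have h1 : (c * c - c) • 𝟙 (𝟙_ C) = 0 := by
    rw [sub_smul, sub_eq_zero, ← smul_smul]
    rw [Linear.smul_comp, Linear.comp_smul, Category.id_comp] at h
    exact h
  have h2 : c * c - c = 0 := by
    by_contra h3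
    apply id_ne_zero R
    have h4 : (c * c - c)⁻¹ • ((c * c - c) • 𝟙 (𝟙_ C)) = 0 := by rw [h1, smul_zero]
    rwa [smul_smul, inv_mul_cancel₀ h3, one_smul] at h4
  have h3 : c * (c - 1) = 0 := by linarith
  rcases mul_eq_zero.1 h3 with h4 | h4
  · left
    rw [h4, zero_smul]
  · right
    rw [sub_eq_zero.1 h4, one_smul]

include hun in
/-- Homologically trivial morphisms of Chow motives vanish. -/
theorem zero_of_hom {Chow : ObjectProperty C} (hC : IsChow Chow)
    (hRN : RationalIsNumerical Chow) {A B : C} (hA : Chow A) (hB : Chow B) (f : A ⟶ B)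
    (hf : ∀ i : ℤ, R.H.map (f⟦i⟧') = 0) : f = 0 := by
  apply eq_zero_of_nm
  apply hRN _ _ (hC.tensor _ _ hB (hC.dual _ hA))
  intro r
  apply end_unit_zero hun R
  rw [nm, Functor.map_comp, Functor.map_comp, map_whisker_zero_all f hf, comp_zero, zero_comp]

variable {q : ℕ} {F : 𝟭 C ⟶ 𝟭 C}

include hun in
/-- The Künneth decomposition of a Chow motive. -/
theorem kunneth_dec [IsIdempotentComplete C] (hq : 1 < q) {Chow : ObjectProperty C}
    (hC : IsChow Chow) (hRN : RationalIsNumerical Chow) {P : C} (hP : Chow P)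
    (hw : CohWt R q F P) :
    ∃ (J : Finset ℤ) (A : ℤ → C) (v : ∀ i, A i ⟶ P) (r : ∀ i, P ⟶ A i),
      (∀ i ∈ J, v i ≫ r i = 𝟙 (A i) ∧ Chow (A i) ∧ HasWt q F {i} (A i)) ∧
        ∑ i ∈ J, r i ≫ v i = 𝟙 P := by
  classical
  obtain ⟨N, hN⟩ := R.bounded P
  choose p hp hp' using hw
  set J : Finset ℤ := Finset.Icc (-(N : ℤ)) N with hJ
  have hJne : J.Nonempty := ⟨0, by rw [hJ, Finset.mem_Icc]; omega⟩
  set M : Polynomial ℚ := ∏ j ∈ J, p j with hM
  have hM0 : ev F P M = 0 := by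
    apply zero_of_hom (R := R) hun hC hRN hP hP
    intro i
    by_cases hi : i ∈ J
    · have h1 : M = p i * ∏ j ∈ J.erase i, p j := by
        rw [hM, Finset.mul_prod_erase J p hi]
      rw [h1, ev_mul, Functor.map_comp, Functor.map_comp, hp' i, zero_comp]
    · have h2 : IsZero (R.H.obj (P⟦i⟧)) := hN i (by
        rw [hJ, Finset.mem_Icc] at hi
        omega)
      exact h2.eq_of_src _ _
  obtain ⟨μ, hμ⟩ := (exists_sum_eq_one_iff_pairwise_coprime (t := J) (s := p) hJne).2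
    (fun i j hij => (hp i).coprime hq (by
      rw [Set.disjoint_singleton]
      exact fun h => hij (Subtype.ext h)) (hp j))
  set e : ℤ → Polynomial ℚ := fun i => μ i * ∏ j ∈ J \ {i}, p j with he
  have hdvd : ∀ i ∈ J, e i * p i = M * μ i := by
    intro i hi
    have h1 := Finset.prod_sdiff (f := p) (Finset.singleton_subset_iff.2 hi)
    rw [Finset.prod_singleton] at h1
    rw [he]
    simp only
    rw [mul_assoc, h1, mul_comm]
  have hcross : ∀ i ∈ J, ∀ j ∈ J, i ≠ j → ev F P (e i * e j) = 0 := by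
    intro i hi j hj hij
    have h1 : M ∣ e i * e j := by
      have h2 : p i ∣ e j := by
        rw [he]
        apply Dvd.dvd.mul_left
        apply Finset.dvd_prod_of_mem
        simp [hi, hij]
      obtain ⟨c, hc⟩ := h2
      refine ⟨μ i * c, ?_⟩
      rw [hc, ← mul_assoc, hdvd i hi, mul_assoc]
    obtain ⟨c, hc⟩ := h1
    rw [hc, ev_mul, hM0, zero_comp]
  have hsum : ∑ i ∈ J, ev F P (e i) = 𝟙 P := by
    rw [← ev_sum, ← ev_one F, ← hμ]
  have hidem : ∀ i ∈ J, ev F P (e i) ≫ ev F P (e i) = ev F P (e i) := by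
    intro i hi
    conv_rhs => rw [← Category.comp_id (ev F P (e i)), ← hsum, Preadditive.comp_sum]
    rw [Finset.sum_eq_single_of_mem i hi]
    intro j hj hij
    rw [← ev_mul]
    exact hcross i hi j hj hij.symm
  have hsp : ∀ i : ℤ, ∃ (A : C) (v : A ⟶ P) (r : P ⟶ A), i ∈ J →
      v ≫ r = 𝟙 A ∧ r ≫ v = ev F P (e i) := by
    intro i
    by_cases hi : i ∈ J
    · obtain ⟨A, v, r, h1, h2⟩ := IsIdempotentComplete.idempotents_split _ _ (hidem i hi)
      exact ⟨A, v, r, fun _ => ⟨h1, h2⟩⟩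
    · exact ⟨P, 0, 0, fun h => absurd h hi⟩
  choose A v r hvr using hsp
  refine ⟨J, A, v, r, fun i hi => ⟨(hvr i hi).1, hC.retract _ _ _ _ (hvr i hi).1 hP, ?_⟩, ?_⟩
  · refine ⟨p i, hp i, ?_⟩
    have h1 : v i ≫ ev F P (e i) = v i := by
      rw [← (hvr i hi).2, ← Category.assoc, (hvr i hi).1, Category.id_comp]
    have h2 : ev F (A i) (p i) ≫ v i = 0 := by
      rw [← ev_naturality, ← h1, Category.assoc, ← ev_mul, hdvd i hi, ev_mul, hM0, zero_comp,
        comp_zero]
    rw [← Category.comp_id (ev F (A i) (p i)), ← (hvr i hi).1, ← Category.assoc, h2, zero_comp]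
  · rw [← hsum]
    exact Finset.sum_congr rfl fun i hi => (hvr i hi).2

end

end Pool.Agent.Q227.FM
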