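import Pool.Agent.Q227.FM.Hn
import Pool.Agent.Y116.MT.Trace

/-!
# Regularity of the morphisms between pure Chow motives
-/

set_option autoImplicit false
set_option linter.unusedSectionVars false
set_option linter.unusedSimpArgs false
set_option backward.isDefEq.respectTransparency false
set_option backward.defeqAttrib.useBackward true

open CategoryTheory Limits MonoidalCategory Pretriangulated Triangulated
open Pool.Agent.Y116.MT

namespace Pool.Agent.Q227.FM

universe v u w

open Functor.LaxMonoidal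

section

variable {C : Type u} [Category.{v} C] [Preadditive C] [HasZeroObject C] [HasShift C ℤ]
  [∀ n : ℤ, (shiftFunctor C n).Additive] [Pretriangulated C] [MonoidalCategory C]
  [SymmetricCategory C] [TensorTriangulated C]

lemma lShift_natural_right {X X' : C} (f : X ⟶ X') (Y : C) (n : ℤ) :
    Y⟦n⟧ ◁ f ≫ (lShift Y X' n).hom = (lShift Y X n).hom ≫ (Y ◁ f)⟦n⟧' := by
  simp only [lShift, Iso.trans_hom, Functor.mapIso_hom, Category.assoc]
  rw [BraidedCategory.braiding_naturality_right_assoc, reassoc_of% (rShift_natural_left f Y n),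
    ← Functor.map_comp, ← Functor.map_comp, BraidedCategory.braiding_naturality_left]

/-- Tensoring with a shifted object. -/
noncomputable def tensorRightShift (X : C) (n : ℤ) :
    tensorRight (X⟦n⟧) ≅ shiftFunctor C n ⋙ tensorRight X :=
  NatIso.ofComponents (fun Y => rShift Y X n ≪≫ (lShift Y X n).symm) (by
    intro Y Z f
    change f ▷ X⟦n⟧ ≫ (rShift Z X n).hom ≫ (lShift Z X n).inv =
      ((rShift Y X n).hom ≫ (lShift Y X n).inv) ≫ (f⟦n⟧') ▷ X
    rw [reassoc_of% (rShift_natural_left f X n), Category.assoc]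
    congr 1
    rw [Iso.comp_inv_eq, Category.assoc, lShift_natural_left, Iso.inv_hom_id_assoc])

variable [RightRigidCategory C]

/-- The dual of a shifted object. -/
noncomputable def dualShift (X : C) (n : ℤ) : ((X⟦n⟧)ᘁ : C) ≅ (Xᘁ : C)⟦-n⟧ :=
  (λ_ _).symm ≪≫ (Adjunction.rightAdjointUniq
    (tensorRightAdjunction (X⟦n⟧) ((X⟦n⟧)ᘁ : C))
    ((((shiftEquiv C n).toAdjunction).comp (tensorRightAdjunction X (Xᘁ : C))).ofNatIsoLeft
      (tensorRightShift X n).symm)).app (𝟙_ C) ≪≫ (shiftFunctor C (-n)).mapIso (λ_ _)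

/-- The internal endomorphisms of a shifted object. -/
noncomputable def endShift (X : C) (n : ℤ) : X⟦n⟧ ⊗ ((X⟦n⟧)ᘁ : C) ≅ X ⊗ (Xᘁ : C) :=
  whiskerLeftIso _ (dualShift X n) ≪≫ shiftTensorIso X (Xᘁ : C) n

end

section

variable {C : Type u} [Category.{v} C] [Preadditive C] [HasZeroObject C] [HasShift C ℤ]
  [∀ n : ℤ, (shiftFunctor C n).Additive] [Pretriangulated C]
  [MonoidalCategory C] [SymmetricCategory C] [TensorTriangulated C] [MonoidalPreadditive C]
  [RightRigidCategory C] [Linear ℚ C] [MonoidalLinear ℚ C]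
  {E : Type w} [Field E] [CharZero E] (R : Realisation C E)
  (hun : ∀ e : 𝟙_ C ⟶ 𝟙_ C, ∃ c : ℚ, e = c • 𝟙 (𝟙_ C))

include R hun in
/-- The coefficient of an endomorphism of the unit. -/
lemma exists_coeff : ∃ κ : (𝟙_ C ⟶ 𝟙_ C) →ₗ[ℚ] ℚ, ∀ e, e = κ e • 𝟙 (𝟙_ C) := by
  let L : ℚ →ₗ[ℚ] (𝟙_ C ⟶ 𝟙_ C) := LinearMap.toSpanSingleton ℚ _ (𝟙 (𝟙_ C))
  have hL : Function.Bijective L := by
    constructor
    · rw [injective_iff_map_eq_zero]
      intro c hc
      by_contra h3
      apply id_ne_zero R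
      have h4 : c⁻¹ • (c • 𝟙 (𝟙_ C)) = 0 := by
        have : c • 𝟙 (𝟙_ C) = 0 := hc
        rw [this, smul_zero]
      rwa [smul_smul, inv_mul_cancel₀ h3, one_smul] at h4
    · intro e
      obtain ⟨c, hc⟩ := hun e
      exact ⟨c, hc.symm⟩
  refine ⟨(LinearEquiv.ofBijective L hL).symm.toLinearMap, fun e => ?_⟩
  exact ((LinearEquiv.ofBijective L hL).apply_symm_apply e).symm

/-- The trace is linear. -/
noncomputable def trL (X : C) : End X →ₗ[ℚ] (𝟙_ C ⟶ 𝟙_ C) where
  toFun a := tr (C := C) (X := X) a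
  map_add' a b := by
    change tr (C := C) (X := X) (a + b) = tr (C := C) (X := X) a + tr (C := C) (X := X) b
    simp only [tr]
    rw [MonoidalPreadditive.add_whiskerRight]
    simp only [Preadditive.add_comp, Preadditive.comp_add]
  map_smul' c a := by
    change tr (C := C) (X := X) (c • a) = c • tr (C := C) (X := X) a
    simp only [tr]
    rw [MonoidalLinear.smul_whiskerRight]
    simp only [Linear.smul_comp, Linear.comp_smul]

/-- The representation of the endomorphism ring on the cohomology. -/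
noncomputable def rhoE (X : C) : End X →+* Module.End E (R.H.obj X) where
  toFun a := (R.H.map (X := X) (Y := X) a).hom
  map_one' := by
    change (R.H.map (𝟙 X)).hom = _
    rw [CategoryTheory.Functor.map_id]
    rfl
  map_mul' a b := by
    change (R.H.map ((b : X ⟶ X) ≫ (a : X ⟶ X))).hom = _
    rw [Functor.map_comp]
    rfl
  map_zero' := by
    change (R.H.map (0 : X ⟶ X)).hom = _
    rw [Functor.map_zero]
    rfl
  map_add' a b := by
    change (R.H.map ((a : X ⟶ X) + (b : X ⟶ X))).hom = _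
    rw [Functor.map_add]
    rfl

lemma unit_scalar (c : ℚ) : (ε R.H ≫ R.H.map (c • 𝟙 (𝟙_ C)) ≫
    inv (ε R.H)).hom (1 : E) = algebraMap ℚ E c := by
  rw [functor_rat_smul, CategoryTheory.Functor.map_id, Linear.smul_comp, Linear.comp_smul,
    Category.id_comp, IsIso.hom_inv_id, Pool.Agent.Q57.MT.rat_smul_eq, ModuleCat.hom_smul]
  change (c : E) • (1 : E) = _
  simp

include hun in
/-- The endomorphisms of pure Chow motives are regular. -/
theorem regular_end {Chow : ObjectProperty C} (hC : IsChow Chow)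
    (hRN : RationalIsNumerical Chow) {A : C} (hA : Chow A) {n : ℤ} (hd : R.Deg A n)
    (a : A ⟶ A) : ∃ b : A ⟶ A, a ≫ b ≫ a = a := by
  obtain ⟨κ, hκ⟩ := exists_coeff R hun
  set X : C := A⟦n⟧ with hX
  have hXd : R.Deg X 0 := hd.shift n 0 (by omega)
  let τ : End X →ₗ[ℚ] ℚ := κ ∘ₗ trL X
  have hτ : ∀ x : End X, LinearMap.trace E (R.H.obj X) (rhoE R X x) = algebraMap ℚ E (τ x) := by
    intro x
    have h1 := H_trace hXd (x : X ⟶ X)
    rw [hκ (tr (C := C) (X := X) x), unit_scalar] at h1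
    exact h1.symm
  have hcyc : ∀ x y : End X, τ (x * y) = τ (y * x) := by
    intro x y
    apply (algebraMap ℚ E).injective
    rw [← hτ, ← hτ, (rhoE R X).map_mul, (rhoE R X).map_mul, LinearMap.trace_mul_comm]
  have hnd : ∀ x : End X, x ≠ 0 → ∃ y, τ (x * y) ≠ 0 := by
    intro x hx
    have h1 : nm (C := C) (M := X) (N := X) x ≠ 0 := fun h => hx (eq_zero_of_nm _ h)
    have h2 : Chow (X ⊗ (Xᘁ : C)) := hC.iso (hC.tensor _ _ hA (hC.dual _ hA)) (endShift A n).symm
    obtain ⟨r, hr⟩ : ∃ r : X ⊗ (Xᘁ : C) ⟶ 𝟙_ C, nm (C := C) (M := X) (N := X) x ≫ r ≠ 0 := by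
      by_contra hcon
      push Not at hcon
      exact h1 (hRN _ _ h2 hcon)
    obtain ⟨y, hy⟩ := exists_tr r
    refine ⟨y, ?_⟩
    rw [hcyc]
    intro h0
    apply hr
    rw [hy x, hκ (tr (x ≫ y))]
    have h3 : κ (tr ((x : X ⟶ X) ≫ y)) = 0 := h0
    rw [h3, zero_smul]
  obtain ⟨y, hy⟩ := regular_of_trace (rhoE R X) τ hτ hnd (a⟦n⟧' : X ⟶ X)
  obtain ⟨b, hb⟩ := (shiftFunctor C n).map_surjective (y : X ⟶ X)
  refine ⟨b, (shiftFunctor C n).map_injective ?_⟩
  rw [Functor.map_comp, Functor.map_comp, hb, ← Category.assoc]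
  exact (Category.assoc _ _ _).trans (hy : ((a⟦n⟧' : X ⟶ X) ≫ ((y : X ⟶ X) ≫ (a⟦n⟧' : X ⟶ X))) = _)

end

end Pool.Agent.Q227.FM
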