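import Pool.Agent.Q227.FM.HL

/-!
# A motivic t-structure implies the standard conjectures
-/

set_option autoImplicit false
set_option linter.unusedSectionVars false
set_option linter.unusedSimpArgs false
set_option backward.isDefEq.respectTransparency false
set_option backward.defeqAttrib.useBackward true

open CategoryTheory Limits MonoidalCategory Pretriangulated Triangulated ZeroObject
open Pool.Agent.Y116.MT
open Pool.Agent.Q57.MT (Conservative isIso_of_H isIso_H_trunc)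

namespace Pool.Agent.Q227.FM

universe v u w

open Functor.LaxMonoidal

section

variable {C : Type u} [Category.{v} C] [Preadditive C] [HasZeroObject C] [HasShift C ℤ]
  [∀ n : ℤ, (shiftFunctor C n).Additive] [Pretriangulated C] [MonoidalCategory C]
  [SymmetricCategory C] [TensorTriangulated C]
  {Λ : Type*} {E : Λ → Type w} [∀ l, Field (E l)]

/-- Chow-Künneth decompositions (Murre): every Chow motive `P` is a finite direct sum of Chow
motives `A i`, `i < m`, such that all realisations of `A i` are concentrated in degree `a + i`. -/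
def ChowKuenneth (Chow : ObjectProperty C) (R : ∀ l, Realisation C (E l)) : Prop :=
  ∀ P : C, Chow P → ∃ (a : ℤ) (m : ℕ) (A : Fin m → C) (v : ∀ i, A i ⟶ P) (r : ∀ i, P ⟶ A i),
    (∀ i, v i ≫ r i = 𝟙 (A i) ∧ Chow (A i) ∧ ∀ l, (R l).Deg (A i) (a + (i : ℕ))) ∧
      ∑ i, r i ≫ v i = 𝟙 P

/-- The morphisms `f : A ⟶ B` between Chow motives with realisations concentrated in degrees `i`,
`j`: `f = 0` if `i < j`; if `i = j`, then `f = 0` if its realisation vanishes, and `f` is of the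
form `f ≫ g ≫ f`. -/
def PureMorphisms (Chow : ObjectProperty C) (R : ∀ l, Realisation C (E l)) : Prop :=
  ∀ (l : Λ) (A B : C) (i j : ℤ) (f : A ⟶ B), Chow A → Chow B → (R l).Deg A i → (R l).Deg B j →
    (i < j → f = 0) ∧ (i = j → (R l).H.map (f⟦i⟧') = 0 → f = 0) ∧
      (i = j → ∃ g : B ⟶ A, f ≫ g ≫ f = f)

/-- The conjecture of Lefschetz type, in a general form: if the morphism `f : P ⟶ Q` of Chow
motives induces an isomorphism `H^n(P) ≅ H^n(Q)` for one realisation, then there is a morphism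
`g : Q ⟶ P` which induces the inverse isomorphism for all realisations. -/
def LefschetzType (Chow : ObjectProperty C) (R : ∀ l, Realisation C (E l)) : Prop :=
  ∀ (P Q : C) (f : P ⟶ Q) (n : ℤ) (l₀ : Λ), Chow P → Chow Q →
    IsIso ((R l₀).H.map (f⟦n⟧')) → ∃ g : Q ⟶ P, ∀ l,
      (R l).H.map ((f ≫ g)⟦n⟧') = 𝟙 _ ∧ (R l).H.map ((g ≫ f)⟦n⟧') = 𝟙 _

/-- Homological and numerical equivalence agree, for all realisations: for a morphism `s : 𝟙 ⟶ Q`
to a Chow motive `Q` (for `Q = M(X)(m)[2m]`: a cycle class on `X` with rational coefficients) the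
realisation (the cohomology class) vanishes if and only if `s ≫ r = 0` for all `r : Q ⟶ 𝟙` (the
intersection numbers with all cycle classes of complementary dimension vanish). -/
def HomologicalIsNumerical (Chow : ObjectProperty C) (R : ∀ l, Realisation C (E l)) : Prop :=
  ∀ (l : Λ) (Q : C) (s : 𝟙_ C ⟶ Q), Chow Q →
    ((R l).H.map s = 0 ↔ ∀ r : Q ⟶ 𝟙_ C, s ≫ r = 0)

end

section

variable {C : Type u} [Category.{v} C] [Preadditive C] [HasZeroObject C] [HasShift C ℤ]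
  [∀ n : ℤ, (shiftFunctor C n).Additive] [Pretriangulated C] [IsTriangulated C]
  [MonoidalCategory C] [SymmetricCategory C] [TensorTriangulated C] [MonoidalPreadditive C]
  [RightRigidCategory C] {t : TStructure C} {Chow : ObjectProperty C} (hC : IsChow Chow)
  (hS : ∀ P : C, Chow P → ∀ n : ℤ, Spl t n P)

omit [IsTriangulated C] [MonoidalCategory C] [SymmetricCategory C] [TensorTriangulated C]
  [MonoidalPreadditive C] [RightRigidCategory C] in
lemma delta_zero {Y : C} {n : ℤ} (h : Spl t n Y) : (t.truncGEδLT n).app Y = 0 := by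
  obtain ⟨ρ', hρ'⟩ := h
  have TY := t.triangleLTGE_distinguished n Y
  have h1 : (t.truncGEδLT n).app Y ≫ ((t.truncLTι n).app Y)⟦(1 : ℤ)⟧' = 0 := comp31 TY
  have h2 : ((t.truncLTι n).app Y)⟦(1 : ℤ)⟧' ≫ ρ'⟦(1 : ℤ)⟧' = 𝟙 _ := by
    rw [← Functor.map_comp, hρ', CategoryTheory.Functor.map_id]
  have h3 : (t.truncGEδLT n).app Y = ((t.truncGEδLT n).app Y ≫
      ((t.truncLTι n).app Y)⟦(1 : ℤ)⟧') ≫ ρ'⟦(1 : ℤ)⟧' := by
    rw [Category.assoc, h2]
    exact (Category.comp_id _).symm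
  rw [h3, h1, zero_comp]

omit [IsTriangulated C] [MonoidalPreadditive C] [RightRigidCategory C] in
lemma other_side {E : Type w} [Field E] {R : Realisation C E} {n : ℤ} {A B : C} (i : A ⟶ B)
    (s : B ⟶ A) (h : i ≫ s = 𝟙 A)
    (h' : IsIso (R.H.map (s⟦n⟧')) ∨ IsIso (R.H.map (i⟦n⟧'))) :
    R.H.map (s⟦n⟧') ≫ R.H.map (i⟦n⟧') = 𝟙 _ := by
  have h1 : R.H.map (i⟦n⟧') ≫ R.H.map (s⟦n⟧') = 𝟙 _ := by
    rw [← Functor.map_comp, ← Functor.map_comp, h, CategoryTheory.Functor.map_id,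
      CategoryTheory.Functor.map_id]
  rcases h' with h' | h'
  · rw [← cancel_mono (R.H.map (s⟦n⟧')), Category.assoc, h1, Category.comp_id, Category.id_comp]
  · rw [← cancel_epi (R.H.map (i⟦n⟧')), ← Category.assoc, h1, Category.comp_id, Category.id_comp]

include hC hS in
/-- The decomposition of a Chow motive. -/
lemma ck_dec [IsIdempotentComplete C] (m : ℕ) : ∀ (a : ℤ) (P : C), Chow P → t.IsGE P a →
    t.IsLE P (a + m - 1) → ∃ (A : Fin m → C) (v : ∀ i, A i ⟶ P) (r : ∀ i, P ⟶ A i),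
    (∀ i, v i ≫ r i = 𝟙 (A i) ∧ Chow (A i) ∧ t.IsGE (A i) (a + (i : ℕ)) ∧
      t.IsLE (A i) (a + (i : ℕ))) ∧ ∑ i, r i ≫ v i = 𝟙 P := by
  induction m with
  | zero =>
    intro a P hP h1 h2
    have h3 : IsZero P := t.isZero P (a + ((0 : ℕ) : ℤ) - 1) a (by push_cast; omega)
    exact ⟨fun i => Fin.elim0 i, fun i => Fin.elim0 i, fun i => Fin.elim0 i,
      fun i => Fin.elim0 i, h3.eq_of_src _ _⟩
  | succ m ih =>
    intro a P hP h1 h2
    have TB := t.triangleLTGE_distinguished (a + 1) P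
    let B : C := (t.truncLT (a + 1)).obj P
    let v : B ⟶ P := (t.truncLTι (a + 1)).app P
    obtain ⟨r, hvr⟩ : ∃ r : P ⟶ B, v ≫ r = 𝟙 B := hS P hP (a + 1)
    have hB1 : t.IsLE B a := t.isLE_truncLT_obj P (a + 1) a
    have hB2 : t.IsGE B a :=
      isGE1 TB h1 (t.isGE_of_ge ((t.truncGE (a + 1)).obj P) (a - 1) (a + 1))
    set q : P ⟶ P := 𝟙 P - r ≫ v with hq
    have hvq : v ≫ q = 0 := by
      rw [hq, Preadditive.comp_sub, Category.comp_id, ← Category.assoc, hvr, Category.id_comp,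
        sub_self]
    have hqq : q ≫ q = q := by
      conv_lhs => rw [hq]
      rw [Preadditive.sub_comp, Category.id_comp, Category.assoc, hvq, comp_zero, sub_zero]
    obtain ⟨Y, i, s, his, hsi⟩ := IsIdempotentComplete.idempotents_split _ _ hqq
    have hvs : v ≫ s = 0 := by
      rw [← Category.comp_id s, ← his, ← Category.assoc s, hsi, ← Category.assoc, hvq, zero_comp]
    have hY1 : t.IsGE Y (a + 1) := by
      rw [t.isGE_iff_orthogonal a (a + 1) rfl]
      intro W f hW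
      obtain ⟨g, hg⟩ := ce2 TB (f ≫ i) (t.zero_of_isLE_of_isGE _ a (a + 1) (by omega) hW
        (t.isGE_truncGE_obj P (a + 1) (a + 1)))
      calc f = (f ≫ i) ≫ s := by rw [Category.assoc, his, Category.comp_id]
        _ = g ≫ v ≫ s := by rw [hg, Category.assoc]
        _ = 0 := by rw [hvs, comp_zero]
    have hY2 : t.IsLE Y (a + 1 + m - 1) := by
      have h3 : t.IsLE Y (a + ((m + 1 : ℕ) : ℤ) - 1) := isLE_retract h2 i s his
      have h4 : a + ((m + 1 : ℕ) : ℤ) - 1 = a + 1 + m - 1 := by push_cast; ring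
      rwa [h4] at h3
    obtain ⟨A, v', r', hA, hsum⟩ := ih (a + 1) Y (hC.retract Y P i s his hP) hY1 hY2
    refine ⟨Fin.cons B A, Fin.cases v (fun k => v' k ≫ i), Fin.cases r (fun k => s ≫ r' k),
      ?_, ?_⟩
    · intro k
      refine Fin.cases ?_ (fun k => ?_) k
      · refine ⟨hvr, hC.retract B P v r hvr hP, ?_, ?_⟩
        · simpa using hB2
        · simpa using hB1
      · obtain ⟨e1, e2, e3, e4⟩ := hA k
        have e5 : a + 1 + ((k : ℕ) : ℤ) = a + ((k.succ : ℕ) : ℤ) := by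
          rw [Fin.val_succ]
          push_cast
          ring
        rw [e5] at e3 e4
        refine ⟨?_, e2, e3, e4⟩
        change (v' k ≫ i) ≫ s ≫ r' k = 𝟙 (A k)
        rw [Category.assoc, ← Category.assoc i, his, Category.id_comp, e1]
    · rw [Fin.sum_univ_succ]
      change r ≫ v + ∑ k, (s ≫ r' k) ≫ v' k ≫ i = 𝟙 P
      have h5 : ∑ k, (s ≫ r' k) ≫ v' k ≫ i = s ≫ i := by
        calc ∑ k, (s ≫ r' k) ≫ v' k ≫ i = ∑ k, s ≫ (r' k ≫ v' k) ≫ i := by
              simp only [Category.assoc]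
          _ = s ≫ (∑ k, r' k ≫ v' k) ≫ i := by
              rw [Preadditive.sum_comp, Preadditive.comp_sum]
          _ = s ≫ i := by rw [hsum, Category.id_comp]
      rw [h5, hsi, hq]
      abel

include hC hS in
/-- The part of degree `n` of a Chow motive. -/
lemma piece (P : C) (hP : Chow P) (n : ℤ) :
    ∃ (A : C) (v : A ⟶ P) (r : P ⟶ A), v ≫ r = 𝟙 A ∧ Chow A ∧ t.IsGE A n ∧ t.IsLE A n ∧
      ∀ (E : Type w) [Field E] (R : Realisation C E), TExact t R →
        R.H.map ((r ≫ v)⟦n⟧') = 𝟙 _ := by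
  let Y : C := (t.truncLT (n + 1)).obj P
  let ι : Y ⟶ P := (t.truncLTι (n + 1)).app P
  obtain ⟨ρ, hιρ⟩ : ∃ ρ : P ⟶ Y, ι ≫ ρ = 𝟙 Y := hS P hP (n + 1)
  have hYC : Chow Y := hC.retract Y P ι ρ hιρ hP
  have TY := t.triangleLTGE_distinguished n Y
  have hδ : (t.truncGEδLT n).app Y = 0 := delta_zero (hS Y hYC n)
  let π : Y ⟶ (t.truncGE n).obj Y := (t.truncGEπ n).app Y
  obtain ⟨σ, hσπ⟩ : ∃ σ : (t.truncGE n).obj Y ⟶ Y, σ ≫ π = 𝟙 _ := split3' TY hδ
  have hY1 : t.IsLE Y n := t.isLE_truncLT_obj P (n + 1) n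
  refine ⟨(t.truncGE n).obj Y, σ ≫ ι, ρ ≫ π, ?_, hC.retract _ Y σ π hσπ hYC,
    t.isGE_truncGE_obj Y n n, isLE_retract hY1 σ π hσπ, ?_⟩
  · rw [Category.assoc, ← Category.assoc ι, hιρ, Category.id_comp, hσπ]
  · intro E _ R he
    have h1 : IsIso (R.H.map (ι⟦n⟧')) := isIso_ι he (by omega)
    have h2 : IsIso (R.H.map (π⟦n⟧')) := isIso_π he le_rfl
    have h3 : R.H.map (π⟦n⟧') ≫ R.H.map (σ⟦n⟧') = 𝟙 _ :=
      other_side (R := R) (n := n) σ π hσπ (Or.inl h2)
    have h4 : R.H.map (ρ⟦n⟧') ≫ R.H.map (ι⟦n⟧') = 𝟙 _ :=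
      other_side (R := R) (n := n) ι ρ hιρ (Or.inr h1)
    have h5 : R.H.map (((ρ ≫ π) ≫ σ ≫ ι)⟦n⟧') = R.H.map (ρ⟦n⟧') ≫ (R.H.map (π⟦n⟧') ≫
        R.H.map (σ⟦n⟧')) ≫ R.H.map (ι⟦n⟧') := by
      simp only [Functor.map_comp, Category.assoc]
    rw [h5, h3, Category.id_comp, h4]

end

end Pool.Agent.Q227.FM
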