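import Pool.Agent.Q227.FM.Std
import Pool.Agent.Q227.FM.Bwd

/-!
# A motivic t-structure implies the standard conjectures: the conclusions
-/

set_option autoImplicit false
set_option linter.unusedSectionVars false
set_option linter.unusedSimpArgs false
set_option backward.isDefEq.respectTransparency false
set_option backward.defeqAttrib.useBackward true

open CategoryTheory Limits MonoidalCategory Pretriangulated Triangulated ZeroObject
open Pool.Agent.Y116.MT
open Pool.Agent.Q57.MT (Conservative isIso_of_H isIso_H_trunc)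

namespace Pool.Agent.Q227.FM

universe v u w

open Functor.LaxMonoidal

section

variable {C : Type u} [Category.{v} C] [Preadditive C] [HasZeroObject C] [HasShift C ℤ]
  [∀ n : ℤ, (shiftFunctor C n).Additive] [Pretriangulated C] [IsTriangulated C]
  [MonoidalCategory C] [SymmetricCategory C] [TensorTriangulated C] [MonoidalPreadditive C]
  [RightRigidCategory C] [Linear ℚ C] [MonoidalLinear ℚ C]
  {E : Type w} [Field E] [CharZero E] {R : Realisation C E} {t : TStructure C}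
  (hun : ∀ e : 𝟙_ C ⟶ 𝟙_ C, ∃ c : ℚ, e = c • 𝟙 (𝟙_ C))
  (ht : TensorCompat t) (he : TExact t R) (hu : Hrt t (𝟙_ C))
  {Chow : ObjectProperty C} (hC : IsChow Chow)

include hun ht he hu hC in
/-- The endomorphisms of Chow motives in one degree are regular. -/
theorem regular_end_t {A : C} (hA : Chow A) {n : ℤ} (h1 : t.IsGE A n) (h2 : t.IsLE A n)
    (a : A ⟶ A) : ∃ b : A ⟶ A, a ≫ b ≫ a = a := by
  obtain ⟨κ, hκ⟩ := exists_coeff R hun
  have hid := idem_of_end_unit hun R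
  set X : C := A⟦n⟧ with hX
  have hXh : Hrt t X := ⟨t.isLE_shift A n n 0, t.isGE_shift A n n 0⟩
  have hXd : R.Deg X 0 := he.deg hXh
  let τ : End X →ₗ[ℚ] ℚ := κ ∘ₗ trL X
  have hτ : ∀ x : End X, LinearMap.trace E (R.H.obj X) (rhoE R X x) = algebraMap ℚ E (τ x) := by
    intro x
    have h1 := H_trace hXd (x : X ⟶ X)
    rw [hκ (tr (C := C) (X := X) x), unit_scalar] at h1
    exact h1.symm
  have hcyc : ∀ x y : End X, τ (x * y) = τ (y * x) := by
    intro x y
    apply (algebraMap ℚ E).injective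
    rw [← hτ, ← hτ, (rhoE R X).map_mul, (rhoE R X).map_mul, LinearMap.trace_mul_comm]
  have hnd : ∀ x : End X, x ≠ 0 → ∃ y, τ (x * y) ≠ 0 := by
    intro x hx
    have h1 : nm (C := C) (M := X) (N := X) x ≠ 0 := fun h => hx (eq_zero_of_nm _ h)
    have h2 : Chow (X ⊗ (Xᘁ : C)) := hC.iso (hC.tensor _ _ hA (hC.dual _ hA)) (endShift A n).symm
    obtain ⟨r, hr⟩ := heart_pairing ht he hu hid (ht.hrt hXh (dual_hrt ht hu hXh)) Chow hC.unit
      (fun Z hZ => hC.tensor _ _ hZ h2) (fun Z hZ m hm f => hC.orth_pos hm hZ hC.unit f)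
      (nm (C := C) (M := X) (N := X) x) h1
    obtain ⟨y, hy⟩ := exists_tr r
    refine ⟨y, ?_⟩
    rw [hcyc]
    intro h0
    apply hr
    rw [hy x, hκ (tr (x ≫ y))]
    have h3 : κ (tr ((x : X ⟶ X) ≫ y)) = 0 := h0
    rw [h3, zero_smul]
  obtain ⟨y, hy⟩ := regular_of_trace (rhoE R X) τ hτ hnd (a⟦n⟧' : X ⟶ X)
  obtain ⟨b, hb⟩ := (shiftFunctor C n).map_surjective (y : X ⟶ X)
  refine ⟨b, (shiftFunctor C n).map_injective ?_⟩
  rw [Functor.map_comp, Functor.map_comp, hb, ← Category.assoc]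
  exact (Category.assoc _ _ _).trans (hy : ((a⟦n⟧' : X ⟶ X) ≫ ((y : X ⟶ X) ≫ (a⟦n⟧' : X ⟶ X))) = _)

include hun ht he hu hC in
theorem regular_hom_t {A B : C} (hA : Chow A) (hB : Chow B) {n : ℤ} (h1 : t.IsGE A n)
    (h2 : t.IsLE A n) (h3 : t.IsGE B n) (h4 : t.IsLE B n) (f : A ⟶ B) :
    ∃ g : B ⟶ A, f ≫ g ≫ f = f := by
  have TB := binaryBiproductTriangle_distinguished A B
  obtain ⟨b, hb⟩ := regular_end_t hun ht he hu hC (hC.sum _ _ hA hB)
    (t.isGE₂ _ TB n h1 h3) (t.isLE₂ _ TB n h2 h4) (biprod.fst ≫ f ≫ biprod.inr)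
  refine ⟨biprod.inr ≫ b ≫ biprod.fst, ?_⟩
  have h1 := congrArg (fun t => (biprod.inl : A ⟶ A ⊞ B) ≫ t ≫ (biprod.snd : A ⊞ B ⟶ B)) hb
  simpa using h1

variable (hS : ∀ P : C, Chow P → ∀ n : ℤ, Spl t n P)

include hun ht he hu hC hS in
/-- Homological and numerical equivalence agree. -/
theorem hom_num {Q : C} (hQ : Chow Q) (s : 𝟙_ C ⟶ Q) :
    R.H.map s = 0 ↔ ∀ r : Q ⟶ 𝟙_ C, s ≫ r = 0 := by
  constructor
  · intro h r
    apply end_unit_zero hun R
    rw [Functor.map_comp, h, zero_comp]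
  · intro h
    by_contra hs
    obtain ⟨A, v, r, hvr, hA, h1, h2, h3⟩ := piece.{v, u, w} hC hS Q hQ 0
    have h4 : R.H.map (r ≫ v) = 𝟙 _ := by
      have h5 := h3 E R he
      have h6 : (r ≫ v)⟦(0 : ℤ)⟧' = (shiftFunctorZero C ℤ).hom.app _ ≫ (r ≫ v) ≫
        (shiftFunctorZero C ℤ).inv.app _ := shiftZero' (A := ℤ) (f := r ≫ v)
      rw [h6, Functor.map_comp, Functor.map_comp] at h5
      let α : R.H.obj (Q⟦(0 : ℤ)⟧) ≅ R.H.obj Q := R.H.mapIso ((shiftFunctorZero C ℤ).app Q)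
      have h7 : α.hom ≫ R.H.map (r ≫ v) ≫ α.inv = 𝟙 _ := h5
      calc R.H.map (r ≫ v) = α.inv ≫ (α.hom ≫ R.H.map (r ≫ v) ≫ α.inv) ≫ α.hom := by
            simp only [Category.assoc, Iso.inv_hom_id, Iso.inv_hom_id_assoc, Category.comp_id]
        _ = 𝟙 _ := by rw [h7, Category.id_comp, Iso.inv_hom_id]
    have h5 : s ≫ r ≠ 0 := by
      intro h5
      apply hs
      rw [← Category.comp_id (R.H.map s), ← h4, ← Functor.map_comp, ← Category.assoc, h5,
        zero_comp, Functor.map_zero]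
    obtain ⟨r', hr'⟩ := heart_pairing ht he hu (idem_of_end_unit hun R) ⟨h2, h1⟩ Chow hC.unit
      (fun Z hZ => hC.tensor _ _ hZ hA) (fun Z hZ m hm f => hC.orth_pos hm hZ hC.unit f)
      (s ≫ r) h5
    apply hr'
    rw [Category.assoc, h]

omit [Linear ℚ C] [MonoidalLinear ℚ C] [CharZero E] in
include he hC hS in
/-- The conjecture of Lefschetz type. -/
theorem lefschetz (hc : Conservative R) {P Q : C} (hP : Chow P) (hQ : Chow Q) (f : P ⟶ Q)
    (n : ℤ) (hf : IsIso (R.H.map (f⟦n⟧'))) :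
    ∃ g : Q ⟶ P, ∀ (E' : Type w) [Field E'] (R' : Realisation C E'), TExact t R' →
      R'.H.map ((f ≫ g)⟦n⟧') = 𝟙 _ ∧ R'.H.map ((g ≫ f)⟦n⟧') = 𝟙 _ := by
  obtain ⟨A, v, r, hvr, hA, h1, h2, h3⟩ := piece.{v, u, w} hC hS P hP n
  obtain ⟨B, w, q, hwq, hB, h4, h5, h6⟩ := piece.{v, u, w} hC hS Q hQ n
  let f' : A ⟶ B := v ≫ f ≫ q
  have hf' : IsIso f' := by
    apply isIso_of_deg he hc h1 h2 h4 h5
    have e1 : IsIso (R.H.map (v⟦n⟧')) := by
      refine ⟨R.H.map (r⟦n⟧'), ?_, ?_⟩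
      · rw [← Functor.map_comp, ← Functor.map_comp, hvr, CategoryTheory.Functor.map_id,
          CategoryTheory.Functor.map_id]
      · rw [← Functor.map_comp, ← Functor.map_comp, h3 E R he]
    have e2 : IsIso (R.H.map (q⟦n⟧')) := by
      refine ⟨R.H.map (w⟦n⟧'), ?_, ?_⟩
      · rw [← Functor.map_comp, ← Functor.map_comp, h6 E R he]
      · rw [← Functor.map_comp, ← Functor.map_comp, hwq, CategoryTheory.Functor.map_id,
          CategoryTheory.Functor.map_id]
    have e3 : R.H.map (f'⟦n⟧') = R.H.map (v⟦n⟧') ≫ R.H.map (f⟦n⟧') ≫ R.H.map (q⟦n⟧') := by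
      simp only [f', Functor.map_comp]
    rw [e3]
    infer_instance
  refine ⟨q ≫ inv f' ≫ v, fun E' _ R' he' => ?_⟩
  let G : C ⥤ ModuleCat.{w} E' := shiftFunctor C n ⋙ R'.H
  have g1 : G.map r ≫ G.map v = 𝟙 _ := by
    rw [← Functor.map_comp]
    exact h3 E' R' he'
  have g2 : G.map q ≫ G.map w = 𝟙 _ := by
    rw [← Functor.map_comp]
    exact h6 E' R' he'
  have g3 : G.map v ≫ G.map f ≫ G.map q = G.map f' := by
    simp only [f', Functor.map_comp]
  have g4 : G.map f' ≫ G.map (inv f') = 𝟙 _ := by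
    rw [← Functor.map_comp, IsIso.hom_inv_id, CategoryTheory.Functor.map_id]
  have g5 : G.map (inv f') ≫ G.map f' = 𝟙 _ := by
    rw [← Functor.map_comp, IsIso.inv_hom_id, CategoryTheory.Functor.map_id]
  constructor
  · change G.map (f ≫ q ≫ inv f' ≫ v) = 𝟙 _
    calc G.map (f ≫ q ≫ inv f' ≫ v) =
          𝟙 _ ≫ G.map f ≫ G.map q ≫ G.map (inv f') ≫ G.map v := by
            rw [Category.id_comp]
            simp only [Functor.map_comp]
      _ = G.map r ≫ (G.map v ≫ G.map f ≫ G.map q) ≫ G.map (inv f') ≫ G.map v := by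
            rw [← g1]
            simp only [Category.assoc]
      _ = G.map r ≫ (G.map f' ≫ G.map (inv f')) ≫ G.map v := by
            rw [g3]
            simp only [Category.assoc]
      _ = 𝟙 _ := by rw [g4, Category.id_comp, g1]
  · change G.map ((q ≫ inv f' ≫ v) ≫ f) = 𝟙 _
    calc G.map ((q ≫ inv f' ≫ v) ≫ f) =
          (G.map q ≫ G.map (inv f') ≫ G.map v ≫ G.map f) ≫ 𝟙 _ := by
            rw [Category.comp_id]
            simp only [Functor.map_comp, Category.assoc]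
      _ = G.map q ≫ G.map (inv f') ≫ (G.map v ≫ G.map f ≫ G.map q) ≫ G.map w := by
            rw [← g2]
            simp only [Category.assoc]
      _ = G.map q ≫ (G.map (inv f') ≫ G.map f') ≫ G.map w := by
            rw [g3]
            simp only [Category.assoc]
      _ = 𝟙 _ := by rw [g5, Category.id_comp, g2]

end

section

variable {C : Type u} [Category.{v} C] [Preadditive C] [HasZeroObject C] [HasShift C ℤ]
  [∀ n : ℤ, (shiftFunctor C n).Additive] [Pretriangulated C] [IsTriangulated C]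
  [IsIdempotentComplete C]
  [MonoidalCategory C] [SymmetricCategory C] [TensorTriangulated C] [MonoidalPreadditive C]
  [RightRigidCategory C] [Linear ℚ C] [MonoidalLinear ℚ C]
  {Λ : Type*} {E : Λ → Type w} [∀ l, Field (E l)] [∀ l, CharZero (E l)]
  {R : ∀ l, Realisation C (E l)}
  (hun : ∀ e : 𝟙_ C ⟶ 𝟙_ C, ∃ c : ℚ, e = c • 𝟙 (𝟙_ C))
  {Chow : ObjectProperty C} (hC : IsChow Chow)

include hun hC in
/-- A motivic t-structure implies the standard conjectures. -/
theorem standard {T : C} (hL : HardLefschetz Chow T R) (l₀ : Λ) {t : TStructure C}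
    (hm : IsMotivic t R) :
    ChowKuenneth Chow R ∧ PureMorphisms Chow R ∧ LefschetzType Chow R ∧
      HomologicalIsNumerical Chow R := by
  have ht : TensorCompat t := ⟨hm.tensor_le, hm.tensor_ge⟩
  have he : ∀ l, TExact t (R l) := fun l => ⟨hm.exact_le l, hm.exact_ge l⟩
  have hu := unit_hrt ht hm.nondeg_le hm.nondeg_ge
  have hc : ∀ l, Conservative (R l) := fun l X hX =>
    conservative ht (he l) hu (idem_of_end_unit hun (R l)) hm.nondeg_le hm.nondeg_ge hX
  have hle : ∀ (l : Λ) (X : C) (n : ℤ), (∀ i : ℤ, n < i → IsZero ((R l).H.obj (X⟦i⟧))) →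
      t.IsLE X n := fun l X n hX => Pool.Agent.Y116.MT.isLE_of_H ht (he l) hu
    (idem_of_end_unit hun (R l)) hm.nondeg_le hm.nondeg_ge hX
  have hge : ∀ (l : Λ) (X : C) (n : ℤ), (∀ i : ℤ, i < n → IsZero ((R l).H.obj (X⟦i⟧))) →
      t.IsGE X n := fun l X n hX => Pool.Agent.Y116.MT.isGE_of_H ht (he l) hu
    (idem_of_end_unit hun (R l)) hm.nondeg_le hm.nondeg_ge hX
  have hbd : ∀ X : C, ∃ N : ℕ, t.IsLE X N ∧ t.IsGE X (-N) := fun X =>
    bounded_of_H ht (he l₀) hu (idem_of_end_unit hun (R l₀)) hm.nondeg_le hm.nondeg_ge X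
  have hT1 : t.IsLE T (-2) := hle l₀ T (-2) fun i hi => hL.degree l₀ i (by omega)
  have hT2 : t.IsGE T (-2) := hge l₀ T (-2) fun i hi => hL.degree l₀ i (by omega)
  obtain ⟨T', ⟨eT⟩⟩ := hL.invertible
  have hS : ∀ P : C, Chow P → ∀ n : ℤ, Spl t n P := by
    intro P hP n
    obtain ⟨Q, i, r, e, hir, hQ, hQL⟩ := hL.lefschetz P hP
    obtain ⟨N, h1, h2⟩ := hbd Q
    refine Spl.retract (spl_of_HL ht (he l₀) (hc l₀) eT (hL.degree l₀) hT1 hT2 e
      (N + e.natAbs) Q ?_ ?_ ?_ n) i r hir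
    · exact t.isGE_of_ge Q _ (-(N : ℤ)) (by omega)
    · exact t.isLE_of_le Q (N : ℤ) _ (by omega)
    · intro k _
      obtain ⟨L, hL⟩ := hQL k
      exact ⟨L, hL l₀⟩
  refine ⟨?_, ?_, ?_, ?_⟩
  · intro P hP
    obtain ⟨N, h1, h2⟩ := hbd P
    have h3 : t.IsLE P (-(N : ℤ) + ((2 * N + 1 : ℕ) : ℤ) - 1) :=
      t.isLE_of_le P (N : ℤ) _ (by push_cast; omega)
    obtain ⟨A, v, r, hA, hsum⟩ := ck_dec hC hS (2 * N + 1) (-(N : ℤ)) P hP h2 h3
    refine ⟨-(N : ℤ), 2 * N + 1, A, v, r, fun i => ⟨(hA i).1, (hA i).2.1, fun l j hj => ?_⟩,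
      hsum⟩
    exact H_zero_of_deg (he l) (hA i).2.2.1 (hA i).2.2.2 hj
  · intro l A B i j f hA hB hAi hBj
    have a1 := hle l A i fun k hk => hAi k (by omega)
    have a2 := hge l A i fun k hk => hAi k (by omega)
    have b1 := hle l B j fun k hk => hBj k (by omega)
    have b2 := hge l B j fun k hk => hBj k (by omega)
    refine ⟨fun hij => t.zero_of_isLE_of_isGE f i j hij a1 b2, fun hij hf => ?_, fun hij => ?_⟩
    · subst hij
      apply (shiftFunctor C i).map_injective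
      rw [Functor.map_zero]
      exact faithful_heart ht (he l) hu (idem_of_end_unit hun (R l))
        ⟨t.isLE_shift A i i 0, t.isGE_shift A i i 0⟩ ⟨t.isLE_shift B i i 0, t.isGE_shift B i i 0⟩
        _ hf
    · subst hij
      exact regular_hom_t (R := R l) hun ht (he l) hu hC hA hB a2 a1 b2 b1 f
  · intro P Q f n l hP hQ hf
    obtain ⟨g, hg⟩ := lefschetz (R := R l) (he l) hC hS (hc l) hP hQ f n hf
    exact ⟨g, fun l' => hg (E l') (R l') (he l')⟩
  · intro l Q s hQ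
    exact hom_num (R := R l) hun ht (he l) hu hC hS hQ s

end

end Pool.Agent.Q227.FM
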