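import Pool.Agent.Y116.MT.Tri

/-!
# Extensions in a triangulated category
-/

set_option autoImplicit false
set_option linter.unusedSectionVars false
set_option backward.isDefEq.respectTransparency false
set_option backward.defeqAttrib.useBackward true

open CategoryTheory Limits Pretriangulated Triangulated ZeroObject
open Pool.Agent.Y116.MT (ye1 ye2 ye3 ce1 ce2 ce3 comp12 comp23 comp31 rotD isIso1_of_isZero3
  split1 split3 split3' isIso2_of_isZero1)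

namespace Pool.Agent.Q227.FM

universe v u

section

variable {C : Type u} [Category.{v} C] [Preadditive C] [HasZeroObject C] [HasShift C ℤ]
  [∀ n : ℤ, (shiftFunctor C n).Additive] [Pretriangulated C]

/-- `Y` is an extension of `Z` by `X`. -/
def Tr (X Y Z : C) : Prop :=
  ∃ (f : X ⟶ Y) (g : Y ⟶ Z) (h : Z ⟶ X⟦(1 : ℤ)⟧), Triangle.mk f g h ∈ distTriang C

lemma Tr.iso {X Y Z X' Y' Z' : C} (h : Tr X Y Z) (e₁ : X ≅ X') (e₂ : Y ≅ Y') (e₃ : Z ≅ Z') :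
    Tr X' Y' Z' := by
  obtain ⟨f, g, h, hT⟩ := h
  refine ⟨e₁.inv ≫ f ≫ e₂.hom, e₂.inv ≫ g ≫ e₃.hom, e₃.inv ≫ h ≫ e₁.hom⟦(1 : ℤ)⟧', ?_⟩
  refine isomorphic_distinguished _ hT _ (Triangle.isoMk _ _ e₁.symm e₂.symm e₃.symm ?_ ?_ ?_)
  · simp
  · simp
  · simp [← Functor.map_comp]

lemma Tr.rot {X Y Z : C} (h : Tr X Y Z) : Tr Y Z (X⟦(1 : ℤ)⟧) := by
  obtain ⟨f, g, h, hT⟩ := h
  exact ⟨_, _, _, rotD hT⟩

lemma Tr.shift {X Y Z : C} (h : Tr X Y Z) (n : ℤ) : Tr (X⟦n⟧) (Y⟦n⟧) (Z⟦n⟧) := by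
  obtain ⟨f, g, h, hT⟩ := h
  exact ⟨_, _, _, Triangle.shift_distinguished _ hT n⟩

lemma Tr.unshift {X Y Z : C} (h : Tr (X⟦(1 : ℤ)⟧) (Y⟦(1 : ℤ)⟧) (Z⟦(1 : ℤ)⟧)) : Tr X Y Z :=
  (h.shift (-1)).iso (shiftShiftNeg X 1) (shiftShiftNeg Y 1) (shiftShiftNeg Z 1)

lemma Tr.zero (X : C) : Tr 0 X X := ⟨_, _, _, contractible_distinguished₁ X⟩

lemma Tr.isoOfZero {X Y Z : C} (h : Tr X Y Z) (hX : IsZero X) : Nonempty (Y ≅ Z) := by
  obtain ⟨f, g, h, hT⟩ := h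
  have := isIso2_of_isZero1 hT hX
  exact ⟨asIso g⟩

lemma Tr.isoOfZero' {X Y Z : C} (h : Tr X Y Z) (hZ : IsZero Z) : Nonempty (X ≅ Y) := by
  obtain ⟨f, g, h, hT⟩ := h
  have := isIso1_of_isZero3 hT hZ
  exact ⟨asIso f⟩

variable [IsTriangulated C]

lemma Tr.oct {X₁ X₂ X₃ Z₁₂ Z₂₃ : C} (h : Tr X₁ X₂ Z₁₂) (h' : Tr X₂ X₃ Z₂₃) :
    ∃ Z₁₃, Tr X₁ X₃ Z₁₃ ∧ Tr Z₁₂ Z₁₃ Z₂₃ := by
  obtain ⟨f, g, h, hT⟩ := h
  obtain ⟨f', g', h', hT'⟩ := h'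
  obtain ⟨Z, a, b, hZ⟩ := distinguished_cocone_triangle (f ≫ f')
  have O := someOctahedron (rfl : f ≫ f' = f ≫ f') hT hT' hZ
  exact ⟨Z, ⟨_, _, _, hZ⟩, ⟨_, _, _, O.mem⟩⟩

lemma Tr.oct' {A X Y B Z : C} (h : Tr A X Y) (h' : Tr B Y Z) :
    ∃ F, Tr A F B ∧ Tr F X Z := by
  obtain ⟨f, g, h, hT⟩ := h
  obtain ⟨f', g', h', hT'⟩ := h'
  obtain ⟨F, a, b, hF⟩ := distinguished_cocone_triangle₁ (g ≫ g')
  have O := someOctahedron (rfl : g ≫ g' = g ≫ g') (rotD hT) (rotD hT') (rotD hF)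
  exact ⟨F, Tr.unshift ⟨_, _, _, O.mem⟩, ⟨_, _, _, hF⟩⟩

/-- The layers of a t-structure with semisimple pieces. -/
structure Lay (S : ℤ → ObjectProperty C) : Prop where
  retract (b : ℤ) (X Y : C) (f : X ⟶ Y) (g : Y ⟶ X) : f ≫ g = 𝟙 X → S b Y → S b X
  shift (b n : ℤ) (X : C) : S b X → S (b + n) (X⟦n⟧)
  orth (a b : ℤ) (X Y : C) (f : X ⟶ Y) : b < a → S a X → S b Y → f = 0
  reg (b : ℤ) (X Y : C) (f : X ⟶ Y) : S b X → S b Y → ∃ g : Y ⟶ X, f ≫ g ≫ f = f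

variable {S : ℤ → ObjectProperty C} (hS : Lay S)

include hS

lemma Lay.iso {b : ℤ} {X Y : C} (e : X ≅ Y) (h : S b X) : S b Y :=
  hS.retract b Y X e.inv e.hom e.inv_hom_id h

lemma Lay.reg' {a b : ℤ} {X Y : C} (h : b ≤ a) (hX : S a X) (hY : S b Y) (f : X ⟶ Y) :
    ∃ g : Y ⟶ X, f ≫ g ≫ f = f := by
  rcases h.lt_or_eq with h | h
  · exact ⟨0, by rw [hS.orth a b X Y f h hX hY]; simp⟩
  · subst h
    exact hS.reg b X Y f hX hY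

/-- Two layers in the wrong order can be interchanged. -/
lemma swap [IsIdempotentComplete C] {a b : ℤ} {A F B : C} (hab : a < b) (hA : S a A) (hB : S b B)
    (h : Tr A F B) : ∃ K G, S b K ∧ S a G ∧ Tr K F G := by
  obtain ⟨f, g, φ, hT⟩ := h
  obtain ⟨ψ, hψ⟩ := hS.reg' (a := b) (b := a + 1) (by omega) hB (hS.shift a 1 A hA) φ
  have hid : (𝟙 B - φ ≫ ψ) ≫ (𝟙 B - φ ≫ ψ) = 𝟙 B - φ ≫ ψ := by
    have h1 : (φ ≫ ψ) ≫ (φ ≫ ψ) = φ ≫ ψ := by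
      calc (φ ≫ ψ) ≫ (φ ≫ ψ) = (φ ≫ ψ ≫ φ) ≫ ψ := by simp only [Category.assoc]
        _ = φ ≫ ψ := by rw [hψ]
    rw [Preadditive.sub_comp, Preadditive.comp_sub, Preadditive.comp_sub, h1]
    simp
  obtain ⟨K, i, r, hir, hri⟩ := IsIdempotentComplete.idempotents_split _ _ hid
  have hiφ : i ≫ φ = 0 := by
    have h1 : i = i ≫ (𝟙 B - φ ≫ ψ) := by rw [← hri, ← Category.assoc, hir, Category.id_comp]
    rw [h1, Category.assoc, Preadditive.sub_comp, Category.assoc, hψ, Category.id_comp, sub_self,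
      comp_zero]
  obtain ⟨k, hk⟩ := ce3 hT i hiφ
  obtain ⟨G, c, d, hG⟩ := distinguished_cocone_triangle k
  obtain ⟨I, j, m, hI⟩ := distinguished_cocone_triangle i
  refine ⟨K, G, hS.retract b K B i r hir hB, ?_, ⟨_, _, _, hG⟩⟩
  have O := someOctahedron hk.symm hG (rotD hT) hI
  have hm : m = 0 := by
    have h1 : m ≫ i⟦(1 : ℤ)⟧' = 0 := comp31 hI
    have h2 : i⟦(1 : ℤ)⟧' ≫ r⟦(1 : ℤ)⟧' = 𝟙 _ := by
      rw [← Functor.map_comp, hir, CategoryTheory.Functor.map_id]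
    rw [← Category.comp_id m, ← h2, ← Category.assoc, h1, zero_comp]
  obtain ⟨t, ht⟩ := split3' hI hm
  have hj : ∀ {W : C} (x y : I ⟶ W), j ≫ x = j ≫ y → x = y := by
    intro W x y hxy
    rw [← Category.id_comp x, ← Category.id_comp y, ← ht, Category.assoc, Category.assoc, hxy]
  have h1 : O.m₃ ≫ ψ ≫ j = 𝟙 I := by
    apply hj
    have h2 : j ≫ O.m₃ = φ := O.comm₃
    rw [← Category.assoc, h2, Category.comp_id, ← Category.assoc]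
    have h3 : φ ≫ ψ = 𝟙 B - r ≫ i := by rw [hri]; abel
    rw [h3, Preadditive.sub_comp, Category.id_comp, Category.assoc, comp12 hI, comp_zero,
      sub_zero]
  have h4 : O.m₁ = 0 := by
    rw [← Category.comp_id O.m₁, ← h1, ← Category.assoc, comp12 O.mem, zero_comp]
  obtain ⟨w, hw⟩ := split1 O.mem h4
  have h5 : S (a + 1) (G⟦(1 : ℤ)⟧) := hS.retract _ _ _ w _ hw (hS.shift a 1 A hA)
  have h6 := hS.shift (a + 1) (-1) _ h5
  rw [show a + 1 + -1 = a by omega] at h6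
  exact hS.iso (shiftShiftNeg G 1) h6

end

end Pool.Agent.Q227.FM
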