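import Pool.Agent.Q227.FM.Fwd
import Pool.Agent.Q227.FM.Reg

/-!
# Twists of morphisms
-/

set_option autoImplicit false
set_option linter.unusedSectionVars false
set_option linter.unusedSimpArgs false
set_option backward.isDefEq.respectTransparency false
set_option backward.defeqAttrib.useBackward true

open CategoryTheory Limits MonoidalCategory Pretriangulated Triangulated
open Pool.Agent.Y116.MT

namespace Pool.Agent.Q227.FM

universe v u w

open Functor.LaxMonoidal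

section

variable {C : Type u} [Category.{v} C] [Preadditive C] [HasZeroObject C] [HasShift C ℤ]
  [∀ n : ℤ, (shiftFunctor C n).Additive] [Pretriangulated C] [MonoidalCategory C]
  [SymmetricCategory C] [TensorTriangulated C]

lemma lrShift_natural_left {X X' : C} (f : X ⟶ X') (Y : C) (a b : ℤ) :
    (f⟦a⟧') ▷ (Y⟦b⟧) ≫ (lrShift X' Y a b).hom = (lrShift X Y a b).hom ≫ (f ▷ Y)⟦a + b⟧' := by
  simp only [lrShift, Iso.trans_hom, Functor.mapIso_hom, Category.assoc]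
  rw [reassoc_of% (rShift_natural_left (f⟦a⟧') Y b)]
  have h1 : ((f⟦a⟧') ▷ Y)⟦b⟧' ≫ ((lShift X' Y a).hom)⟦b⟧' =
      ((lShift X Y a).hom)⟦b⟧' ≫ (((f ▷ Y)⟦a⟧')⟦b⟧') := by
    rw [← Functor.map_comp, lShift_natural_left, Functor.map_comp]
  rw [reassoc_of% h1]
  have h2 : (((f ▷ Y)⟦a⟧')⟦b⟧') ≫ ((shiftFunctorAdd C a b).symm.app (X' ⊗ Y)).hom =
      ((shiftFunctorAdd C a b).symm.app (X ⊗ Y)).hom ≫ (f ▷ Y)⟦a + b⟧' :=
    (shiftFunctorAdd C a b).inv.naturality (f ▷ Y)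
  have h3 : (((f ▷ Y)⟦a⟧')⟦b⟧') ≫ ((shiftFunctorAdd C a b).app (X' ⊗ Y)).symm.hom =
      ((shiftFunctorAdd C a b).app (X ⊗ Y)).symm.hom ≫ (f ▷ Y)⟦a + b⟧' := h2
  rw [h3]

variable {E : Type w} [Field E] {R : Realisation C E}

lemma isIso_mu_right {X : C} (h : R.Deg X 0) (Y : C) : IsIso (μ R.H Y X) := by
  have h1 := h.isIso_mu Y
  have h2 := Functor.LaxBraided.braided (F := R.H) Y X
  have h3 : IsIso (μ R.H Y X ≫ R.H.map (β_ Y X).hom) := by
    rw [h2]
    infer_instance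
  exact IsIso.of_isIso_comp_right _ (R.H.map (β_ Y X).hom)

/-- Tensoring with an object in one degree preserves isomorphisms on the cohomology. -/
lemma isIso_whisker {X Y T : C} (f : X ⟶ Y) {j d m : ℤ} (hT : R.Deg T d) (hm : j + d = m)
    (hf : IsIso (R.H.map (f⟦j⟧'))) : IsIso (R.H.map ((f ▷ T)⟦m⟧')) := by
  subst hm
  have hT0 : R.Deg (T⟦d⟧) 0 := hT.shift d 0 (by omega)
  have h1 := isIso_mu_right hT0 (X⟦j⟧)
  have h2 := isIso_mu_right hT0 (Y⟦j⟧)
  have h3 : μ R.H (X⟦j⟧) (T⟦d⟧) ≫ R.H.map ((f⟦j⟧') ▷ (T⟦d⟧)) =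
      R.H.map (f⟦j⟧') ▷ R.H.obj (T⟦d⟧) ≫ μ R.H (Y⟦j⟧) (T⟦d⟧) :=
    (μ_natural_left R.H (f⟦j⟧') (T⟦d⟧)).symm
  have h4 : IsIso (μ R.H (X⟦j⟧) (T⟦d⟧) ≫ R.H.map ((f⟦j⟧') ▷ (T⟦d⟧))) := by
    rw [h3]
    infer_instance
  have h5 : IsIso (R.H.map ((f⟦j⟧') ▷ (T⟦d⟧))) :=
    IsIso.of_isIso_comp_left (μ R.H (X⟦j⟧) (T⟦d⟧)) _
  have h6 : R.H.map (lrShift X T j d).hom ≫ R.H.map ((f ▷ T)⟦j + d⟧') =
      R.H.map ((f⟦j⟧') ▷ (T⟦d⟧)) ≫ R.H.map (lrShift Y T j d).hom := by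
    rw [← Functor.map_comp, ← Functor.map_comp, lrShift_natural_left]
  have h7 : IsIso (R.H.map (lrShift X T j d).hom ≫ R.H.map ((f ▷ T)⟦j + d⟧')) := by
    rw [h6]
    infer_instance
  exact IsIso.of_isIso_comp_left (R.H.map (lrShift X T j d).hom) _

end

section

variable {C : Type u} [Category.{v} C] [MonoidalCategory C]

/-- The twists of a morphism. -/
def twMap (T : C) {X Y : C} (f : X ⟶ Y) : ∀ k : ℕ, twist T X k ⟶ twist T Y k
  | 0 => f
  | k + 1 => twMap T f k ▷ T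

lemma twMap_id (T X : C) (k : ℕ) : twMap T (𝟙 X) k = 𝟙 _ := by
  induction k with
  | zero => rfl
  | succ k ih =>
    rw [twMap, ih, id_whiskerRight]
    rfl

lemma twMap_comp (T : C) {X Y Z : C} (f : X ⟶ Y) (g : Y ⟶ Z) (k : ℕ) :
    twMap T (f ≫ g) k = twMap T f k ≫ twMap T g k := by
  induction k with
  | zero => rfl
  | succ k ih =>
    rw [twMap, ih, comp_whiskerRight]
    rfl

end

section

variable {C : Type u} [Category.{v} C] [Preadditive C] [MonoidalCategory C]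
  [SymmetricCategory C] [MonoidalPreadditive C]

/-- Tensoring with an invertible object. -/
noncomputable def invIso {T T' : C} (e : T ⊗ T' ≅ 𝟙_ C) :
    tensorRight T ⋙ tensorRight T' ≅ 𝟭 C :=
  NatIso.ofComponents (fun X => α_ X T T' ≪≫ whiskerLeftIso X e ≪≫ ρ_ X) (by
    intro X Y f
    change (f ▷ T) ▷ T' ≫ (α_ Y T T').hom ≫ Y ◁ e.hom ≫ (ρ_ Y).hom =
      ((α_ X T T').hom ≫ X ◁ e.hom ≫ (ρ_ X).hom) ≫ f
    rw [associator_naturality_left_assoc, ← whisker_exchange_assoc, rightUnitor_naturality]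
    simp only [Category.assoc])

lemma faithful_inv {T T' : C} (e : T ⊗ T' ≅ 𝟙_ C) : (tensorRight T).Faithful :=
  Functor.Faithful.of_comp_iso (invIso e)

lemma full_inv {T T' : C} (e : T ⊗ T' ≅ 𝟙_ C) : (tensorRight T).Full := by
  have h1 := faithful_inv (β_ T' T ≪≫ e)
  exact Functor.Full.of_comp_faithful_iso (invIso e)

lemma twMap_injective {T T' : C} (e : T ⊗ T' ≅ 𝟙_ C) {X Y : C} (k : ℕ) :
    ∀ f g : X ⟶ Y, twMap T f k = twMap T g k → f = g := by
  induction k with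
  | zero => exact fun f g h => h
  | succ k ih =>
    intro f g h
    have h1 := faithful_inv e
    exact ih f g ((tensorRight T).map_injective h)

lemma twMap_surjective {T T' : C} (e : T ⊗ T' ≅ 𝟙_ C) {X Y : C} (k : ℕ) :
    ∀ g : twist T X k ⟶ twist T Y k, ∃ f : X ⟶ Y, twMap T f k = g := by
  induction k with
  | zero => exact fun g => ⟨g, rfl⟩
  | succ k ih =>
    intro g
    have h1 := full_inv e
    obtain ⟨g', hg'⟩ := (tensorRight T).map_surjective (X := twist T X k) (Y := twist T Y k) g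
    obtain ⟨f, rfl⟩ := ih g'
    exact ⟨f, hg'⟩

end

section

variable {C : Type u} [Category.{v} C] [Preadditive C] [HasZeroObject C] [HasShift C ℤ]
  [∀ n : ℤ, (shiftFunctor C n).Additive] [Pretriangulated C] [MonoidalCategory C]
  [SymmetricCategory C] [TensorTriangulated C] {E : Type w} [Field E] {R : Realisation C E}
  {t : TStructure C}

lemma isIso_twMap {X Y T : C} (f : X ⟶ Y) (hT : R.Deg T (-2)) (k : ℕ) :
    ∀ j m : ℤ, m + 2 * k = j → IsIso (R.H.map (f⟦j⟧')) → IsIso (R.H.map ((twMap T f k)⟦m⟧')) := by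
  induction k with
  | zero =>
    intro j m hm hf
    have : m = j := by simpa using hm
    subst this
    exact hf
  | succ k ih =>
    intro j m hm hf
    exact isIso_whisker (twMap T f k) hT (j := m + 2) (by omega)
      (ih j (m + 2) (by push_cast at hm; omega) hf)

lemma isLE_twist (ht : TensorCompat t) {T X : C} (hT : t.IsLE T (-2)) {n : ℤ} (hX : t.IsLE X n)
    (k : ℕ) : t.IsLE (twist T X k) (n - 2 * k) := by
  induction k with
  | zero => simpa [twist] using hX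
  | succ k ih =>
    have h1 := ht.isLE ih hT
    have h2 : n - 2 * (k : ℤ) + -2 = n - 2 * ((k + 1 : ℕ) : ℤ) := by push_cast; ring
    rwa [h2] at h1

lemma isGE_twist (ht : TensorCompat t) {T X : C} (hT : t.IsGE T (-2)) {n : ℤ} (hX : t.IsGE X n)
    (k : ℕ) : t.IsGE (twist T X k) (n - 2 * k) := by
  induction k with
  | zero => simpa [twist] using hX
  | succ k ih =>
    have h1 := ht.isGE ih hT
    have h2 : n - 2 * (k : ℤ) + -2 = n - 2 * ((k + 1 : ℕ) : ℤ) := by push_cast; ring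
    rwa [h2] at h1

/-- The truncation triangle splits. -/
def Spl (t : TStructure C) (n : ℤ) (X : C) : Prop :=
  ∃ r : X ⟶ (t.truncLT n).obj X, (t.truncLTι n).app X ≫ r = 𝟙 _

lemma truncLT_map_add {X Y : C} (n : ℤ) (f g : X ⟶ Y) :
    (t.truncLT n).map (f + g) = (t.truncLT n).map f + (t.truncLT n).map g := by
  apply t.to_truncLT_obj_ext
  have h : ∀ f : X ⟶ Y, (t.truncLT n).map f ≫ (t.truncLTι n).app Y =
    (t.truncLTι n).app X ≫ f := fun f => (t.truncLTι n).naturality f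
  rw [Preadditive.add_comp, h, h, h, Preadditive.comp_add]

lemma Spl.retract {n : ℤ} {X Y : C} (h : Spl t n Y) (i : X ⟶ Y) (p : Y ⟶ X) (hip : i ≫ p = 𝟙 X) :
    Spl t n X := by
  obtain ⟨r, hr⟩ := h
  refine ⟨i ≫ r ≫ (t.truncLT n).map p, ?_⟩
  have h1 : (t.truncLTι n).app X ≫ i = (t.truncLT n).map i ≫ (t.truncLTι n).app Y :=
    ((t.truncLTι n).naturality i).symm
  rw [reassoc_of% h1, reassoc_of% hr, ← Functor.map_comp, hip, CategoryTheory.Functor.map_id]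

lemma Spl.of_isLE {n m : ℤ} {X : C} (h : t.IsLE X m) (hm : m < n) : Spl t n X := by
  have h1 : t.IsLE X (n - 1) := t.isLE_of_le X m (n - 1) (by omega)
  have h2 : IsIso ((t.truncLTι n).app X) :=
    (t.isLE_iff_isIso_truncLTι_app (n - 1) n (by omega) X).1 h1
  exact ⟨inv ((t.truncLTι n).app X), IsIso.hom_inv_id _⟩

lemma Spl.of_isGE {n m : ℤ} {X : C} (h : t.IsGE X m) (hm : n ≤ m) : Spl t n X := by
  have h1 : t.IsGE X n := t.isGE_of_ge X n m hm
  exact ⟨0, (t.isZero_truncLT_obj_of_isGE n X).eq_of_src _ _⟩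

lemma Spl.deg {n m : ℤ} {X : C} (h : t.IsGE X m) (h' : t.IsLE X m) : Spl t n X := by
  by_cases hm : m < n
  · exact Spl.of_isLE h' hm
  · exact Spl.of_isGE h (by omega)

/-- Splitting of direct sums. -/
lemma Spl.sum {n : ℤ} {X A B D : C} (hA : Spl t n A) (hB : Spl t n B) (hD : Spl t n D)
    (v₁ : A ⟶ X) (r₁ : X ⟶ A) (v₂ : B ⟶ X) (r₂ : X ⟶ B) (v₃ : D ⟶ X) (r₃ : X ⟶ D)
    (h : r₁ ≫ v₁ + r₂ ≫ v₂ + r₃ ≫ v₃ = 𝟙 X) : Spl t n X := by
  obtain ⟨a, ha⟩ := hA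
  obtain ⟨b, hb⟩ := hB
  obtain ⟨d, hd⟩ := hD
  have key : ∀ {Z : C} (v : Z ⟶ X) (r : X ⟶ Z) (c : Z ⟶ (t.truncLT n).obj Z),
      (t.truncLTι n).app Z ≫ c = 𝟙 _ →
      (t.truncLTι n).app X ≫ r ≫ c ≫ (t.truncLT n).map v = (t.truncLT n).map (r ≫ v) := by
    intro Z v r c hc
    have h1 : (t.truncLTι n).app X ≫ r = (t.truncLT n).map r ≫ (t.truncLTι n).app Z :=
      ((t.truncLTι n).naturality r).symm
    rw [reassoc_of% h1, reassoc_of% hc, ← Functor.map_comp]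
  refine ⟨r₁ ≫ a ≫ (t.truncLT n).map v₁ + r₂ ≫ b ≫ (t.truncLT n).map v₂ +
    r₃ ≫ d ≫ (t.truncLT n).map v₃, ?_⟩
  rw [Preadditive.comp_add, Preadditive.comp_add, key v₁ r₁ a ha, key v₂ r₂ b hb,
    key v₃ r₃ d hd, ← truncLT_map_add, ← truncLT_map_add, h, CategoryTheory.Functor.map_id]

end

end Pool.Agent.Q227.FM
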