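import Pool.Agent.Q227.FM.Defs
import Pool.Agent.Q57.MT.Vec
import Pool.Agent.Y116.MT.Tri

/-!
# Polynomials in an endomorphism of the identity functor, and weights
-/

set_option autoImplicit false
set_option linter.unusedSectionVars false
set_option linter.unusedSimpArgs false
set_option backward.isDefEq.respectTransparency false
set_option backward.defeqAttrib.useBackward true

open CategoryTheory Limits MonoidalCategory Pretriangulated Triangulated
open Polynomial hiding comp_zero zero_comp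
open Pool.Agent.Y116.MT (ye1 ye2 ye3 ce1 ce2 ce3 comp12 comp23 comp31 rotD TensorTriangulated
  Realisation)

namespace Pool.Agent.Q227.FM

universe v u w

section

variable {C : Type u} [Category.{v} C] [Preadditive C] [Linear ℚ C] (F : 𝟭 C ⟶ 𝟭 C)

/-- `F` on `X`, as an element of the ring of endomorphisms. -/
def frE (X : C) : End X := F.app X

/-- The polynomial `p` evaluated at `F`. -/
noncomputable def ev (X : C) (p : ℚ[X]) : X ⟶ X := Polynomial.aeval (frE F X) p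

lemma ev_add (X : C) (p q : ℚ[X]) : ev F X (p + q) = ev F X p + ev F X q := by
  unfold ev
  rw [map_add]

lemma ev_mul (X : C) (p q : ℚ[X]) : ev F X (p * q) = ev F X p ≫ ev F X q := by
  unfold ev
  rw [mul_comm, map_mul]
  rfl

lemma ev_one (X : C) : ev F X 1 = 𝟙 X := by
  unfold ev
  rw [map_one]
  rfl

lemma ev_zero (X : C) : ev F X 0 = 0 := by
  unfold ev
  rw [map_zero]

lemma ev_X (X : C) : ev F X Polynomial.X = F.app X := by
  unfold ev
  rw [Polynomial.aeval_X]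
  rfl

lemma ev_C (X : C) (c : ℚ) : ev F X (Polynomial.C c) = c • 𝟙 X := by
  unfold ev
  rw [Polynomial.aeval_C, Algebra.algebraMap_eq_smul_one]
  rfl

lemma ev_sum (X : C) {ι : Type*} (s : Finset ι) (f : ι → ℚ[X]) :
    ev F X (∑ i ∈ s, f i) = ∑ i ∈ s, ev F X (f i) := by
  classical
  induction s using Finset.induction_on with
  | empty => simp [ev_zero]
  | insert a s ha ih =>
    rw [Finset.sum_insert ha, Finset.sum_insert ha, ev_add, ih]

/-- Induction for polynomials: constants, sums, multiplication with `X`. -/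
lemma poly_ind {M : ℚ[X] → Prop} (hC : ∀ c, M (Polynomial.C c))
    (hadd : ∀ p q, M p → M q → M (p + q)) (hX : ∀ p, M p → M (p * Polynomial.X)) (p : ℚ[X]) :
    M p := by
  induction p using Polynomial.induction_on with
  | C a => exact hC a
  | add p q hp hq => exact hadd p q hp hq
  | monomial n a h =>
    have : Polynomial.C a * Polynomial.X ^ (n + 1) =
        (Polynomial.C a * Polynomial.X ^ n) * Polynomial.X := by
      rw [pow_succ, mul_assoc]
    rw [this]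
    exact hX _ h

lemma ev_naturality {X Y : C} (f : X ⟶ Y) (p : ℚ[X]) : f ≫ ev F Y p = ev F X p ≫ f := by
  induction p using poly_ind with
  | hC c => rw [ev_C, ev_C, Linear.comp_smul, Linear.smul_comp, Category.comp_id,
      Category.id_comp]
  | hadd p q hp hq =>
    rw [ev_add, ev_add, Preadditive.comp_add, Preadditive.add_comp, hp, hq]
  | hX p hp =>
    have h1 : f ≫ F.app Y = F.app X ≫ f := F.naturality f
    rw [ev_mul, ev_mul, ev_X, ev_X, ← Category.assoc, hp, Category.assoc, h1, Category.assoc]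

lemma functor_rat_smul {D : Type*} [Category D] [Preadditive D] [Linear ℚ D] (G : C ⥤ D)
    [G.Additive] {X Y : C} (c : ℚ) (f : X ⟶ Y) : G.map (c • f) = c • G.map f :=
  map_rat_smul (G.mapAddHom : (X ⟶ Y) →+ (G.obj X ⟶ G.obj Y)) c f

/-- The shift of `F` evaluated at a polynomial. -/
lemma ev_map (G : C ⥤ C) [G.Additive] (X : C) (h : F.app (G.obj X) = G.map (F.app X))
    (p : ℚ[X]) : ev F (G.obj X) p = G.map (ev F X p) := by
  induction p using poly_ind with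
  | hC c => rw [ev_C, ev_C, functor_rat_smul, CategoryTheory.Functor.map_id]
  | hadd p q hp hq => rw [ev_add, ev_add, Functor.map_add, hp, hq]
  | hX p hp => rw [ev_mul, ev_mul, ev_X, ev_X, Functor.map_comp, hp, h]

/-- A functor to vector spaces. -/
lemma ev_vec {E : Type w} [Field E] [CharZero E] (G : C ⥤ ModuleCat.{w} E) [G.Additive] (X : C)
    (p : ℚ[X]) : (G.map (ev F X p)).hom =
      Polynomial.aeval (G.map (F.app X)).hom (p.map (algebraMap ℚ E)) := by
  induction p using poly_ind with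
  | hC c =>
    rw [ev_C, functor_rat_smul, CategoryTheory.Functor.map_id, Polynomial.map_C,
      Polynomial.aeval_C, Pool.Agent.Q57.MT.rat_smul_eq, ModuleCat.hom_smul, ModuleCat.hom_id,
      Algebra.algebraMap_eq_smul_one]
    rfl
  | hadd p q hp hq =>
    rw [ev_add, Functor.map_add, ModuleCat.hom_add, hp, hq, Polynomial.map_add, map_add]
  | hX p hp =>
    rw [mul_comm, ev_mul, ev_X, Functor.map_comp, ModuleCat.hom_comp, hp, mul_comm,
      Polynomial.map_mul, Polynomial.map_X, map_mul, Polynomial.aeval_X]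
    rfl

lemma ev_retract {X Y : C} (i : X ⟶ Y) (r : Y ⟶ X) (h : i ≫ r = 𝟙 X) (p : ℚ[X])
    (hp : ev F Y p = 0) : ev F X p = 0 := by
  have h1 := ev_naturality F i p
  rw [hp, comp_zero] at h1
  rw [← Category.comp_id (ev F X p), ← h, ← Category.assoc, ← h1, zero_comp]

lemma ev_orth {X Y : C} (f : X ⟶ Y) {p q : ℚ[X]} (hp : ev F X p = 0) (hq : ev F Y q = 0)
    (h : IsCoprime p q) : f = 0 := by
  obtain ⟨a, b, hab⟩ := h
  have h1 : f ≫ ev F Y (a * p + b * q) = f := by rw [hab, ev_one, Category.comp_id]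
  rw [← h1, ev_add, Preadditive.comp_add, ev_naturality, ev_mul, hp, comp_zero, zero_comp,
    zero_add, ev_mul, hq, comp_zero, comp_zero]

end

section

variable {C : Type u} [Category.{v} C] [Preadditive C] [HasZeroObject C] [HasShift C ℤ]
  [∀ n : ℤ, (shiftFunctor C n).Additive] [Linear ℚ C] (F : 𝟭 C ⟶ 𝟭 C)
  (hF : ∀ X : C, F.app (X⟦(1 : ℤ)⟧) = (F.app X)⟦(1 : ℤ)⟧')

lemma ev_iso {X Y : C} (e : X ≅ Y) (p : ℚ[X]) : ev F X p = 0 ↔ ev F Y p = 0 :=
  ⟨fun h => ev_retract F e.inv e.hom e.inv_hom_id p h,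
    fun h => ev_retract F e.hom e.inv e.hom_inv_id p h⟩

include hF

lemma ev_shift_one (X : C) (p : ℚ[X]) : ev F (X⟦(1 : ℤ)⟧) p = 0 ↔ ev F X p = 0 := by
  have h1 : ev F (X⟦(1 : ℤ)⟧) p = (ev F X p)⟦(1 : ℤ)⟧' :=
    ev_map F (shiftFunctor C (1 : ℤ)) X (hF X) p
  rw [h1]
  constructor
  · intro h
    exact (shiftFunctor C (1 : ℤ)).map_injective (by rw [h, Functor.map_zero])
  · intro h
    rw [h, Functor.map_zero]

lemma ev_shift (n : ℤ) (X : C) (p : ℚ[X]) : ev F (X⟦n⟧) p = 0 ↔ ev F X p = 0 := by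
  induction n using Int.induction_on with
  | zero => exact ev_iso F ((shiftFunctorZero C ℤ).app X) p
  | succ n ih =>
    rw [← ih, ← ev_shift_one F hF (X⟦(n : ℤ)⟧) p]
    exact ev_iso F ((shiftFunctorAdd' C (n : ℤ) 1 (n + 1) rfl).app X) p
  | pred n ih =>
    rw [← ih, ← ev_shift_one F hF (X⟦-(n : ℤ) - 1⟧) p]
    exact ev_iso F ((shiftFunctorAdd' C (-(n : ℤ) - 1) 1 (-(n : ℤ)) (by ring)).symm.app X) p

variable [Pretriangulated C]

omit hF in
lemma ev_ext {X Y Z : C} {f : X ⟶ Y} {g : Y ⟶ Z} {h : Z ⟶ X⟦(1 : ℤ)⟧}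
    (hT : Triangle.mk f g h ∈ distTriang C) {p q : ℚ[X]} (hX : ev F X p = 0)
    (hZ : ev F Z q = 0) : ev F Y (q * p) = 0 := by
  obtain ⟨a, ha⟩ := ce2 hT (ev F Y q) (by rw [← ev_naturality, hZ, comp_zero])
  rw [ev_mul, ha, Category.assoc, ev_naturality, hX, zero_comp, comp_zero]

end

/-- All complex roots of `p` have absolute value `q ^ (i / 2)` for some `i` in `S`. -/
def Wgt (q : ℕ) (S : Set ℤ) (p : ℚ[X]) : Prop :=
  ∀ z : ℂ, Polynomial.aeval z p = 0 → ∃ i ∈ S, ‖z‖ = (q : ℝ) ^ ((i : ℝ) / 2)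

lemma Wgt.coprime {q : ℕ} (hq : 1 < q) {S T : Set ℤ} (h : Disjoint S T) {p p' : ℚ[X]}
    (hp : Wgt q S p) (hp' : Wgt q T p') : IsCoprime p p' := by
  refine (Polynomial.isCoprime_iff_aeval_ne_zero_of_isAlgClosed ℚ ℂ p p').2 ?_
  intro z
  by_contra hc
  push Not at hc
  obtain ⟨i, hi, h1⟩ := hp z hc.1
  obtain ⟨j, hj, h2⟩ := hp' z hc.2
  have h3 := h1.symm.trans h2
  have hq' : (1 : ℝ) < q := by exact_mod_cast hq
  have h4 := (Real.rpow_right_inj (by positivity) hq'.ne').1 h3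
  have h5 : (i : ℝ) = j := by linarith
  have h6 : i = j := by exact_mod_cast h5
  subst h6
  exact Set.disjoint_left.1 h hi hj

lemma Wgt.mul {q : ℕ} {S : Set ℤ} {p p' : ℚ[X]} (hp : Wgt q S p) (hp' : Wgt q S p') :
    Wgt q S (p * p') := by
  intro z hz
  rw [map_mul, mul_eq_zero] at hz
  exact hz.elim (hp z) (hp' z)

lemma Wgt.one {q : ℕ} {S : Set ℤ} : Wgt q S 1 := by
  intro z hz
  simp at hz

lemma Wgt.mono {q : ℕ} {S T : Set ℤ} (h : S ⊆ T) {p : ℚ[X]} (hp : Wgt q S p) : Wgt q T p :=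
  fun z hz => by
    obtain ⟨i, hi, h1⟩ := hp z hz
    exact ⟨i, h hi, h1⟩

section

variable {C : Type u} [Category.{v} C] [Preadditive C] [HasZeroObject C] [HasShift C ℤ]
  [∀ n : ℤ, (shiftFunctor C n).Additive] [Linear ℚ C]

/-- `X` has weights in `S`. -/
def HasWt (q : ℕ) (F : 𝟭 C ⟶ 𝟭 C) (S : Set ℤ) (X : C) : Prop :=
  ∃ p : ℚ[X], Wgt q S p ∧ ev F X p = 0

variable {q : ℕ} {F : 𝟭 C ⟶ 𝟭 C} {S T : Set ℤ}

lemma HasWt.retract {X Y : C} (h : HasWt q F S Y) (i : X ⟶ Y) (r : Y ⟶ X)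
    (hir : i ≫ r = 𝟙 X) : HasWt q F S X := by
  obtain ⟨p, h1, h2⟩ := h
  exact ⟨p, h1, ev_retract F i r hir p h2⟩

lemma HasWt.iso {X Y : C} (h : HasWt q F S X) (e : X ≅ Y) : HasWt q F S Y :=
  h.retract e.inv e.hom e.inv_hom_id

lemma HasWt.mono {X : C} (h : HasWt q F S X) (hST : S ⊆ T) : HasWt q F T X := by
  obtain ⟨p, h1, h2⟩ := h
  exact ⟨p, h1.mono hST, h2⟩

lemma HasWt.orth (hq : 1 < q) {X Y : C} (f : X ⟶ Y) (hX : HasWt q F S X) (hY : HasWt q F T Y)
    (h : Disjoint S T) : f = 0 := by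
  obtain ⟨p, h1, h2⟩ := hX
  obtain ⟨p', h3, h4⟩ := hY
  exact ev_orth F f h2 h4 (h1.coprime hq h h3)

lemma HasWt.zero {X : C} (hX : IsZero X) : HasWt q F S X :=
  ⟨1, Wgt.one, hX.eq_of_src _ _⟩

lemma HasWt.shift (hF : ∀ X : C, F.app (X⟦(1 : ℤ)⟧) = (F.app X)⟦(1 : ℤ)⟧') {X : C}
    (h : HasWt q F S X) (n : ℤ) : HasWt q F S (X⟦n⟧) := by
  obtain ⟨p, h1, h2⟩ := h
  exact ⟨p, h1, (ev_shift F hF n X p).2 h2⟩

lemma HasWt.unshift (hF : ∀ X : C, F.app (X⟦(1 : ℤ)⟧) = (F.app X)⟦(1 : ℤ)⟧') {X : C} (n : ℤ)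
    (h : HasWt q F S (X⟦n⟧)) : HasWt q F S X := by
  obtain ⟨p, h1, h2⟩ := h
  exact ⟨p, h1, (ev_shift F hF n X p).1 h2⟩

variable [Pretriangulated C]

lemma HasWt.ext {X Y Z : C} {f : X ⟶ Y} {g : Y ⟶ Z} {h : Z ⟶ X⟦(1 : ℤ)⟧}
    (hT : Triangle.mk f g h ∈ distTriang C) (hX : HasWt q F S X) (hZ : HasWt q F S Z) :
    HasWt q F S Y := by
  obtain ⟨p, h1, h2⟩ := hX
  obtain ⟨p', h3, h4⟩ := hZ
  exact ⟨p' * p, h3.mul h1, ev_ext F hT h2 h4⟩

lemma HasWt.sum {X Y : C} (hX : HasWt q F S X) (hY : HasWt q F S Y) : HasWt q F S (X ⊞ Y) :=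
  HasWt.ext (binaryBiproductTriangle_distinguished X Y) hX hY

end

end Pool.Agent.Q227.FM
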